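import Pool.Agent.U508.ST.Gap5

set_option autoImplicit false

/-! Paths between two points of a finite set, and rows. -/

namespace Pool.Agent.U508.NC

open Pool.Agent.U508.ST Pool.Agent.W818.TD H978R2.Hex
open scoped ENNReal

/-- self-avoiding paths from `a` to `b` in `D` -/
def Pt (D : Set (ℤ × ℤ)) (a b : ℤ × ℤ) : Set (List (ℤ × ℤ)) :=
  {l | l.head? = some a ∧ l.getLast? = some b ∧ l.IsChain Nbr ∧ l.Nodup ∧ ∀ p ∈ l, p ∈ D}

/-- the part of a row -/
def row (u v : ℤ) (n : ℕ) : List (ℤ × ℤ) := (List.range n).map (fun i : ℕ => (u + i, v))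

theorem row_len (u v : ℤ) (n : ℕ) : (row u v n).length = n := by simp [row]

theorem mem_row {u v : ℤ} {n : ℕ} {p : ℤ × ℤ} : p ∈ row u v n ↔ p.2 = v ∧ u ≤ p.1 ∧ p.1 < u + n := by
  unfold row
  rw [List.mem_map]
  constructor
  · rintro ⟨i, hi, rfl⟩
    rw [List.mem_range] at hi
    refine ⟨rfl, ?_, ?_⟩
    · show u ≤ u + (i : ℤ)
      omega
    · show u + (i : ℤ) < u + n
      omega
  · rintro ⟨h1, h2, h3⟩
    refine ⟨(p.1 - u).toNat, ?_, ?_⟩
    · rw [List.mem_range]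
      omega
    · apply Prod.ext
      · simp only
        omega
      · exact h1.symm

theorem row_nodup (u v : ℤ) (n : ℕ) : (row u v n).Nodup := by
  unfold row
  refine (List.nodup_range).map ?_
  intro i j h
  simp only [Prod.mk.injEq, and_true] at h
  omega

theorem row_chain (u v : ℤ) (n : ℕ) : (row u v n).IsChain Nbr := by
  rw [List.isChain_iff_getElem]
  intro i hi
  have e1 : (row u v n)[i]'(by omega) = (u + (i : ℤ), v) := by
    simp [row]
  have e2 : (row u v n)[i + 1] = (u + ((i + 1 : ℕ) : ℤ), v) := by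
    simp only [row, List.getElem_map, List.getElem_range]
  rw [e1, e2, nbr_iff]
  left
  refine ⟨rfl, Or.inr ?_⟩
  show (u + ((i + 1 : ℕ) : ℤ)) - (u + (i : ℤ)) = 1
  push_cast
  ring

theorem row_head (u v : ℤ) {n : ℕ} (hn : 1 ≤ n) : (row u v n).head? = some (u, v) := by
  obtain ⟨m, rfl⟩ : ∃ m, n = m + 1 := ⟨n - 1, by omega⟩
  unfold row
  rw [List.range_succ_eq_map]
  simp

theorem row_last (u v : ℤ) {n : ℕ} (hn : 1 ≤ n) : (row u v n).getLast? = some (u + n - 1, v) := by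
  obtain ⟨m, rfl⟩ : ∃ m, n = m + 1 := ⟨n - 1, by omega⟩
  unfold row
  rw [List.range_succ]
  simp only [List.map_append, List.map_cons, List.map_nil, List.getLast?_append, List.getLast?_singleton,
    Option.some_or, Option.some.injEq, Prod.mk.injEq, and_true]
  push_cast
  ring

theorem row_append (u v : ℤ) (n m : ℕ) : row u v (n + m) = row u v n ++ row (u + n) v m := by
  unfold row
  rw [List.range_add, List.map_append, List.map_map]
  congr 1
  apply List.map_congr_left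
  intro i _
  simp only [Function.comp_apply, Prod.mk.injEq, and_true]
  push_cast
  ring

theorem row_ne {u v : ℤ} {n : ℕ} (hn : 1 ≤ n) : row u v n ≠ [] := by
  intro h
  have := row_len u v n
  rw [h] at this
  simp only [List.length_nil] at this
  omega

theorem Pt.ne {D : Set (ℤ × ℤ)} {a b : ℤ × ℤ} {l : List (ℤ × ℤ)} (h : l ∈ Pt D a b) : l ≠ [] := by
  intro e
  have := h.1
  rw [e] at this
  simp at this

theorem row_Pt {D : Set (ℤ × ℤ)} {u v : ℤ} {n : ℕ} (hn : 1 ≤ n)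
    (h : ∀ p : ℤ × ℤ, p.2 = v → u ≤ p.1 → p.1 < u + n → p ∈ D) :
    row u v n ∈ Pt D (u, v) (u + n - 1, v) :=
  ⟨row_head u v hn, row_last u v hn, row_chain u v n, row_nodup u v n, fun p hp => by
    rw [mem_row] at hp
    exact h p hp.1 hp.2.1 hp.2.2⟩

/-- concatenation -/
theorem Pt_append {D : Set (ℤ × ℤ)} {a b c d : ℤ × ℤ} {l m : List (ℤ × ℤ)} (h1 : l ∈ Pt D a b)
    (h2 : m ∈ Pt D c d) (h : Nbr b c) (hd : ∀ p ∈ l, p ∉ m) : l ++ m ∈ Pt D a d := by
  obtain ⟨a1, a2, a3, a4, a5⟩ := h1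
  obtain ⟨b1, b2, b3, b4, b5⟩ := h2
  refine ⟨?_, ?_, ?_, ?_, ?_⟩
  · rw [List.head?_append, a1]
    rfl
  · rw [List.getLast?_append, b2]
    rfl
  · rw [List.isChain_append]
    refine ⟨a3, b3, ?_⟩
    intro x hx y hy
    rw [a2, Option.mem_some_iff] at hx
    rw [b1, Option.mem_some_iff] at hy
    rw [← hx, ← hy]
    exact h
  · rw [List.nodup_append]
    refine ⟨a4, b4, ?_⟩
    intro x hx y hy e
    subst e
    exact hd x hx hy
  · intro p hp
    rw [List.mem_append] at hp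
    rcases hp with hp | hp
    · exact a5 p hp
    · exact b5 p hp

theorem Pt_mono {D D' : Set (ℤ × ℤ)} (h : D ⊆ D') {a b : ℤ × ℤ} : Pt D a b ⊆ Pt D' a b :=
  fun _ hl => ⟨hl.1, hl.2.1, hl.2.2.1, hl.2.2.2.1, fun p hp => h (hl.2.2.2.2 p hp)⟩

/-- image under an automorphism -/
theorem Pt_map {D D' : Set (ℤ × ℤ)} {a b : ℤ × ℤ} {f : ℤ × ℤ → ℤ × ℤ} (hf : Function.Injective f)
    (hn : ∀ p q, Nbr p q → Nbr (f p) (f q)) (hD : ∀ p ∈ D, f p ∈ D') {l : List (ℤ × ℤ)}
    (h : l ∈ Pt D a b) : l.map f ∈ Pt D' (f a) (f b) := by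
  obtain ⟨a1, a2, a3, a4, a5⟩ := h
  refine ⟨?_, ?_, ?_, a4.map hf, ?_⟩
  · rw [List.head?_map, a1]
    rfl
  · rw [List.getLast?_map, a2]
    rfl
  · rw [List.isChain_map]
    exact a3.imp fun {p q} h => hn p q h
  · intro p hp
    rw [List.mem_map] at hp
    obtain ⟨q, hq, rfl⟩ := hp
    exact hD q (a5 q hq)

/-- replacement of a piece -/
theorem splice {D : Set (ℤ × ℤ)} {a b c d : ℤ × ℤ} {P r w R : List (ℤ × ℤ)}
    (h : P ++ r ++ R ∈ Pt D a b) (hr : r.head? = some c) (hr' : r.getLast? = some d)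
    (hw : w ∈ Pt D c d) (h1 : ∀ p ∈ w, p ∉ P) (h2 : ∀ p ∈ w, p ∉ R) : P ++ w ++ R ∈ Pt D a b := by
  obtain ⟨a1, a2, a3, a4, a5⟩ := h
  obtain ⟨b1, b2, b3, b4, b5⟩ := hw
  rw [List.isChain_append, List.isChain_append] at a3
  obtain ⟨⟨c1, c2, c3⟩, c4, c5⟩ := a3
  rw [List.nodup_append, List.nodup_append] at a4
  obtain ⟨⟨d1, d2, d3⟩, d4, d5⟩ := a4
  refine ⟨?_, ?_, ?_, ?_, ?_⟩
  · rw [List.append_assoc, List.head?_append] at a1 ⊢
    rw [List.head?_append, hr] at a1
    rw [List.head?_append, b1]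
    exact a1
  · rw [List.getLast?_append, List.getLast?_append] at a2 ⊢
    rw [hr'] at a2
    rw [b2]
    exact a2
  · rw [List.isChain_append, List.isChain_append]
    refine ⟨⟨c1, b3, ?_⟩, c4, ?_⟩
    · intro x hx y hy
      apply c3 x hx y
      rw [hr]
      rw [b1] at hy
      exact hy
    · intro x hx y hy
      apply c5 x _ y hy
      rw [List.getLast?_append] at hx ⊢
      rw [b2] at hx
      rw [hr']
      exact hx
  · rw [List.nodup_append, List.nodup_append]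
    refine ⟨⟨d1, b4, ?_⟩, d4, ?_⟩
    · intro x hx y hy e
      subst e
      exact h1 x hy hx
    · intro x hx y hy e
      subst e
      rw [List.mem_append] at hx
      rcases hx with hx | hx
      · exact d5 x (List.mem_append_left _ hx) x hy rfl
      · exact h2 x hx hy
  · intro p hp
    rw [List.mem_append, List.mem_append] at hp
    rcases hp with (hp | hp) | hp
    · exact a5 p (by simp [hp])
    · exact b5 p hp
    · exact a5 p (by simp [hp])

/-- mass -/
noncomputable def Zm (x : ℝ) (S : Set (List (ℤ × ℤ))) : ℝ≥0∞ :=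
  ∑' l : S, ENNReal.ofReal (x ^ (l.1.length - 1))

theorem Zm_inj {x : ℝ} {S S' : Set (List (ℤ × ℤ))} (f : List (ℤ × ℤ) → List (ℤ × ℤ)) (c : ℝ≥0∞)
    (hm : ∀ l ∈ S, f l ∈ S') (hi : Set.InjOn f S)
    (hw : ∀ l ∈ S, c * ENNReal.ofReal (x ^ (l.length - 1)) ≤ ENNReal.ofReal (x ^ ((f l).length - 1))) :
    c * Zm x S ≤ Zm x S' := by
  unfold Zm
  rw [← ENNReal.tsum_mul_left]
  let g : S → S' := fun l => ⟨f l.1, hm _ l.2⟩
  have hg : Function.Injective g := by
    intro l l' h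
    exact Subtype.ext (hi l.2 l'.2 (congrArg Subtype.val h))
  refine le_trans (ENNReal.tsum_le_tsum fun l => hw l.1 l.2) ?_
  exact ENNReal.tsum_comp_le_tsum_of_injective hg
    (fun l : S' => ENNReal.ofReal (x ^ (l.1.length - 1)))

end Pool.Agent.U508.NC
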