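import Pool.Agent.U508.NC.Col

set_option autoImplicit false

/-! Several columns. -/

namespace Pool.Agent.U508.NC

open Pool.Agent.U508.ST Pool.Agent.W818.TD H978R2.Hex
open scoped ENNReal

theorem Zm_prod {x : ℝ} {S1 S2 S' : Set (List (ℤ × ℤ))}
    (f : List (ℤ × ℤ) → List (ℤ × ℤ) → List (ℤ × ℤ)) (c : ℝ≥0∞)
    (hm : ∀ l ∈ S1, ∀ η ∈ S2, f l η ∈ S')
    (hi : ∀ l ∈ S1, ∀ η ∈ S2, ∀ l' ∈ S1, ∀ η' ∈ S2, f l η = f l' η' → l = l' ∧ η = η')
    (hw : ∀ l ∈ S1, ∀ η ∈ S2, c * (ENNReal.ofReal (x ^ (l.length - 1)) *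
      ENNReal.ofReal (x ^ (η.length - 1))) ≤ ENNReal.ofReal (x ^ ((f l η).length - 1))) :
    c * (Zm x S1 * Zm x S2) ≤ Zm x S' := by
  unfold Zm
  rw [← ENNReal.tsum_mul_right, ← ENNReal.tsum_mul_left]
  have e1 : ∀ l : S1, c * (ENNReal.ofReal (x ^ (l.1.length - 1)) *
      ∑' η : S2, ENNReal.ofReal (x ^ (η.1.length - 1))) =
      ∑' η : S2, c * (ENNReal.ofReal (x ^ (l.1.length - 1)) * ENNReal.ofReal (x ^ (η.1.length - 1))) := by
    intro l
    rw [← ENNReal.tsum_mul_left, ← ENNReal.tsum_mul_left]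
  rw [tsum_congr e1, ← ENNReal.tsum_prod (f := fun (l : S1) (η : S2) =>
    c * (ENNReal.ofReal (x ^ (l.1.length - 1)) * ENNReal.ofReal (x ^ (η.1.length - 1))))]
  let g : S1 × S2 → S' := fun q => ⟨f q.1 q.2, hm _ q.1.2 _ q.2.2⟩
  have hg : Function.Injective g := by
    rintro ⟨l, η⟩ ⟨l', η'⟩ h
    obtain ⟨h1, h2⟩ := hi l l.2 η η.2 l' l'.2 η' η'.2 (congrArg Subtype.val h)
    rw [Subtype.ext h1, Subtype.ext h2]
  refine le_trans (ENNReal.tsum_le_tsum fun q => hw q.1 q.1.2 q.2 q.2.2) ?_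
  exact ENNReal.tsum_comp_le_tsum_of_injective hg
    (fun l : S' => ENNReal.ofReal (x ^ (l.1.length - 1)))

/-- the move of a column to its place -/
def phi (L h k : ℕ) (p : ℤ × ℤ) : ℤ × ℤ :=
  (p.1 + ((k * L : ℕ) : ℤ), if k % 2 = 0 then p.2 else (h : ℤ) + 1 - p.2)

theorem phi_inj (L h k : ℕ) : Function.Injective (phi L h k) := by
  intro p q hpq
  unfold phi at hpq
  split_ifs at hpq with h1
  · rw [Prod.mk.injEq] at hpq
    apply Prod.ext <;> omega
  · rw [Prod.mk.injEq] at hpq
    apply Prod.ext <;> omega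

theorem phi_nbr {L h k : ℕ} (hp : (L + h) % 2 = 0) {p q : ℤ × ℤ} (hpq : Nbr p q) :
    Nbr (phi L h k p) (phi L h k q) := by
  rw [nbr_iff] at hpq ⊢
  unfold phi
  have h0 : k % 2 = 0 ∨ k % 2 = 1 := by omega
  rcases h0 with h1 | h1
  · have h2 : (k * L) % 2 = 0 := by rw [Nat.mul_mod, h1]; simp
    rw [if_pos h1, if_pos h1]
    simp only
    omega
  · have h2 : (k * L) % 2 = L % 2 := by rw [Nat.mul_mod, h1]; simp
    rw [if_neg (by omega), if_neg (by omega)]
    simp only
    omega

/-- the last row -/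
def lr (h k : ℕ) : ℤ := if k % 2 = 0 then 0 else (h : ℤ) + 1

/-- paths through `k` columns -/
def BB' (L h k : ℕ) : Set (List (ℤ × ℤ)) :=
  Pt (box (k * L) h) (0, 0) (((k * L : ℕ) : ℤ) - 1, lr h k)

theorem step_mass' {L h k : ℕ} (hL : 1 ≤ L) (hp : (L + h) % 2 = 0) {x : ℝ} (hx : 0 < x) :
    ENNReal.ofReal x * (Zm x (BB' L h k) * Zm x (HW L h)) ≤ Zm x (BB' L h (k + 1)) := by
  have hkL : (k + 1) * L = k * L + L := by ring
  refine Zm_prod (fun l η => l ++ η.map (phi L h k)) _ ?_ ?_ ?_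
  · intro l hl η hη
    have h1 := Pt_map (D' := box ((k + 1) * L) h) (phi_inj L h k) (fun p q hpq => phi_nbr hp hpq) (by
      intro p hp
      unfold box at hp ⊢
      simp only [Set.mem_ofPred_eq] at hp ⊢
      unfold phi
      rw [hkL]
      split_ifs
      · simp only
        push_cast
        omega
      · simp only
        push_cast
        omega) hη
    have h2 : l ∈ Pt (box ((k + 1) * L) h) (0, 0) (((k * L : ℕ) : ℤ) - 1, lr h k) := by
      refine Pt_mono ?_ hl
      intro p hp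
      unfold box at hp ⊢
      simp only [Set.mem_ofPred_eq] at hp ⊢
      rw [hkL]
      push_cast at hp ⊢
      omega
    have h3 := Pt_append h2 h1 (by
      rw [nbr_iff]
      left
      unfold phi lr
      split_ifs
      · refine ⟨rfl, Or.inr ?_⟩
        show (0 : ℤ) + ((k * L : ℕ) : ℤ) - (((k * L : ℕ) : ℤ) - 1) = 1
        ring
      · refine ⟨?_, Or.inr ?_⟩
        · show (h : ℤ) + 1 = (h : ℤ) + 1 - 0
          ring
        · show (0 : ℤ) + ((k * L : ℕ) : ℤ) - (((k * L : ℕ) : ℤ) - 1) = 1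
          ring) (by
      intro p hp1 hp2
      rw [List.mem_map] at hp2
      obtain ⟨q, hq, rfl⟩ := hp2
      have h4 := hη.2.2.2.2 q hq
      have h5 := hl.2.2.2.2 _ hp1
      unfold box at h4 h5
      simp only [Set.mem_ofPred_eq] at h4 h5
      unfold phi at h5
      simp only at h5
      omega)
    have e : phi L h k ((L : ℤ) - 1, (h : ℤ) + 1) = ((((k + 1) * L : ℕ) : ℤ) - 1, lr h (k + 1)) := by
      unfold phi lr
      rw [hkL]
      apply Prod.ext
      · simp only
        push_cast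
        ring
      · simp only
        split_ifs with a1 a2 a2
        · omega
        · rfl
        · ring
        · omega
    rw [e] at h3
    exact h3
  · intro l hl η hη l' hl' η' hη' e
    have key : ∀ l ∈ BB' L h k, ∀ η ∈ HW L h,
        (l ++ η.map (phi L h k)).filter (fun p => decide (p.1 < ((k * L : ℕ) : ℤ))) = l := by
      intro l hl η hη
      have e1 : l.filter (fun p => decide (p.1 < ((k * L : ℕ) : ℤ))) = l := by
        rw [List.filter_eq_self]
        intro p hp
        have h5 := hl.2.2.2.2 _ hp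
        unfold box at h5
        simp only [Set.mem_ofPred_eq] at h5
        rw [decide_eq_true_iff]
        exact h5.2.1
      have e2 : (η.map (phi L h k)).filter (fun p => decide (p.1 < ((k * L : ℕ) : ℤ))) = [] := by
        rw [List.filter_eq_nil_iff]
        intro p hp
        rw [List.mem_map] at hp
        obtain ⟨q, hq, rfl⟩ := hp
        have h4 := hη.2.2.2.2 q hq
        unfold box at h4
        simp only [Set.mem_ofPred_eq] at h4
        rw [decide_eq_true_iff]
        unfold phi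
        simp only
        omega
      rw [List.filter_append, e1, e2, List.append_nil]
    have h1 := key l hl η hη
    rw [e, key l' hl' η' hη'] at h1
    subst h1
    exact ⟨rfl, List.map_injective_iff.2 (phi_inj L h k) (List.append_cancel_left e)⟩
  · intro l hl η hη
    have h1 := List.length_pos_of_ne_nil (Pt.ne hl)
    have h2 := List.length_pos_of_ne_nil (Pt.ne hη)
    rw [← ENNReal.ofReal_mul (by positivity), ← ENNReal.ofReal_mul (by positivity)]
    apply le_of_eq
    congr 1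
    have e : (l ++ η.map (phi L h k)).length - 1 = (l.length - 1) + (η.length - 1) + 1 := by
      rw [List.length_append, List.length_map]
      omega
    rw [e, pow_succ, pow_add]
    ring

theorem BB_mass {L h : ℕ} (hL : 1 ≤ L) (hp : (L + h) % 2 = 0) {x : ℝ} (hx : 0 < x) (j : ℕ) :
    (ENNReal.ofReal x * Zm x (HW L h)) ^ j * Zm x (HW L h) ≤ Zm x (BB' L h (j + 1)) := by
  induction j with
  | zero =>
    rw [pow_zero, one_mul]
    apply le_of_eq
    unfold BB' HW lr
    simp
  | succ j ih =>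
    calc (ENNReal.ofReal x * Zm x (HW L h)) ^ (j + 1) * Zm x (HW L h) =
        ENNReal.ofReal x * (((ENNReal.ofReal x * Zm x (HW L h)) ^ j * Zm x (HW L h)) *
          Zm x (HW L h)) := by ring
      _ ≤ ENNReal.ofReal x * (Zm x (BB' L h (j + 1)) * Zm x (HW L h)) := by gcongr
      _ ≤ _ := step_mass' hL hp hx

theorem embed {D : Set (ℤ × ℤ)} {a b : ℤ × ℤ} {u v : ℤ} (hpar : (u + v) % 2 = 0) {A H : ℕ}
    {P Q : List (ℤ × ℤ)} (hP : P ++ row u v A ++ Q ∈ Pt D a b)
    (hR : ∀ i j : ℕ, i < A → j < H → (u + (i : ℤ), v + (j : ℤ)) ∈ D ∧ (u + (i : ℤ), v + (j : ℤ)) ∉ P ∧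
      (u + (i : ℤ), v + (j : ℤ)) ∉ Q) {L h k : ℕ} (hk : k % 2 = 0) (hk1 : 1 ≤ k * L)
    (hkA : k * L ≤ A) (hH : h + 2 ≤ H) {x : ℝ} (hx : 1 / 2 ≤ x) :
    ENNReal.ofReal ((1 / 2) ^ (P.length + A + Q.length)) * Zm x (BB' L h k) ≤ Zm x (Pt D a b) := by
  have hx0 : 0 < x := by linarith
  set τ : ℤ × ℤ → ℤ × ℤ := fun p => p + (u, v) with hτ
  have hτinj : Function.Injective τ := fun p q hpq => add_right_cancel hpq
  set R : List (ℤ × ℤ) := row (u + ((k * L : ℕ) : ℤ)) v (A - k * L) ++ Q with hR'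
  have hsp : row u v A = row u v (k * L) ++ row (u + ((k * L : ℕ) : ℤ)) v (A - k * L) := by
    rw [← row_append]
    congr 1
    omega
  have hPR : P ++ row u v (k * L) ++ R ∈ Pt D a b := by
    rw [hR', ← List.append_assoc, List.append_assoc P, ← hsp]
    exact hP
  have hbox : ∀ p ∈ box (k * L) h, τ p ∈ D ∧ τ p ∉ P ∧ τ p ∉ Q := by
    intro p hp
    unfold box at hp
    simp only [Set.mem_ofPred_eq] at hp
    have h1 := hR p.1.toNat p.2.toNat (by omega) (by omega)
    have e : τ p = (u + (p.1.toNat : ℤ), v + (p.2.toNat : ℤ)) := by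
      rw [hτ]
      apply Prod.ext
      · simp only [Prod.fst_add]
        omega
      · simp only [Prod.snd_add]
        omega
    rw [e]
    exact h1
  refine Zm_inj (fun w => P ++ w.map τ ++ R) _ ?_ ?_ ?_
  · intro w hw
    have h1 := Pt_map (D' := D) hτinj (fun p q hpq => by
      rw [nbr_iff] at hpq ⊢
      simp only [hτ, Prod.fst_add, Prod.snd_add]
      omega) (fun p hp => (hbox p hp).1) hw
    have e1 : τ (0, 0) = (u, v) := by simp [hτ]
    have e2 : τ (((k * L : ℕ) : ℤ) - 1, lr h k) = (u + ((k * L : ℕ) : ℤ) - 1, v) := by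
      unfold lr
      rw [if_pos hk]
      apply Prod.ext
      · simp only [hτ, Prod.fst_add]
        ring
      · simp only [hτ, Prod.snd_add]
        ring
    rw [e1, e2] at h1
    refine splice hPR (row_head u v hk1) (row_last u v hk1) h1 ?_ ?_
    · intro p hp
      rw [List.mem_map] at hp
      obtain ⟨q, hq, rfl⟩ := hp
      exact (hbox q (hw.2.2.2.2 q hq)).2.1
    · intro p hp
      rw [List.mem_map] at hp
      obtain ⟨q, hq, rfl⟩ := hp
      have h3 := hw.2.2.2.2 q hq
      rw [hR', List.mem_append, not_or]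
      refine ⟨?_, (hbox q h3).2.2⟩
      rw [mem_row]
      unfold box at h3
      simp only [Set.mem_ofPred_eq] at h3
      simp only [hτ, Prod.fst_add, Prod.snd_add]
      omega
  · intro w hw w' hw' e
    simp only at e
    have h1 := List.append_cancel_right e
    exact List.map_injective_iff.2 hτinj (List.append_cancel_left h1)
  · intro w hw
    have h1 := List.length_pos_of_ne_nil (Pt.ne hw)
    rw [← ENNReal.ofReal_mul (by positivity)]
    apply ENNReal.ofReal_le_ofReal
    have e : (P ++ w.map τ ++ R).length - 1 =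
        (P.length + (A - k * L) + Q.length) + (w.length - 1) := by
      rw [hR', List.length_append, List.length_append, List.length_append, List.length_map, row_len]
      omega
    rw [e, pow_add x]
    apply mul_le_mul_of_nonneg_right _ (by positivity)
    calc ((1 : ℝ) / 2) ^ (P.length + A + Q.length) ≤ (1 / 2) ^ (P.length + (A - k * L) + Q.length) := by
          apply pow_le_pow_of_le_one (by norm_num) (by norm_num)
          omega
      _ ≤ _ := pow_le_pow_left₀ (by norm_num) hx _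

/-- the trivial bound -/
theorem triv {D : Set (ℤ × ℤ)} {a b : ℤ × ℤ} {l : List (ℤ × ℤ)} (hl : l ∈ Pt D a b) {n : ℕ}
    (hn : l.length - 1 ≤ n) {x : ℝ} (hx : 1 / 2 ≤ x) :
    ENNReal.ofReal ((1 / 2) ^ n) ≤ Zm x (Pt D a b) := by
  have h1 : ENNReal.ofReal (x ^ (l.length - 1)) ≤ Zm x (Pt D a b) :=
    ENNReal.le_tsum (f := fun l : Pt D a b => ENNReal.ofReal (x ^ (l.1.length - 1))) ⟨l, hl⟩
  refine le_trans (ENNReal.ofReal_le_ofReal ?_) h1
  calc ((1 : ℝ) / 2) ^ n ≤ (1 / 2) ^ (l.length - 1) :=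
        pow_le_pow_of_le_one (by norm_num) (by norm_num) hn
    _ ≤ _ := pow_le_pow_left₀ (by norm_num) hx _

end Pool.Agent.U508.NC
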