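import Pool.Agent.U508.NC.Mov

set_option autoImplicit false

/-! Chains of boxes. -/

namespace Pool.Agent.U508.NC

open Pool.Agent.U508.ST Pool.Agent.W818.TD H978R2.Hex
open scoped ENNReal

section

variable {G : ℝ} {D : Finset (ℤ × ℤ)}

/-- the gluing property -/
def Gl (G : ℝ) (D : Finset (ℤ × ℤ)) : Prop :=
  ∀ (a b c : ℤ × ℤ) (κ κ' : ℝ), Rl κ (D : Set (ℤ × ℤ)) a b → Rl κ' (D : Set (ℤ × ℤ)) b c →
      Rl (κ + κ' + G * Real.log (D.card + 2) ^ 2) (D : Set (ℤ × ℤ)) a c

theorem chain_Rl (hG1 : 1 ≤ G) (hG : Gl G D) {κ : ℝ} (hκ : 0 ≤ κ) (f : ℕ → ℤ × ℤ) {n : ℕ}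
    (h0 : f 0 ∈ (D : Set (ℤ × ℤ))) (hf : ∀ k < n, Rl κ (D : Set (ℤ × ℤ)) (f k) (f (k + 1))) :
    Rl (n * (κ + G * Real.log (D.card + 2) ^ 2)) (D : Set (ℤ × ℤ)) (f 0) (f n) := by
  induction n with
  | zero =>
    have := Rl_refl h0
    simpa using this
  | succ n ih =>
    have h1 := ih fun k hk => hf k (by omega)
    refine (hG _ _ _ _ _ h1 (hf n (by omega))).weak ?_
    push_cast
    linarith

theorem unitV (hG1 : 1 ≤ G) (hG : Gl G D) {v : ℤ × ℤ}
    (hD : ∀ z : ℤ × ℤ, v.1 ≤ z.1 → z.1 ≤ v.1 + 1 → v.2 ≤ z.2 → z.2 ≤ v.2 + 1 → z ∈ D) :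
    Rl (3 + 2 * (G * Real.log (D.card + 2) ^ 2)) (D : Set (ℤ × ℤ)) v (v.1, v.2 + 1) := by
  have hLG : 0 ≤ G * Real.log (D.card + 2) ^ 2 := by positivity
  have m0 : v ∈ (D : Set (ℤ × ℤ)) := hD v le_rfl (by omega) le_rfl (by omega)
  have m1 : ((v.1, v.2 + 1) : ℤ × ℤ) ∈ (D : Set (ℤ × ℤ)) :=
    hD _ le_rfl (by simp) (by simp) le_rfl
  have m2 : ((v.1 + 1, v.2) : ℤ × ℤ) ∈ (D : Set (ℤ × ℤ)) :=
    hD _ (by simp) le_rfl le_rfl (by simp)
  have m3 : ((v.1 + 1, v.2 + 1) : ℤ × ℤ) ∈ (D : Set (ℤ × ℤ)) :=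
    hD _ (by simp) le_rfl (by simp) le_rfl
  rcases Int.emod_two_eq_zero_or_one (v.1 + v.2) with hp | hp
  · refine (Rl_adj m0 m1 ?_).weak (by linarith)
    rw [nbr_iff]
    right
    exact ⟨rfl, Or.inl ⟨rfl, hp⟩⟩
  · have a1 : Rl 1 (D : Set (ℤ × ℤ)) v (v.1 + 1, v.2) := by
      refine Rl_adj m0 m2 ?_
      rw [nbr_iff]
      left
      refine ⟨rfl, Or.inr ?_⟩
      show v.1 + 1 - v.1 = 1
      ring
    have a2 : Rl 1 (D : Set (ℤ × ℤ)) (v.1 + 1, v.2) (v.1 + 1, v.2 + 1) := by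
      refine Rl_adj m2 m3 ?_
      rw [nbr_iff]
      right
      refine ⟨rfl, Or.inl ⟨rfl, ?_⟩⟩
      show (v.1 + 1 + v.2) % 2 = 0
      omega
    have a3 : Rl 1 (D : Set (ℤ × ℤ)) (v.1 + 1, v.2 + 1) (v.1, v.2 + 1) := by
      refine Rl_adj m3 m1 ?_
      rw [nbr_iff]
      left
      refine ⟨rfl, Or.inl ?_⟩
      show v.1 + 1 - v.1 = 1
      ring
    refine (hG _ _ _ _ _ (hG _ _ _ _ _ a1 a2) a3).weak ?_
    linarith

theorem unitM (hG1 : 1 ≤ G) (hG : Gl G D) {v w : ℤ × ℤ} (h1 : |w.1 - v.1| ≤ 1) (h2 : |w.2 - v.2| ≤ 1)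
    (hD : ∀ z : ℤ × ℤ, |z.1 - v.1| ≤ 2 → |z.2 - v.2| ≤ 2 → z ∈ D) :
    Rl (4 + 3 * (G * Real.log (D.card + 2) ^ 2)) (D : Set (ℤ × ℤ)) v w := by
  have hLG : 0 ≤ G * Real.log (D.card + 2) ^ 2 := by positivity
  rw [abs_le] at h1 h2
  have m0 : v ∈ (D : Set (ℤ × ℤ)) := hD v (by simp) (by simp)
  have m1 : ((w.1, v.2) : ℤ × ℤ) ∈ (D : Set (ℤ × ℤ)) := by
    apply hD
    · simp only
      rw [abs_le]; omega
    · simp
  have a1 : Rl 1 (D : Set (ℤ × ℤ)) v (w.1, v.2) := by
    rcases lt_trichotomy w.1 v.1 with h3 | h3 | h3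
    · refine Rl_adj m0 m1 ?_
      rw [nbr_iff]
      left
      refine ⟨rfl, Or.inl ?_⟩
      show v.1 - w.1 = 1
      omega
    · rw [h3]
      exact (Rl_refl m0).weak (by norm_num)
    · refine Rl_adj m0 m1 ?_
      rw [nbr_iff]
      left
      refine ⟨rfl, Or.inr ?_⟩
      show w.1 - v.1 = 1
      omega
  have a2 : Rl (3 + 2 * (G * Real.log (D.card + 2) ^ 2)) (D : Set (ℤ × ℤ)) (w.1, v.2) w := by
    rcases lt_trichotomy w.2 v.2 with h3 | h3 | h3
    · have := unitV hG1 hG (v := w) (by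
        intro z z1 z2 z3 z4
        apply hD <;> (rw [abs_le]; omega))
      have e : ((w.1, w.2 + 1) : ℤ × ℤ) = (w.1, v.2) := by
        rw [Prod.mk.injEq]
        omega
      rw [e] at this
      exact this.symm
    · have e : ((w.1, v.2) : ℤ × ℤ) = w := by rw [← h3]
      rw [e] at m1 ⊢
      exact (Rl_refl m1).weak (by linarith)
    · have := unitV hG1 hG (v := (w.1, v.2)) (by
        intro z z1 z2 z3 z4
        simp only at z1 z2 z3 z4
        apply hD <;> (rw [abs_le]; omega))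
      have e : ((w.1, v.2 + 1) : ℤ × ℤ) = w := by
        apply Prod.ext
        · rfl
        · simp only
          omega
      simp only at this
      rw [e] at this
      exact this
  refine (hG _ _ _ _ _ a1 a2).weak ?_
  linarith

theorem card_ge {M : ℕ} {p : ℤ × ℤ} (hD : ∀ z : ℤ × ℤ, p.1 ≤ z.1 → z.1 < p.1 + M → z.2 = p.2 → z ∈ D) :
    M ≤ D.card := by
  classical
  have h1 : ((Finset.range M).image (fun i : ℕ => (p.1 + (i : ℤ), p.2))).card = M := by
    rw [Finset.card_image_of_injective _ (by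
      intro i j e
      simp only [Prod.mk.injEq, add_right_inj, and_true] at e
      exact_mod_cast e), Finset.card_range]
  rw [← h1]
  apply Finset.card_le_card
  intro z hz
  rw [Finset.mem_image] at hz
  obtain ⟨i, hi, rfl⟩ := hz
  rw [Finset.mem_range] at hi
  apply hD
  · simp only
    omega
  · simp only
    omega
  · rfl

theorem logD {N : ℕ} (hN : 1 ≤ N) (h : N ≤ D.card + 2) :
    Real.log N ^ 2 ≤ Real.log (D.card + 2) ^ 2 := by
  have h1 : (1 : ℝ) ≤ N := by exact_mod_cast hN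
  have h2 : (N : ℝ) ≤ D.card + 2 := by exact_mod_cast h
  have h3 := Real.log_nonneg h1
  have h4 := Real.log_le_log (by linarith) h2
  gcongr

theorem logD' : 1 ≤ 4 * Real.log ((D.card : ℝ) + 2) ^ 2 := by
  have h2 := log_two_half
  have h3 : Real.log 2 ≤ Real.log ((D.card : ℝ) + 2) :=
    Real.log_le_log (by norm_num) (by linarith [Nat.cast_nonneg (α := ℝ) D.card])
  nlinarith

/-- **two points of a box** -/
theorem harnack (hG1 : 1 ≤ G) (hG : Gl G D) {M : ℕ} (hM : 1 ≤ M) {p q : ℤ × ℤ}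
    (h1 : |q.1 - p.1| ≤ M) (h2 : |q.2 - p.2| ≤ M)
    (hD : ∀ z : ℤ × ℤ, |z.1 - p.1| ≤ 4 * M → |z.2 - p.2| ≤ 4 * M → z ∈ D) :
    Rl (5000000 * G * Real.log (D.card + 2) ^ 2) (D : Set (ℤ × ℤ)) p q := by
  set L := Real.log ((D.card : ℝ) + 2) ^ 2 with hL
  have hL1 : 1 ≤ 4 * L := logD'
  have hLG : 0 ≤ G * L := by positivity
  have hGL : L ≤ G * L := by nlinarith
  have hp : p ∈ (D : Set (ℤ × ℤ)) := hD p (by simp) (by simp)
  have hcard : M ≤ D.card := card_ge (p := p) (by
    intro z z1 z2 z3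
    apply hD
    · rw [abs_le]; omega
    · rw [z3]; simp)
  set f : ℕ → ℤ × ℤ := fun k => (p.1 + ((k : ℤ) * (q.1 - p.1)) / 5200, p.2 + ((k : ℤ) * (q.2 - p.2)) / 5200)
    with hf
  have hf0 : f 0 = p := by simp [hf]
  have hfn : f 5200 = q := by
    rw [hf]
    apply Prod.ext
    · simp only
      push_cast
      omega
    · simp only
      push_cast
      omega
  rw [abs_le] at h1 h2
  -- the points are near
  have hfk : ∀ k : ℕ, k ≤ 5200 → |(f k).1 - p.1| ≤ M ∧ |(f k).2 - p.2| ≤ M := by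
    intro k hk
    have hk0 : (0 : ℤ) ≤ k := by positivity
    have hk1 : (k : ℤ) ≤ 5200 := by exact_mod_cast hk
    have e1 : (k : ℤ) * (q.1 - p.1) ≤ 5200 * M := by nlinarith
    have e2 : -(5200 * (M : ℤ)) ≤ (k : ℤ) * (q.1 - p.1) := by nlinarith
    have e3 : (k : ℤ) * (q.2 - p.2) ≤ 5200 * M := by nlinarith
    have e4 : -(5200 * (M : ℤ)) ≤ (k : ℤ) * (q.2 - p.2) := by nlinarith
    rw [hf]
    constructor
    · simp only
      rw [abs_le]
      omega
    · simp only
      rw [abs_le]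
      omega
  have hstep : ∀ k : ℕ, (((k + 1 : ℕ) : ℤ) * (q.1 - p.1)) = (k : ℤ) * (q.1 - p.1) + (q.1 - p.1) ∧
      (((k + 1 : ℕ) : ℤ) * (q.2 - p.2)) = (k : ℤ) * (q.2 - p.2) + (q.2 - p.2) := by
    intro k
    constructor <;> (push_cast; ring)
  have key : ∀ k < 5200, Rl (900 * (G * L)) (D : Set (ℤ × ℤ)) (f k) (f (k + 1)) := by
    intro k hk
    obtain ⟨n1, n2⟩ := hfk k hk.le
    rw [abs_le] at n1 n2
    obtain ⟨s1, s2⟩ := hstep k
    rcases Nat.lt_or_ge M 5200 with hM2 | hM2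
    · have := unitM hG1 hG (v := f k) (w := f (k + 1)) (by
        rw [hf]
        simp only
        rw [s1, abs_le]
        omega) (by
        rw [hf]
        simp only
        rw [s2, abs_le]
        omega) (by
        intro z z1 z2
        rw [abs_le] at z1 z2
        apply hD <;> (rw [abs_le]; omega))
      refine this.weak ?_
      linarith
    · have := near hG1 hG (N := M / 1300) (by omega) (p := f k) (q := f (k + 1)) (by
        rw [hf]
        simp only
        rw [s1, abs_le]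
        push_cast
        omega) (by
        rw [hf]
        simp only
        rw [s2, abs_le]
        push_cast
        omega) (by
        intro z z1 z2
        push_cast at z1 z2
        rw [abs_le] at z1 z2
        apply hD <;> (rw [abs_le]; omega))
      refine this.weak ?_
      have := logD (D := D) (N := M / 1300) (by omega) (by omega)
      linarith
  have h3 := chain_Rl hG1 hG (κ := 900 * (G * L)) (by positivity) f (n := 5200) (by rw [hf0]; exact hp) key
  rw [hf0, hfn] at h3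
  refine h3.weak ?_
  push_cast
  linarith

/-- **from a point of a flat boundary to the interior** -/
theorem bdry (hG1 : 1 ≤ G) (hG : Gl G D) {M : ℕ} (hM : 1 ≤ M)
    (hD : ∀ z : ℤ × ℤ, |z.1| ≤ 8 * M → 0 ≤ z.2 → z.2 ≤ 8 * M → z ∈ D) :
    Rl (5000000 * G * Real.log (D.card + 2) ^ 2) (D : Set (ℤ × ℤ)) (0, 0) (0, 4 * (M : ℤ)) := by
  set L := Real.log ((D.card : ℝ) + 2) ^ 2 with hL
  have hL1 : 1 ≤ 4 * L := logD'
  have hLG : 0 ≤ G * L := by positivity
  have hGL : L ≤ G * L := by nlinarith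
  have hp : ((0, 0) : ℤ × ℤ) ∈ (D : Set (ℤ × ℤ)) := hD _ (by simp) (by simp) (by simp)
  have hcard : M ≤ D.card := card_ge (p := (0, 0)) (by
    intro z z1 z2 z3
    simp only at z1 z2 z3
    apply hD
    · rw [abs_le]; omega
    · omega
    · omega)
  rcases Nat.lt_or_ge M 5200 with hM2 | hM2
  · set f : ℕ → ℤ × ℤ := fun k => (0, (k : ℤ)) with hf
    have key : ∀ k < 4 * M, Rl (3 + 2 * (G * L)) (D : Set (ℤ × ℤ)) (f k) (f (k + 1)) := by
      intro k hk
      have := unitV hG1 hG (v := f k) (by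
        intro z z1 z2 z3 z4
        rw [hf] at z1 z2 z3 z4
        simp only at z1 z2 z3 z4
        apply hD
        · rw [abs_le]; omega
        · omega
        · omega)
      have e : f (k + 1) = ((f k).1, (f k).2 + 1) := by
        rw [hf]
        simp
      rw [e]
      exact this
    have h3 := chain_Rl hG1 hG (κ := 3 + 2 * (G * L)) (by positivity) f (n := 4 * M) hp key
    have e : f (4 * M) = (0, 4 * (M : ℤ)) := by
      rw [hf]
      simp
    rw [e] at h3
    refine h3.weak ?_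
    have hM3 : (M : ℝ) ≤ 5200 := by exact_mod_cast hM2.le
    push_cast
    have h4 : 3 + 2 * (G * L) + G * L ≤ 15 * (G * L) := by linarith
    calc 4 * (M : ℝ) * (3 + 2 * (G * L) + G * L) ≤ 4 * 5200 * (15 * (G * L)) := by gcongr
      _ ≤ _ := by linarith
  · set N := M / 1300 with hN
    set f : ℕ → ℤ × ℤ := fun k => (0, min (2 * N * k : ℤ) (4 * M)) with hf
    have hN2 : 2 ≤ N := by omega
    have key : ∀ k < 5200, Rl (300 * (G * L)) (D : Set (ℤ × ℤ)) (f k) (f (k + 1)) := by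
      intro k hk
      have e1 : (2 * N * ((k + 1 : ℕ) : ℤ)) = 2 * N * k + 2 * N := by
        push_cast
        ring
      have e0 : (0 : ℤ) ≤ 2 * N * k := by positivity
      have := Vmove hG1 hG (N := N) hN2 (v := f k) (w := f (k + 1)) rfl (by
        rw [hf]
        simp only
        rw [e1]
        omega) (by
        rw [hf]
        simp only
        rw [e1]
        omega) (by
        intro z z1 z2 z3
        rw [hf] at z1 z2 z3
        simp only at z1 z2 z3
        rw [e1] at z3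
        rw [abs_le] at z1
        apply hD
        · rw [abs_le]; omega
        · omega
        · omega)
      refine this.weak ?_
      have := logD (D := D) (N := N) (by omega) (by omega)
      linarith
    have h3 := chain_Rl hG1 hG (κ := 300 * (G * L)) (by positivity) f (n := 5200) (by
      rw [hf]
      simp only
      push_cast
      rw [mul_zero, min_eq_left (by positivity)]
      exact hp) key
    have e : f 5200 = (0, 4 * (M : ℤ)) := by
      rw [hf]
      simp only [Prod.mk.injEq, true_and]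
      apply min_eq_right
      push_cast
      omega
    have e' : f 0 = (0, 0) := by
      rw [hf]
      simp
    rw [e, e'] at h3
    refine h3.weak ?_
    push_cast
    linarith

end

end Pool.Agent.U508.NC
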