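import Pool.Agent.U508.NC.Base

set_option autoImplicit false

/-! One column. -/

namespace Pool.Agent.U508.NC

open Pool.Agent.U508.ST Pool.Agent.W818.TD H978R2.Hex
open scoped ENNReal

/-- a box -/
def box (L h : ℕ) : Set (ℤ × ℤ) := {p | 0 ≤ p.1 ∧ p.1 < L ∧ 0 ≤ p.2 ∧ p.2 ≤ h + 1}

/-- paths through one column -/
def HW (L h : ℕ) : Set (List (ℤ × ℤ)) := Pt (box L h) (0, 0) ((L : ℤ) - 1, (h : ℤ) + 1)

/-- the position of the bridges -/
def gg (m : ℤ) (v : V) : ℤ × ℤ := ri v + (m, 0)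

theorem gg_inj (m : ℤ) : Function.Injective (gg m) := fun _ _ hab => ri_inj (add_right_cancel hab)

/-- from a chain of bridges to a path through the column -/
def hw (m : ℤ) (L h : ℕ) (γ : List V) : List (ℤ × ℤ) :=
  row 0 0 m.toNat ++ γ.map (gg m) ++ row (gg m (la γ)).1 (h + 1) ((L : ℤ) - (gg m (la γ)).1).toNat

theorem gg_snd (m : ℤ) (v : V) : (gg m v).2 = (v.1 - v.2 + 1) / 2 := by
  unfold gg ri
  simp only [Prod.snd_add]
  omega

theorem gg_fst (m : ℤ) (v : V) : (gg m v).1 = (v.1 + 3 * v.2) / 2 + m := by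
  unfold gg ri
  simp only [Prod.fst_add]
  omega

theorem gg_sum (m : ℤ) (v : V) : (gg m v).1 + (gg m v).2 = v.1 + v.2 + m := by
  unfold gg ri
  simp only [Prod.fst_add, Prod.snd_add]
  omega

variable {W : ℤ} {L h : ℕ}

theorem gg_box {m : ℤ} (hm : m = W + 2 + W % 2) (hL : 2 * W + 5 ≤ L) {γ : List V}
    (hγ : γ ∈ EE W (2 * h)) {v : V} (hv : v ∈ γ) :
    0 ≤ (gg m v).1 ∧ (gg m v).1 < L ∧ 0 ≤ (gg m v).2 ∧ (gg m v).2 ≤ h := by
  obtain ⟨h1, h2, -, h4⟩ := hγ
  have h6 := h4 v hv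
  have h7 := h1.nonneg v hv
  have h8 := h1.top v hv
  rw [h2] at h8
  rw [abs_le] at h6
  unfold lat at h6
  rw [gg_snd, gg_fst]
  omega

theorem hw_mem {m : ℤ} (hm : m = W + 2 + W % 2) (hW : 0 ≤ W) (hL : 2 * W + 5 ≤ L) {γ : List V}
    (hγ : γ ∈ EE W (2 * h)) : hw m L h γ ∈ HW L h := by
  have hb := fun v hv => gg_box hm hL hγ (v := v) hv
  have hγ' := hγ
  obtain ⟨h1, h2, h3, h4⟩ := hγ
  have hla := hb _ (la_mem h1.ne)
  have hla2 : (gg m (la γ)).2 = h := by
    rw [gg_snd]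
    unfold hl at h2
    omega
  have hev := h1.la_even
  have hsum := gg_sum m (la γ)
  have p1 : row 0 0 m.toNat ∈ Pt (box L h) (0, 0) (m - 1, 0) := by
    have := row_Pt (D := box L h) (u := 0) (v := 0) (n := m.toNat) (by omega) (by
      intro p a1 a2 a3
      unfold box
      show 0 ≤ p.1 ∧ p.1 < (L : ℤ) ∧ 0 ≤ p.2 ∧ p.2 ≤ h + 1
      omega)
    have e : (0 : ℤ) + (m.toNat : ℤ) - 1 = m - 1 := by omega
    rwa [e] at this
  have p2 : γ.map (gg m) ∈ Pt (box L h) (m, 0) (gg m (la γ)) := by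
    refine ⟨?_, ?_, ?_, h1.nd.map (gg_inj m), ?_⟩
    · rw [List.head?_map, h1.hd]
      simp only [Option.map_some, Option.some.injEq]
      apply Prod.ext
      · rw [gg_fst]
        simp
      · rw [gg_snd]
        simp
    · rw [List.getLast?_map, List.getLast?_eq_getLast_of_ne_nil h1.ne, la_eq h1.ne]
      rfl
    · rw [List.isChain_map]
      refine h1.ch.imp fun {x y} hxy => nbr_adj.2 (adj_tr ?_ (ri_adj hxy))
      simp only
      omega
    · intro p hp
      rw [List.mem_map] at hp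
      obtain ⟨v, hv, rfl⟩ := hp
      have := hb v hv
      show 0 ≤ (gg m v).1 ∧ (gg m v).1 < (L : ℤ) ∧ 0 ≤ (gg m v).2 ∧ (gg m v).2 ≤ h + 1
      omega
  have p3 : row (gg m (la γ)).1 (h + 1) ((L : ℤ) - (gg m (la γ)).1).toNat ∈
      Pt (box L h) ((gg m (la γ)).1, (h : ℤ) + 1) ((L : ℤ) - 1, (h : ℤ) + 1) := by
    have := row_Pt (D := box L h) (u := (gg m (la γ)).1) (v := (h : ℤ) + 1)
      (n := ((L : ℤ) - (gg m (la γ)).1).toNat) (by omega) (by
      intro p a1 a2 a3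
      show 0 ≤ p.1 ∧ p.1 < (L : ℤ) ∧ 0 ≤ p.2 ∧ p.2 ≤ h + 1
      omega)
    have e : (gg m (la γ)).1 + (((L : ℤ) - (gg m (la γ)).1).toNat : ℤ) - 1 = L - 1 := by omega
    rwa [e] at this
  have p12 := Pt_append p1 p2 (by
    rw [nbr_iff]
    left
    refine ⟨rfl, Or.inr ?_⟩
    show m - (m - 1) = 1
    ring) (by
    intro p hp hp2
    rw [mem_row] at hp
    rw [List.mem_map] at hp2
    obtain ⟨v, hv, rfl⟩ := hp2
    obtain ⟨t, ht⟩ := h1.cons
    rw [ht] at hv
    rcases List.mem_cons.1 hv with hv | hv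
    · subst hv
      have := gg_fst m (0, 0)
      simp only at this
      omega
    · have h7 := h1.pos v (by rw [ht]; exact hv)
      have := gg_snd m v
      omega)
  refine Pt_append p12 p3 ?_ ?_
  · rw [nbr_iff]
    right
    refine ⟨rfl, Or.inl ⟨?_, ?_⟩⟩
    · rw [hla2]
    · rw [hsum]
      omega
  · intro p hp hp2
    rw [mem_row] at hp2
    rw [List.mem_append] at hp
    rcases hp with hp | hp
    · rw [mem_row] at hp
      omega
    · rw [List.mem_map] at hp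
      obtain ⟨v, hv, rfl⟩ := hp
      have := hb v hv
      omega

theorem row_filter {u v : ℤ} {n : ℕ} (q : ℤ × ℤ → Bool) (hq : ∀ p : ℤ × ℤ, p.2 = v → q p = false) :
    (row u v n).filter q = [] := by
  rw [List.filter_eq_nil_iff]
  intro p hp
  rw [mem_row] at hp
  rw [hq p hp.1]
  simp

theorem hw_inj {m : ℤ} (hm : m = W + 2 + W % 2) (hW : 0 ≤ W) (hL : 2 * W + 5 ≤ L) :
    Set.InjOn (hw m L h) (EE W (2 * h)) := by
  have key : ∀ γ ∈ EE W (2 * h), (hw m L h γ).filter (fun p => decide (0 < p.2 ∧ p.2 ≤ (h : ℤ))) =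
      γ.tail.map (gg m) := by
    intro γ hγ
    have hb := fun v hv => gg_box hm hL hγ (v := v) hv
    obtain ⟨h1, h2, h3, h4⟩ := hγ
    unfold hw
    rw [List.filter_append, List.filter_append, row_filter, row_filter, List.nil_append,
      List.append_nil]
    · obtain ⟨t, ht⟩ := h1.cons
      rw [ht, List.map_cons, List.filter_cons_of_neg]
      · rw [List.tail_cons, List.filter_eq_self]
        intro p hp
        rw [List.mem_map] at hp
        obtain ⟨v, hv, rfl⟩ := hp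
        have h7 := h1.pos v (by rw [ht]; exact hv)
        have h8 := gg_snd m v
        have h9 := hb v (by rw [ht]; exact List.mem_cons_of_mem _ hv)
        rw [decide_eq_true_iff]
        omega
      · have := gg_snd m (0, 0)
        simp only at this
        rw [decide_eq_true_iff]
        omega
    · intro p hp
      rw [decide_eq_false_iff_not]
      omega
    · intro p hp
      rw [decide_eq_false_iff_not]
      omega
  intro γ hγ γ' hγ' e
  have h5 := key γ hγ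
  rw [e, key γ' hγ'] at h5
  have h6 := List.map_injective_iff.2 (gg_inj m) h5
  obtain ⟨t, ht⟩ := hγ.1.cons
  obtain ⟨t', ht'⟩ := hγ'.1.cons
  rw [ht, ht'] at h6 ⊢
  rw [List.tail_cons, List.tail_cons] at h6
  rw [h6]

theorem HW_mass (hW : 0 ≤ W) (hL : 2 * W + 5 ≤ L) {x : ℝ} (hx : 1 / 2 ≤ x) :
    ENNReal.ofReal ((1 / 2) ^ (2 * L)) * Zm x (EE W (2 * h)) ≤ Zm x (HW L h) := by
  set m : ℤ := W + 2 + W % 2 with hm
  refine Zm_inj (hw m L h) _ (fun γ hγ => hw_mem hm hW hL hγ) (hw_inj hm hW hL) ?_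
  intro γ hγ
  have hb := gg_box hm hL hγ (la_mem hγ.1.ne)
  have hlen := List.length_pos_of_ne_nil hγ.1.ne
  rw [← ENNReal.ofReal_mul (by positivity)]
  apply ENNReal.ofReal_le_ofReal
  have e : (hw m L h γ).length - 1 =
      (m.toNat + ((L : ℤ) - (gg m (la γ)).1).toNat) + (γ.length - 1) := by
    unfold hw
    rw [List.length_append, List.length_append, row_len, row_len, List.length_map]
    omega
  rw [e, pow_add]
  have hx0 : 0 < x := by linarith
  apply mul_le_mul_of_nonneg_right _ (by positivity)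
  calc ((1 : ℝ) / 2) ^ (2 * L) ≤ (1 / 2) ^ (m.toNat + ((L : ℤ) - (gg m (la γ)).1).toNat) := by
        apply pow_le_pow_of_le_one (by norm_num) (by norm_num)
        omega
    _ ≤ _ := pow_le_pow_left₀ (by norm_num) hx _

theorem EE_tilt {ε : ℝ} (hε : 0 ≤ ε) :
    ENNReal.ofReal (Real.exp (2 * h * ε)) * M (EE W (2 * h)) ≤
      Zm (mu0⁻¹ * Real.exp ε) (EE W (2 * h)) := by
  unfold M Zm
  rw [← ENNReal.tsum_mul_left]
  refine ENNReal.tsum_le_tsum fun γ => ?_
  unfold Wt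
  rw [← ENNReal.ofReal_mul (by positivity)]
  apply ENNReal.ofReal_le_ofReal
  have h1 := hl_le γ.2.1.ch γ.2.1.hd
  rw [γ.2.2.1] at h1
  have h2 : 2 * h ≤ γ.1.length - 1 := by omega
  have hm := inv_pos.2 mu0_pos
  rw [mul_pow, mul_comm]
  apply mul_le_mul_of_nonneg_left _ (by positivity)
  rw [← Real.exp_nat_mul]
  apply Real.exp_le_exp.2
  have h3 : (2 * (h : ℝ)) ≤ ((γ.1.length - 1 : ℕ) : ℝ) := by exact_mod_cast h2
  gcongr

theorem HW_lower {T : ℕ} (hT : 1 ≤ T) (hW : 256 * Real.log T * T + 3 ≤ W) (hW0 : 0 ≤ W)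
    (hL : 2 * W + 5 ≤ L) {ε : ℝ} (hε : 0 ≤ ε) :
    ENNReal.ofReal ((1 / 2) ^ (2 * L) * (Real.exp (2 * h * ε) * (1 / (16 * (T : ℝ))) ^ (h / T + 1))) ≤
      Zm (mu0⁻¹ * Real.exp ε) (HW L h) := by
  have hx : (1 : ℝ) / 2 ≤ mu0⁻¹ * Real.exp ε := by
    have h1 : (1 : ℝ) / 2 ≤ mu0⁻¹ := by
      rw [one_div]
      apply inv_anti₀ mu0_pos
      have h2 : mu0 ^ 2 ≤ 4 := by
        unfold mu0
        rw [Real.sq_sqrt (by positivity)]
        have : Real.sqrt 2 ≤ 2 := by
          rw [Real.sqrt_le_left (by norm_num)]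
          norm_num
        linarith
      nlinarith [mu0_pos]
    have h3 : 1 ≤ Real.exp ε := Real.one_le_exp hε
    calc (1 : ℝ) / 2 = 1 / 2 * 1 := by ring
      _ ≤ _ := by gcongr
  refine le_trans ?_ (HW_mass hW0 hL hx)
  rw [ENNReal.ofReal_mul (by positivity), ENNReal.ofReal_mul (by positivity)]
  gcongr
  refine le_trans ?_ (EE_tilt hε)
  gcongr
  rw [ENNReal.ofReal_pow (by positivity)]
  exact EE_mass hT hW hW0 h

end Pool.Agent.U508.NC
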