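import Pool.Agent.U508.NC.Chain

set_option autoImplicit false

/-! The critical partition function. -/

namespace Pool.Agent.U508.NC

open Pool.Agent.U508.ST Pool.Agent.W818.TD H978R2.Hex
open scoped ENNReal

/-- an automorphism of the lattice -/
def Au (f : ℤ × ℤ → ℤ × ℤ) : Prop := Function.Bijective f ∧ ∀ p q, Nbr p q ↔ Nbr (f p) (f q)

theorem pre_card (D : Finset (ℤ × ℤ)) {f : ℤ × ℤ → ℤ × ℤ} (hf : Function.Injective f) :
    (D.preimage f hf.injOn).card ≤ D.card := by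
  classical
  rw [← Finset.card_image_of_injective _ hf]
  apply Finset.card_le_card
  intro z hz
  rw [Finset.mem_image] at hz
  obtain ⟨y, hy, rfl⟩ := hz
  rwa [Finset.mem_preimage] at hy

theorem bdry_au {G : ℝ} (hG1 : 1 ≤ G) (hG : ∀ D, Gl G D) {D : Finset (ℤ × ℤ)}
    {f : ℤ × ℤ → ℤ × ℤ} (hf : Au f) {M : ℕ} (hM : 1 ≤ M)
    (hD : ∀ z : ℤ × ℤ, |z.1| ≤ 8 * M → 0 ≤ z.2 → z.2 ≤ 8 * M → f z ∈ D) :
    Rl (5000000 * G * Real.log (D.card + 2) ^ 2) (D : Set (ℤ × ℤ)) (f (0, 0)) (f (0, 4 * (M : ℤ))) := by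
  have h1 := bdry hG1 (hG (D.preimage f hf.1.1.injOn)) hM (fun z z1 z2 z3 => by
    rw [Finset.mem_preimage]
    exact hD z z1 z2 z3)
  have h2 := Zm_map (x := mu0⁻¹) (S := ((D.preimage f hf.1.1.injOn : Finset (ℤ × ℤ)) : Set (ℤ × ℤ)))
    (D := (D : Set (ℤ × ℤ))) (a := (0, 0)) (b := (0, 4 * (M : ℤ))) f hf.1.1
    (fun p q h => (hf.2 p q).1 h) (fun p hp => by
      rw [Finset.mem_coe, Finset.mem_preimage] at hp
      exact hp)
  have h3 : Rl (5000000 * G * Real.log ((D.preimage f hf.1.1.injOn).card + 2) ^ 2)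
      (D : Set (ℤ × ℤ)) (f (0, 0)) (f (0, 4 * (M : ℤ))) := le_trans h1 h2
  refine h3.weak ?_
  have h4 : (((D.preimage f hf.1.1.injOn).card : ℕ) : ℝ) ≤ D.card := by
    exact_mod_cast pre_card D hf.1.1
  have h5 : 0 ≤ Real.log (((D.preimage f hf.1.1.injOn).card : ℝ) + 2) :=
    Real.log_nonneg (by linarith [Nat.cast_nonneg (α := ℝ) (D.preimage f hf.1.1.injOn).card])
  have h6 : Real.log (((D.preimage f hf.1.1.injOn).card : ℝ) + 2) ≤ Real.log ((D.card : ℝ) + 2) :=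
    Real.log_le_log (by linarith [Nat.cast_nonneg (α := ℝ) (D.preimage f hf.1.1.injOn).card])
      (by linarith)
  gcongr

/-- one step of a chain -/
def Sp (D : Finset (ℤ × ℤ)) (p q : ℤ × ℤ) : Prop :=
  (Nbr p q ∧ p ∈ D ∧ q ∈ D) ∨
  (∃ M : ℕ, 1 ≤ M ∧ |q.1 - p.1| ≤ M ∧ |q.2 - p.2| ≤ M ∧
    ∀ z : ℤ × ℤ, |z.1 - p.1| ≤ 4 * M → |z.2 - p.2| ≤ 4 * M → z ∈ D) ∨
  (∃ (f : ℤ × ℤ → ℤ × ℤ) (M : ℕ), Au f ∧ 1 ≤ M ∧ p = f (0, 0) ∧ q = f (0, 4 * (M : ℤ)) ∧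
    ∀ z : ℤ × ℤ, |z.1| ≤ 8 * M → 0 ≤ z.2 → z.2 ≤ 8 * M → f z ∈ D)

theorem Sp.mono {D D' : Finset (ℤ × ℤ)} (h : D ⊆ D') {p q : ℤ × ℤ} (hs : Sp D p q) : Sp D' p q := by
  rcases hs with ⟨h1, h2, h3⟩ | ⟨M, h1, h2, h3, h4⟩ | ⟨f, M, h1, h2, h3, h4, h5⟩
  · exact Or.inl ⟨h1, h h2, h h3⟩
  · exact Or.inr (Or.inl ⟨M, h1, h2, h3, fun z z1 z2 => h (h4 z z1 z2)⟩)
  · exact Or.inr (Or.inr ⟨f, M, h1, h2, h3, h4, fun z z1 z2 z3 => h (h5 z z1 z2 z3)⟩)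

theorem Sp.rl {G : ℝ} (hG1 : 1 ≤ G) (hG : ∀ D, Gl G D) {D : Finset (ℤ × ℤ)} {p q : ℤ × ℤ}
    (h : Sp D p q) : Rl (5000000 * G * Real.log (D.card + 2) ^ 2) (D : Set (ℤ × ℤ)) p q := by
  have hL := logD' (D := D)
  have hGL : Real.log ((D.card : ℝ) + 2) ^ 2 ≤ G * Real.log ((D.card : ℝ) + 2) ^ 2 := by
    nlinarith [sq_nonneg (Real.log ((D.card : ℝ) + 2))]
  rcases h with ⟨h1, h2, h3⟩ | ⟨M, h1, h2, h3, h4⟩ | ⟨f, M, h1, h2, rfl, rfl, h5⟩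
  · exact (Rl_adj h2 h3 h1).weak (by linarith)
  · exact harnack hG1 (hG D) h1 h2 h3 h4
  · exact bdry_au hG1 hG h1 h2 h5

/-- joined by a chain of `m` steps -/
def Jn (D : Finset (ℤ × ℤ)) (m : ℕ) (a b : ℤ × ℤ) : Prop :=
  ∃ c : ℕ → ℤ × ℤ, c 0 = a ∧ c m = b ∧ a ∈ D ∧ ∀ i < m, Sp D (c i) (c (i + 1)) ∨ Sp D (c (i + 1)) (c i)

theorem Jn.rl {G : ℝ} (hG1 : 1 ≤ G) (hG : ∀ D, Gl G D) {D : Finset (ℤ × ℤ)} {m : ℕ} {a b : ℤ × ℤ}
    (h : Jn D m a b) : Rl (6000000 * G * m * Real.log (D.card + 2) ^ 2) (D : Set (ℤ × ℤ)) a b := by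
  obtain ⟨c, rfl, rfl, h2, h3⟩ := h
  have h4 := chain_Rl hG1 (hG D) (κ := 5000000 * G * Real.log (D.card + 2) ^ 2) (by positivity) c
    (n := m) h2 (fun i hi => by
      rcases h3 i hi with h | h
      · exact h.rl hG1 hG
      · exact (h.rl hG1 hG).symm)
  refine h4.weak ?_
  have : 0 ≤ (m : ℝ) * (G * Real.log ((D.card : ℝ) + 2) ^ 2) := by positivity
  nlinarith

/-- the upper bound at the critical point -/
theorem upper_crit : ∃ K : ℝ, 0 ≤ K ∧ ∀ (D : Finset (ℤ × ℤ)) (a b : ℤ × ℤ),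
    Zm mu0⁻¹ (Pt (D : Set (ℤ × ℤ)) a b) ≤ ENNReal.ofReal (Real.exp (K * Real.log (D.card + 2) ^ 2)) := by
  obtain ⟨K, hK, h⟩ := walk_upper
  refine ⟨K, hK, fun D a b => le_trans ?_ (h D a)⟩
  exact ENNReal.tsum_mono_subtype (fun l : List (ℤ × ℤ) => ENNReal.ofReal (mu0⁻¹ ^ (l.length - 1)))
    (fun l hl => ⟨hl.1, hl.2.2.1, hl.2.2.2.1, hl.2.2.2.2⟩)

/-- paths through an edge between two disjoint sets -/
theorem through {x : ℝ} (hx : 0 ≤ x) {D1 D2 D : Set (ℤ × ℤ)} (h1 : D1 ⊆ D) (h2 : D2 ⊆ D) (hd : Disjoint D1 D2)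
    {a b z z' : ℤ × ℤ} (hz : Nbr z z') :
    ENNReal.ofReal x * (Zm x (Pt D1 a z) * Zm x (Pt D2 z' b)) ≤
      Zm x {l | l ∈ Pt D a b ∧ [z, z'] <:+: l} := by
  classical
  refine Zm_prod (fun l η => l ++ η) _ ?_ ?_ ?_
  · intro l hl η hη
    refine ⟨Pt_append (Pt_mono h1 hl) (Pt_mono h2 hη) hz fun p hp hp' => ?_, ?_⟩
    · exact Set.disjoint_left.1 hd (hl.2.2.2.2 p hp) (hη.2.2.2.2 p hp')
    · obtain ⟨l', rfl⟩ : ∃ l', l = l' ++ [z] := by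
        have := hl.2.1
        rw [List.getLast?_eq_some_iff] at this
        exact this
      obtain ⟨η', rfl⟩ : ∃ η', η = z' :: η' := by
        have := hη.1
        rw [List.head?_eq_some_iff] at this
        exact this
      exact ⟨l', η', by simp⟩
  · intro l hl η hη l' hl' η' hη' e
    have e1 : l = l' := append_split (p := fun v => v ∈ D1) e (fun v hv => hl.2.2.2.2 v hv)
      (fun v hv => hl'.2.2.2.2 v hv)
      (fun v hv hv' => Set.disjoint_left.1 hd hv' (hη.2.2.2.2 v hv))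
      (fun v hv hv' => Set.disjoint_left.1 hd hv' (hη'.2.2.2.2 v hv))
    subst e1
    exact ⟨rfl, List.append_cancel_left e⟩
  · intro l hl η hη
    have g1 := List.length_pos_of_ne_nil (Pt.ne hl)
    have g2 := List.length_pos_of_ne_nil (Pt.ne hη)
    rw [← ENNReal.ofReal_mul (by positivity), ← ENNReal.ofReal_mul (by positivity)]
    apply le_of_eq
    congr 1
    have e : (l ++ η).length - 1 = (l.length - 1) + (η.length - 1) + 1 := by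
      rw [List.length_append]
      omega
    rw [e, pow_succ, pow_add]
    ring

theorem cover {ι : Type*} {x : ℝ} {S : Set (List (ℤ × ℤ))} (I : Finset ι) (T : ι → Set (List (ℤ × ℤ)))
    (h : ∀ l ∈ S, ∃ i ∈ I, l ∈ T i) : Zm x S ≤ ∑ i ∈ I, Zm x (T i) := by
  classical
  unfold Zm
  refine le_trans ?_ (ENNReal.tsum_biUnion_le
    (fun l : List (ℤ × ℤ) => ENNReal.ofReal (x ^ (l.length - 1))) I T)
  apply ENNReal.tsum_mono_subtype (fun l : List (ℤ × ℤ) => ENNReal.ofReal (x ^ (l.length - 1)))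
  intro l hl
  obtain ⟨i, hi, hl'⟩ := h l hl
  rw [Set.mem_iUnion₂]
  exact ⟨i, hi, hl'⟩

end Pool.Agent.U508.NC
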