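import Pool.Agent.U508.NC.Thin

set_option autoImplicit false

/-! The critical partition function: the final bounds. -/

namespace Pool.Agent.U508.NC

open Pool.Agent.U508.ST Pool.Agent.W818.TD H978R2.Hex
open scoped ENNReal

theorem Jn.mono {D D' : Finset (ℤ × ℤ)} (h : D ⊆ D') {m : ℕ} {a b : ℤ × ℤ} (hs : Jn D m a b) :
    Jn D' m a b := by
  obtain ⟨c, h1, h2, h3, h4⟩ := hs
  exact ⟨c, h1, h2, h h3, fun i hi => (h4 i hi).imp (Sp.mono h) (Sp.mono h)⟩

theorem crit_main : ∃ C : ℝ, 0 < C ∧ ∀ (D : Finset (ℤ × ℤ)) (a b : ℤ × ℤ),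
    (Z mu0⁻¹ (Pt (D : Set (ℤ × ℤ)) a b) ≤ Real.exp (C * Real.log (D.card + 2) ^ 2)) ∧
    (∀ m : ℕ, Jn D m a b →
      Real.exp (-(C * m * Real.log (D.card + 2) ^ 2)) ≤ Z mu0⁻¹ (Pt (D : Set (ℤ × ℤ)) a b)) ∧
    (∀ (D' : Finset (ℤ × ℤ)) (m : ℕ), D' ⊆ D → Jn D' m a b →
      Real.exp (-(C * (m + 1) * Real.log (D.card + 2) ^ 2)) * Z mu0⁻¹ (Pt (D : Set (ℤ × ℤ)) a b) ≤
        Z mu0⁻¹ (Pt (D' : Set (ℤ × ℤ)) a b)) ∧
    (∀ (D1 D2 : Finset (ℤ × ℤ)) (m n : ℕ) (z z' : ℤ × ℤ), D1 ⊆ D → D2 ⊆ D → Disjoint D1 D2 → Nbr z z' →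
      Jn D1 m a z → Jn D2 n z' b →
      Real.exp (-(C * (m + n + 1) * Real.log (D.card + 2) ^ 2)) * Z mu0⁻¹ (Pt (D : Set (ℤ × ℤ)) a b) ≤
        Z mu0⁻¹ {l | l ∈ Pt (D : Set (ℤ × ℤ)) a b ∧ [z, z'] <:+: l}) ∧
    (∀ (m : ℕ) (f : ℤ × ℤ → ℤ × ℤ) (L h : ℕ), Jn D m a b → Au f → 1 ≤ L → L ≤ D.card →
      Z mu0⁻¹ (Th (D : Set (ℤ × ℤ)) a b f L h) ≤
        Real.exp (C * (m + 1) * Real.log (D.card + 2) ^ 2 - Real.log 2 / 32 * (h / L)) *
          Z mu0⁻¹ (Pt (D : Set (ℤ × ℤ)) a b)) := by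
  obtain ⟨G, hG1, hG⟩ := exists_glue
  obtain ⟨K1, hK1, hu⟩ := upper_crit
  obtain ⟨K2, hK2, ht⟩ := thin
  have hG' : ∀ D, Gl G D := fun D a b c κ κ' h1 h2 => hG D a b c κ κ' h1 h2
  set C : ℝ := 6000000 * G + K1 + K2 + 4 with hC
  have hC0 : 0 < C := by positivity
  have hmu : (0 : ℝ) ≤ mu0⁻¹ := inv_nonneg.2 mu0_pos.le
  have hL0 : ∀ D : Finset (ℤ × ℤ), 0 ≤ Real.log ((D.card : ℝ) + 2) := fun D =>
    Real.log_nonneg (by linarith [Nat.cast_nonneg (α := ℝ) D.card])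
  have hL1 : ∀ D : Finset (ℤ × ℤ), 1 ≤ 4 * Real.log ((D.card : ℝ) + 2) ^ 2 := fun D => logD'
  have hmono : ∀ D D' : Finset (ℤ × ℤ), D' ⊆ D →
      Real.log ((D'.card : ℝ) + 2) ^ 2 ≤ Real.log ((D.card : ℝ) + 2) ^ 2 := by
    intro D D' h
    have h1 : (D'.card : ℝ) ≤ D.card := by exact_mod_cast Finset.card_le_card h
    have h2 := hL0 D'
    have h3 : Real.log ((D'.card : ℝ) + 2) ≤ Real.log ((D.card : ℝ) + 2) :=
      Real.log_le_log (by linarith [Nat.cast_nonneg (α := ℝ) D'.card]) (by linarith)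
    gcongr
  have htop : ∀ (D : Finset (ℤ × ℤ)) (a b : ℤ × ℤ) (S : Set (List (ℤ × ℤ))),
      S ⊆ Pt (D : Set (ℤ × ℤ)) a b → Zm mu0⁻¹ S ≠ ∞ := by
    intro D a b S hS
    refine ne_top_of_le_ne_top ENNReal.ofReal_ne_top (le_trans ?_ (hu D a b))
    exact ENNReal.tsum_mono_subtype (fun l : List (ℤ × ℤ) => ENNReal.ofReal (mu0⁻¹ ^ (l.length - 1))) hS
  -- from `Rl` to real numbers
  have hlow : ∀ (D : Finset (ℤ × ℤ)) (a b : ℤ × ℤ) (m : ℕ), Jn D m a b →
      Real.exp (-(6000000 * G * m * Real.log (D.card + 2) ^ 2)) ≤ Z mu0⁻¹ (Pt (D : Set (ℤ × ℤ)) a b) := by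
    intro D a b m h
    rw [Z_eq hmu]
    have h3 := ENNReal.toReal_mono (htop D a b _ subset_rfl) (h.rl hG1 hG')
    rwa [ENNReal.toReal_ofReal (Real.exp_pos _).le] at h3
  have hupp : ∀ (D : Finset (ℤ × ℤ)) (a b : ℤ × ℤ),
      Z mu0⁻¹ (Pt (D : Set (ℤ × ℤ)) a b) ≤ Real.exp (K1 * Real.log (D.card + 2) ^ 2) := by
    intro D a b
    rw [Z_eq hmu]
    exact ENNReal.toReal_le_of_le_ofReal (Real.exp_pos _).le (hu D a b)
  refine ⟨C, hC0, fun D a b => ⟨?_, ?_, ?_, ?_, ?_⟩⟩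
  · refine (hupp D a b).trans (Real.exp_le_exp.2 ?_)
    have := sq_nonneg (Real.log ((D.card : ℝ) + 2))
    have h1 : K1 ≤ C := by rw [hC]; linarith
    gcongr
  · intro m h
    refine le_trans (Real.exp_le_exp.2 ?_) (hlow D a b m h)
    apply neg_le_neg
    have h1 : 6000000 * G ≤ C := by rw [hC]; linarith
    gcongr
  · intro D' m hD h
    have h1 := hlow D' a b m h
    have h2 := hupp D a b
    refine le_trans ?_ h1
    calc Real.exp (-(C * (m + 1) * Real.log (D.card + 2) ^ 2)) * Z mu0⁻¹ (Pt (D : Set (ℤ × ℤ)) a b)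
        ≤ Real.exp (-(C * (m + 1) * Real.log (D.card + 2) ^ 2)) *
          Real.exp (K1 * Real.log (D.card + 2) ^ 2) := by gcongr
      _ ≤ _ := by
        rw [← Real.exp_add]
        apply Real.exp_le_exp.2
        have h3 := hmono D D' hD
        have h4 : 6000000 * G * m * Real.log ((D'.card : ℝ) + 2) ^ 2 ≤
            6000000 * G * m * Real.log ((D.card : ℝ) + 2) ^ 2 := by gcongr
        have h5 : 6000000 * G * m * Real.log ((D.card : ℝ) + 2) ^ 2 ≤
            C * m * Real.log ((D.card : ℝ) + 2) ^ 2 := by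
          have : 6000000 * G ≤ C := by rw [hC]; linarith
          gcongr
        have h6 : K1 * Real.log ((D.card : ℝ) + 2) ^ 2 ≤ C * Real.log ((D.card : ℝ) + 2) ^ 2 := by
          have : K1 ≤ C := by rw [hC]; linarith
          gcongr
        linarith
  · intro D1 D2 m n z z' hD1 hD2 hd hz h1 h2
    have g1 := hlow D1 a z m h1
    have g2 := hlow D2 z' b n h2
    have g3 := hupp D a b
    have hdd : Disjoint (D1 : Set (ℤ × ℤ)) (D2 : Set (ℤ × ℤ)) := by
      exact_mod_cast hd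
    have g4 := through (x := mu0⁻¹) hmu (D := (D : Set (ℤ × ℤ))) (Finset.coe_subset.2 hD1)
      (Finset.coe_subset.2 hD2) hdd (a := a) (b := b) hz
    have g5 := ENNReal.toReal_mono (htop D a b _ (fun l hl => hl.1)) g4
    rw [ENNReal.toReal_mul, ENNReal.toReal_mul, ENNReal.toReal_ofReal hmu, ← Z_eq hmu, ← Z_eq hmu,
      ← Z_eq hmu] at g5
    refine le_trans ?_ g5
    have b1 : Real.exp (-(4 * Real.log ((D.card : ℝ) + 2) ^ 2)) ≤ mu0⁻¹ := by
      have c1 : Real.exp (-(4 * Real.log ((D.card : ℝ) + 2) ^ 2)) ≤ Real.exp (-1) := by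
        apply Real.exp_le_exp.2
        linarith [hL1 D]
      have c2 := exp_half 1
      have hxc := xc_half (ε := 0) le_rfl
      rw [Real.exp_zero, mul_one] at hxc
      simp only [Nat.cast_one, pow_one] at c2
      linarith
    calc Real.exp (-(C * (m + n + 1) * Real.log (D.card + 2) ^ 2)) * Z mu0⁻¹ (Pt (D : Set (ℤ × ℤ)) a b)
        ≤ Real.exp (-(C * (m + n + 1) * Real.log (D.card + 2) ^ 2)) *
          Real.exp (K1 * Real.log (D.card + 2) ^ 2) := by gcongr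
      _ ≤ Real.exp (-(4 * Real.log ((D.card : ℝ) + 2) ^ 2)) *
          (Real.exp (-(6000000 * G * m * Real.log (D1.card + 2) ^ 2)) *
            Real.exp (-(6000000 * G * n * Real.log (D2.card + 2) ^ 2))) := by
        rw [← Real.exp_add, ← Real.exp_add, ← Real.exp_add]
        apply Real.exp_le_exp.2
        have h3 := hmono D D1 hD1
        have h3' := hmono D D2 hD2
        have h4 : 6000000 * G * m * Real.log ((D1.card : ℝ) + 2) ^ 2 ≤
            6000000 * G * m * Real.log ((D.card : ℝ) + 2) ^ 2 := by gcongr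
        have h4' : 6000000 * G * n * Real.log ((D2.card : ℝ) + 2) ^ 2 ≤
            6000000 * G * n * Real.log ((D.card : ℝ) + 2) ^ 2 := by gcongr
        have h5 : 6000000 * G * m * Real.log ((D.card : ℝ) + 2) ^ 2 ≤
            C * m * Real.log ((D.card : ℝ) + 2) ^ 2 := by
          have : 6000000 * G ≤ C := by rw [hC]; linarith
          gcongr
        have h5' : 6000000 * G * n * Real.log ((D.card : ℝ) + 2) ^ 2 ≤
            C * n * Real.log ((D.card : ℝ) + 2) ^ 2 := by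
          have : 6000000 * G ≤ C := by rw [hC]; linarith
          gcongr
        have h6 : (K1 + 4) * Real.log ((D.card : ℝ) + 2) ^ 2 ≤ C * Real.log ((D.card : ℝ) + 2) ^ 2 := by
          have : K1 + 4 ≤ C := by rw [hC]; linarith
          gcongr
        linarith
      _ ≤ _ := by
        have : 0 ≤ Z mu0⁻¹ (Pt (D1 : Set (ℤ × ℤ)) a z) := le_trans (Real.exp_pos _).le g1
        gcongr
  · intro m f L h h1 hf hL hLD
    have g1 := hlow D a b m h1
    have g2 := ht D a b f hf L h hL hLD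
    have g3 : Z mu0⁻¹ (Th (D : Set (ℤ × ℤ)) a b f L h) ≤
        Real.exp (K2 * Real.log (D.card + 2) ^ 2 - Real.log 2 / 32 * (h / L)) := by
      rw [Z_eq hmu]
      exact ENNReal.toReal_le_of_le_ofReal (Real.exp_pos _).le g2
    refine g3.trans ?_
    calc Real.exp (K2 * Real.log (D.card + 2) ^ 2 - Real.log 2 / 32 * (h / L))
        ≤ Real.exp (C * (m + 1) * Real.log (D.card + 2) ^ 2 - Real.log 2 / 32 * (h / L)) *
          Real.exp (-(6000000 * G * m * Real.log (D.card + 2) ^ 2)) := by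
            rw [← Real.exp_add]
            apply Real.exp_le_exp.2
            have h5 : 6000000 * G * m * Real.log ((D.card : ℝ) + 2) ^ 2 ≤
                C * m * Real.log ((D.card : ℝ) + 2) ^ 2 := by
              have : 6000000 * G ≤ C := by rw [hC]; linarith
              gcongr
            have h6 : K2 * Real.log ((D.card : ℝ) + 2) ^ 2 ≤ C * Real.log ((D.card : ℝ) + 2) ^ 2 := by
              have : K2 ≤ C := by rw [hC]; linarith
              gcongr
            linarith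
      _ ≤ _ := by gcongr

end Pool.Agent.U508.NC
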