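import Pool.Agent.U508.NC.UpD

set_option autoImplicit false

/-! Length of the path above the critical point. -/

namespace Pool.Agent.U508.NC

open Pool.Agent.U508.ST Pool.Agent.W818.TD H978R2.Hex Filter
open scoped ENNReal Topology

theorem main : ∃ K : ℝ, 0 ≤ K ∧ ∀ ε : ℝ, 0 < ε → ∀ (D : Finset (ℤ × ℤ)) (a b : ℤ × ℤ),
    Z (mu0⁻¹ * Real.exp ε) (Pt (D : Set (ℤ × ℤ)) a b) ≤
      Real.exp (ε * D.card + K * Real.log (D.card + 2) ^ 2) ∧
    ∀ (u v : ℤ) (A H : ℕ) (P Q : List (ℤ × ℤ)), P ++ row u v A ++ Q ∈ Pt (D : Set (ℤ × ℤ)) a b →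
      (∀ i j : ℕ, i < A → j < H → (u + (i : ℤ), v + (j : ℤ)) ∈ (D : Set (ℤ × ℤ)) ∧
        (u + (i : ℤ), v + (j : ℤ)) ∉ P ∧ (u + (i : ℤ), v + (j : ℤ)) ∉ Q) →
      Real.exp (2 * ε * dens ε * A * H - 7 * (1 + ε) * (P.length + Q.length + A + H)) ≤
        Z (mu0⁻¹ * Real.exp ε) (Pt (D : Set (ℤ × ℤ)) a b) ∧
      Z (mu0⁻¹ * Real.exp ε) {l | l ∈ Pt (D : Set (ℤ × ℤ)) a b ∧
        ((l.length - 1 : ℕ) : ℝ) ≤ dens ε * A * H} ≤
      Real.exp (-(ε * dens ε * A * H) + 7 * (1 + ε) * (P.length + Q.length + A + H) +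
        K * Real.log (D.card + 2) ^ 2) * Z (mu0⁻¹ * Real.exp ε) (Pt (D : Set (ℤ × ℤ)) a b) := by
  obtain ⟨K, hK, hup⟩ := upper
  refine ⟨K, hK, fun ε hε D a b => ?_⟩
  have hx0 : 0 ≤ mu0⁻¹ * Real.exp ε := by
    have := xc_half hε.le
    linarith
  have h1 := hup D a b (Pt (D : Set (ℤ × ℤ)) a b) subset_rfl ε hε.le D.card (by
    intro l hl
    have := len_le hl
    have h2 : l.length - 1 ≤ D.card := by omega
    exact_mod_cast h2)
  have h1' : Z (mu0⁻¹ * Real.exp ε) (Pt (D : Set (ℤ × ℤ)) a b) ≤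
      Real.exp (ε * D.card + K * Real.log (D.card + 2) ^ 2) := by
    rw [Z_eq hx0]
    exact ENNReal.toReal_le_of_le_ofReal (Real.exp_pos _).le h1
  refine ⟨h1', fun u v A H P Q hP hR => ?_⟩
  have h2 := lower hε hP hR
  have h2' : Real.exp (2 * ε * dens ε * A * H - 7 * (1 + ε) * (P.length + Q.length + A + H)) ≤
        Z (mu0⁻¹ * Real.exp ε) (Pt (D : Set (ℤ × ℤ)) a b) := by
    rw [Z_eq hx0]
    have h3 := ENNReal.toReal_mono (ne_top_of_le_ne_top ENNReal.ofReal_ne_top h1) h2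
    rwa [ENNReal.toReal_ofReal (Real.exp_pos _).le] at h3
  refine ⟨h2', ?_⟩
  have h3 := hup D a b {l | l ∈ Pt (D : Set (ℤ × ℤ)) a b ∧
        ((l.length - 1 : ℕ) : ℝ) ≤ dens ε * A * H} (fun l hl => hl.1) ε hε.le _ (fun l hl => hl.2)
  have h3' : Z (mu0⁻¹ * Real.exp ε) {l | l ∈ Pt (D : Set (ℤ × ℤ)) a b ∧
        ((l.length - 1 : ℕ) : ℝ) ≤ dens ε * A * H} ≤
      Real.exp (ε * (dens ε * A * H) + K * Real.log (D.card + 2) ^ 2) := by
    rw [Z_eq hx0]
    exact ENNReal.toReal_le_of_le_ofReal (Real.exp_pos _).le h3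
  refine h3'.trans ?_
  have e : Real.exp (ε * (dens ε * A * H) + K * Real.log (D.card + 2) ^ 2) =
      Real.exp (-(ε * dens ε * A * H) + 7 * (1 + ε) * (P.length + Q.length + A + H) +
        K * Real.log (D.card + 2) ^ 2) *
      Real.exp (2 * ε * dens ε * A * H - 7 * (1 + ε) * (P.length + Q.length + A + H)) := by
    rw [← Real.exp_add]
    congr 1
    ring
  rw [e]
  gcongr

theorem ev_window (κ K : ℝ) (hκ : 0 < κ) (hK : 0 ≤ K) : ∃ K' : ℝ, 0 < K' ∧ ∀ᶠ N : ℕ in atTop,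
    ∀ ε : ℝ, K' * Real.log N / Real.sqrt N ≤ ε →
      0 < ε ∧ 7 * (1 + ε) * (N / κ) + K * Real.log (N ^ 2 / κ + 2) ^ 2 ≤ ε * dens ε * (κ * N ^ 2) / 2 := by
  set K' : ℝ := 4 + 2 * 1000000 * (14 / κ + 1) / κ with hK'
  have hK'0 : 4 ≤ K' := by
    have : 0 ≤ 2 * 1000000 * (14 / κ + 1) / κ := by positivity
    linarith
  have hKK : 2 * 1000000 * (14 / κ + 1) / κ ≤ K' ^ 2 := by nlinarith
  refine ⟨K', by linarith, ?_⟩
  have t1 : Tendsto (fun x : ℝ => K * Real.log (x ^ 2 / κ + 2) ^ 2 / x) atTop (𝓝 0) := by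
    have h1 : Tendsto (fun x : ℝ => K * (|Real.log (1 / κ + 2)| + 2) ^ 2 * (Real.log x ^ 2 / x)) atTop
        (𝓝 0) := by
      have h2 := (Real.tendsto_pow_log_div_mul_add_atTop 1 0 2 one_ne_zero).const_mul
        (K * (|Real.log (1 / κ + 2)| + 2) ^ 2)
      rw [mul_zero] at h2
      refine h2.congr fun x => ?_
      simp
    refine squeeze_zero' ?_ ?_ h1
    · filter_upwards [eventually_gt_atTop 0] with x hx
      positivity
    · filter_upwards [eventually_ge_atTop (Real.exp 1)] with x hx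
      have hx0 : 0 < x := (Real.exp_pos 1).trans_le hx
      have hx1 : 1 ≤ x := by
        have := Real.add_one_le_exp (1 : ℝ)
        linarith
      have hl : 1 ≤ Real.log x := by
        rw [Real.le_log_iff_exp_le hx0]
        exact hx
      have h3 : Real.log (x ^ 2 / κ + 2) ≤ (|Real.log (1 / κ + 2)| + 2) * Real.log x := by
        have h4 : x ^ 2 / κ + 2 ≤ (1 / κ + 2) * x ^ 2 := by
          have : 1 ≤ x ^ 2 := one_le_pow₀ hx1
          have e : (1 / κ + 2) * x ^ 2 = x ^ 2 / κ + 2 * x ^ 2 := by ring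
          rw [e]
          linarith
        have h5 := Real.log_le_log (by positivity) h4
        rw [Real.log_mul (by positivity) (by positivity), Real.log_pow] at h5
        have h6 := le_abs_self (Real.log (1 / κ + 2))
        have h7 := abs_nonneg (Real.log (1 / κ + 2))
        push_cast at h5
        nlinarith
      have h8 : 0 ≤ Real.log (x ^ 2 / κ + 2) := Real.log_nonneg (by
        have : 0 ≤ x ^ 2 / κ := by positivity
        linarith)
      calc K * Real.log (x ^ 2 / κ + 2) ^ 2 / x ≤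
          K * ((|Real.log (1 / κ + 2)| + 2) * Real.log x) ^ 2 / x := by gcongr
        _ = _ := by ring
  have t1' := (t1.comp tendsto_natCast_atTop_atTop).eventually (gt_mem_nhds one_pos)
  have t2 : Tendsto (fun x : ℝ => K' * Real.log x / Real.sqrt x) atTop (𝓝 0) := by
    have h1 : Tendsto (fun x : ℝ => Real.log x / x ^ (1 / 2 : ℝ)) atTop (𝓝 0) :=
      (isLittleO_log_rpow_atTop (by norm_num)).tendsto_div_nhds_zero
    have h2 := h1.const_mul K'
    rw [mul_zero] at h2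
    refine h2.congr fun x => ?_
    rw [Real.sqrt_eq_rpow, mul_div_assoc]
  have t2' := (t2.comp tendsto_natCast_atTop_atTop).eventually (gt_mem_nhds one_pos)
  filter_upwards [t1', t2', eventually_ge_atTop 3] with N h1 h2 hN ε hε
  simp only [Function.comp_apply] at h1 h2
  have hN3 : (3 : ℝ) ≤ N := by exact_mod_cast hN
  have hN0 : (0 : ℝ) < N := by linarith
  have hs := Real.sqrt_pos.2 hN0
  have hs2 := Real.sq_sqrt hN0.le
  have hlN : 1 ≤ Real.log N := by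
    rw [Real.le_log_iff_exp_le hN0]
    have := Real.exp_one_lt_d9
    linarith
  rw [div_lt_one hN0] at h1
  have hε0 : 0 < ε := lt_of_lt_of_le (by positivity) hε
  refine ⟨hε0, ?_⟩
  set η := min ε 1 with hη
  have hη0 : 0 < η := lt_min hε0 one_pos
  have hη1 : η ≤ 1 := min_le_right _ _
  have hηε : η ≤ ε := min_le_left _ _
  have hηl : K' * Real.log N / Real.sqrt N ≤ η := le_min hε h2.le
  set Λ := Real.log (2 / η) with hΛ
  have hΛ0 : 1 / 2 ≤ Λ := by
    have h2 := log_two_half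
    have h3 : Real.log 2 ≤ Real.log (2 / η) := by
      apply Real.log_le_log (by norm_num)
      rw [le_div_iff₀ hη0]
      linarith
    linarith
  have hΛN : Λ ≤ Real.log N := by
    apply Real.log_le_log (by positivity)
    rw [div_le_iff₀ hη0]
    have h3 : 4 * 1 / Real.sqrt N ≤ η := by
      refine le_trans ?_ hηl
      gcongr
    have h4 : N * (4 * 1 / Real.sqrt N) = 4 * Real.sqrt N := by
      field_simp
      rw [hs2]
    have h5 : 1 ≤ Real.sqrt N := by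
      rw [Real.one_le_sqrt]
      linarith
    calc (2 : ℝ) ≤ 4 * Real.sqrt N := by linarith
      _ = N * (4 * 1 / Real.sqrt N) := h4.symm
      _ ≤ N * η := by gcongr
  have hηΛ : K' / Real.sqrt N ≤ η / Λ := by
    rw [le_div_iff₀ (by linarith)]
    calc K' / Real.sqrt N * Λ ≤ K' / Real.sqrt N * Real.log N := by gcongr
      _ = K' * Real.log N / Real.sqrt N := by ring
      _ ≤ η := hηl
  have hsq : K' ^ 2 / N ≤ (η / Λ) ^ 2 := by
    have h3 := pow_le_pow_left₀ (by positivity) hηΛ 2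
    rwa [div_pow, hs2] at h3
  have hεη : 1 ≤ ε / η := by rw [le_div_iff₀ hη0]; linarith
  have hεη' : ε ≤ ε / η := by
    rw [le_div_iff₀ hη0]
    nlinarith
  have hd : ε * dens ε = (ε / η) * ((η / Λ) ^ 2 / 1000000) := by
    unfold dens
    rw [← hη, ← hΛ]
    field_simp
  have hmain : 14 / κ * N + N ≤ (η / Λ) ^ 2 / 1000000 * (κ * N ^ 2) / 2 := by
    have h3 : 2 * 1000000 * (14 / κ + 1) / κ / N ≤ (η / Λ) ^ 2 := by
      refine le_trans ?_ hsq
      gcongr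
    have h4 : 14 / κ * N + N = (2 * 1000000 * (14 / κ + 1) / κ / N) / 1000000 * (κ * N ^ 2) / 2 := by
      field_simp
    rw [h4]
    gcongr
  calc 7 * (1 + ε) * (N / κ) + K * Real.log (N ^ 2 / κ + 2) ^ 2
      ≤ 7 * (ε / η + ε / η) * (N / κ) + N := by gcongr
    _ ≤ 7 * (ε / η + ε / η) * (N / κ) + (ε / η) * N := by
        have : 1 * (N : ℝ) ≤ (ε / η) * N := by gcongr
        linarith
    _ = (ε / η) * (14 / κ * N + N) := by ring
    _ ≤ (ε / η) * ((η / Λ) ^ 2 / 1000000 * (κ * N ^ 2) / 2) := by gcongr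
    _ = ε * dens ε * (κ * N ^ 2) / 2 := by rw [hd]; ring

theorem window {κ : ℝ} (hκ : 0 < κ) : ∃ K' : ℝ, 0 < K' ∧ ∀ᶠ N : ℕ in atTop,
    ∀ ε : ℝ, K' * Real.log N / Real.sqrt N ≤ ε →
    ∀ (D : Finset (ℤ × ℤ)) (a b : ℤ × ℤ) (u v : ℤ) (A H : ℕ) (P Q : List (ℤ × ℤ)),
      P ++ row u v A ++ Q ∈ Pt (D : Set (ℤ × ℤ)) a b →
      (∀ i j : ℕ, i < A → j < H → (u + (i : ℤ), v + (j : ℤ)) ∈ (D : Set (ℤ × ℤ)) ∧
        (u + (i : ℤ), v + (j : ℤ)) ∉ P ∧ (u + (i : ℤ), v + (j : ℤ)) ∉ Q) →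
      (D.card : ℝ) ≤ N ^ 2 / κ → (P.length : ℝ) + Q.length + A + H ≤ N / κ → κ * N ^ 2 ≤ A * H →
      Z (mu0⁻¹ * Real.exp ε) {l | l ∈ Pt (D : Set (ℤ × ℤ)) a b ∧
        ((l.length - 1 : ℕ) : ℝ) ≤ dens ε * A * H} ≤
      Real.exp (-(ε * dens ε * A * H / 2)) * Z (mu0⁻¹ * Real.exp ε) (Pt (D : Set (ℤ × ℤ)) a b) := by
  obtain ⟨K, hK, hm⟩ := main
  obtain ⟨K', hK', hw⟩ := ev_window κ K hκ hK
  refine ⟨K', hK', ?_⟩
  filter_upwards [hw] with N hN ε hε D a b u v A H P Q hP hR hD hPQ hAH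
  obtain ⟨hε0, hN2⟩ := hN ε hε
  refine ((hm ε hε0 D a b).2 u v A H P Q hP hR).2.trans ?_
  have hx0 : 0 ≤ mu0⁻¹ * Real.exp ε := by
    have := xc_half hε0.le
    linarith
  have hZ : 0 ≤ Z (mu0⁻¹ * Real.exp ε) (Pt (D : Set (ℤ × ℤ)) a b) := by
    rw [Z_eq hx0]
    exact ENNReal.toReal_nonneg
  apply mul_le_mul_of_nonneg_right _ hZ
  apply Real.exp_le_exp.2
  have hd0 : 0 ≤ dens ε := by
    unfold dens
    have : 0 < min ε 1 := lt_min hε0 one_pos
    positivity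
  have h1 : ε * dens ε * (κ * N ^ 2) ≤ ε * dens ε * (A * H) := by gcongr
  have h2 : 7 * (1 + ε) * (P.length + Q.length + A + H : ℝ) ≤ 7 * (1 + ε) * (N / κ) := by gcongr
  have h3 : K * Real.log (D.card + 2) ^ 2 ≤ K * Real.log (N ^ 2 / κ + 2) ^ 2 := by
    have h4 : 0 ≤ Real.log ((D.card : ℝ) + 2) := Real.log_nonneg (by
      linarith [Nat.cast_nonneg (α := ℝ) D.card])
    have h5 : Real.log ((D.card : ℝ) + 2) ≤ Real.log (N ^ 2 / κ + 2) := by
      apply Real.log_le_log (by positivity)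
      linarith
    gcongr
  linarith

end Pool.Agent.U508.NC
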