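import Pool.Agent.U508.NC.Tile

set_option autoImplicit false

/-! Gluing of critical paths. -/

namespace Pool.Agent.U508.NC

open Pool.Agent.U508.ST Pool.Agent.W818.TD H978R2.Hex
open scoped ENNReal

/-- self-avoiding walks in `D` with the first vertex `b` -/
def Wk (D : Set (ℤ × ℤ)) (b : ℤ × ℤ) : Set (List (ℤ × ℤ)) :=
  {l | l.head? = some b ∧ l.IsChain Nbr ∧ l.Nodup ∧ ∀ p ∈ l, p ∈ D}

theorem toO_SA' {D : Set (ℤ × ℤ)} {a : ℤ × ℤ} {l : List (ℤ × ℤ)} (h : l ∈ Wk D a) {n : ℕ}
    (hn : l.length = n + 1) : l.map (toO a) ∈ SA n := by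
  obtain ⟨h1, h3, h4, h5⟩ := h
  refine ⟨⟨by rw [List.length_map, hn], ?_, h4.map (toO_inj a)⟩, ?_⟩
  · rw [List.isChain_map]
    exact h3.imp fun {p q} h => nbr_adj.1 (toO_nbr h)
  · rw [List.head?_map, h1]
    simp only [Option.map_some, Option.some.injEq]
    unfold toO
    split_ifs <;> (rw [sub_self]; rfl)

theorem count' {D : Set (ℤ × ℤ)} {a : ℤ × ℤ} (F : Finset (List (ℤ × ℤ))) (n : ℕ)
    (hF : ∀ l ∈ F, l ∈ Wk D a ∧ l.length = n + 1) : F.card ≤ (saws n).ncard := by
  classical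
  rw [← SA_ncard, ← Set.ncard_coe_finset]
  refine Set.ncard_le_ncard_of_injOn (fun l => l.map (toO a)) ?_ ?_ (SA_finite n)
  · intro l hl
    exact toO_SA' (hF l hl).1 (hF l hl).2
  · intro l _ l' _ e
    exact List.map_injective_iff.2 (toO_inj a) e

theorem Wk.ne {D : Set (ℤ × ℤ)} {a : ℤ × ℤ} {l : List (ℤ × ℤ)} (h : l ∈ Wk D a) : l ≠ [] := by
  intro e
  have := h.1
  rw [e] at this
  simp at this

theorem walk_upper : ∃ K : ℝ, 0 ≤ K ∧ ∀ (D : Finset (ℤ × ℤ)) (a : ℤ × ℤ),
      Zm mu0⁻¹ (Wk (D : Set (ℤ × ℤ)) a) ≤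
        ENNReal.ofReal (Real.exp (K * Real.log (D.card + 2) ^ 2)) := by
  classical
  obtain ⟨K0, C1, hK0, hC1, hup⟩ := saws_upper'
  have hl2 := log_two_half
  refine ⟨K0 + 2 + 4 * Real.log C1, by have := Real.log_nonneg hC1; positivity, ?_⟩
  intro D a
  set n := D.card with hn
  set S := Wk (D : Set (ℤ × ℤ)) a with hS
  have hmu := inv_pos.2 mu0_pos
  have hlC := Real.log_nonneg hC1
  have hlog : 1 / 2 ≤ Real.log ((n : ℝ) + 2) := by
    have : Real.log 2 ≤ Real.log ((n : ℝ) + 2) :=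
      Real.log_le_log (by norm_num) (by linarith [Nat.cast_nonneg (α := ℝ) n])
    linarith
  unfold Zm
  rw [ENNReal.tsum_eq_iSup_sum]
  refine iSup_le fun F => ?_
  rw [← ENNReal.ofReal_sum_of_nonneg (fun i _ => by positivity)]
  apply ENNReal.ofReal_le_ofReal
  set G : Finset (List (ℤ × ℤ)) := F.map ⟨Subtype.val, Subtype.val_injective⟩ with hG
  have hGS : ∀ l ∈ G, l ∈ S := by
    intro l hl
    rw [hG, Finset.mem_map] at hl
    obtain ⟨y, -, rfl⟩ := hl
    exact y.2
  have e1 : ∑ l ∈ F, (mu0⁻¹) ^ (l.1.length - 1) = ∑ l ∈ G, (mu0⁻¹) ^ (l.length - 1) := by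
    rw [hG, Finset.sum_map]
    rfl
  rw [e1]
  have e3 : ∑ l ∈ G, (mu0⁻¹) ^ (l.length - 1) =
      ∑ i ∈ Finset.range n, ∑ l ∈ G with l.length - 1 = i, (mu0⁻¹) ^ (l.length - 1) := by
    rw [Finset.sum_fiberwise_of_maps_to]
    intro l hl
    rw [Finset.mem_range]
    have h2 := List.length_pos_of_ne_nil (Wk.ne (hGS l hl))
    have h1 : l.length ≤ D.card := by
      rw [← List.toFinset_card_of_nodup (hGS l hl).2.2.1]
      apply Finset.card_le_card
      intro p hp
      rw [List.mem_toFinset] at hp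
      exact (hGS l hl).2.2.2 p hp
    omega
  rw [e3]
  have e4 : ∀ i ∈ Finset.range n, ∑ l ∈ G with l.length - 1 = i, (mu0⁻¹) ^ (l.length - 1) ≤
      C1 * Real.exp (K0 * Real.log (n + 2) ^ 2) := by
    intro i hi
    rw [Finset.mem_range] at hi
    have h1 : ∀ l ∈ G.filter (fun l => l.length - 1 = i), (mu0⁻¹) ^ (l.length - 1) = (mu0⁻¹) ^ i := by
      intro l hl
      rw [(Finset.mem_filter.1 hl).2]
    rw [Finset.sum_congr rfl h1, Finset.sum_const, nsmul_eq_mul]
    have h2 : (G.filter (fun l => l.length - 1 = i)).card ≤ (saws i).ncard := by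
      apply count' (D := (D : Set (ℤ × ℤ))) (a := a)
      intro l hl
      rw [Finset.mem_filter] at hl
      refine ⟨hGS l hl.1, ?_⟩
      have h3 := List.length_pos_of_ne_nil (Wk.ne (hGS l hl.1))
      omega
    have h3 := hup i n hi.le
    calc ((G.filter (fun l => l.length - 1 = i)).card : ℝ) * (mu0⁻¹) ^ i ≤
        ((saws i).ncard : ℝ) * (mu0⁻¹) ^ i := by
          apply mul_le_mul_of_nonneg_right _ (by positivity)
          exact_mod_cast h2
      _ ≤ (C1 * Real.exp (K0 * Real.log (n + 2) ^ 2) * mu0 ^ i) * (mu0⁻¹) ^ i := by gcongr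
      _ = C1 * Real.exp (K0 * Real.log (n + 2) ^ 2) * ((mu0⁻¹) ^ i * mu0 ^ i) := by ring
      _ = _ := by rw [xc_pow, mul_one]
  refine (Finset.sum_le_sum e4).trans ?_
  rw [Finset.sum_const, Finset.card_range, nsmul_eq_mul]
  have h5 : (n : ℝ) ≤ Real.exp (2 * Real.log (n + 2) ^ 2) := by
    have h6 : (n : ℝ) + 2 = Real.exp (Real.log (n + 2)) :=
      (Real.exp_log (by positivity)).symm
    have h7 : Real.exp (Real.log ((n : ℝ) + 2)) ≤ Real.exp (2 * Real.log (n + 2) ^ 2) := by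
      apply Real.exp_le_exp.2
      nlinarith
    linarith
  have h6 : C1 ≤ Real.exp (4 * Real.log C1 * Real.log (n + 2) ^ 2) := by
    have h7 : C1 = Real.exp (Real.log C1) := (Real.exp_log (by linarith)).symm
    have h8 : Real.exp (Real.log C1) ≤ Real.exp (4 * Real.log C1 * Real.log (n + 2) ^ 2) := by
      apply Real.exp_le_exp.2
      have h9 : 1 ≤ 4 * Real.log ((n : ℝ) + 2) ^ 2 := by nlinarith
      calc Real.log C1 = Real.log C1 * 1 := (mul_one _).symm
        _ ≤ Real.log C1 * (4 * Real.log ((n : ℝ) + 2) ^ 2) := by gcongr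
        _ = _ := by ring
    linarith
  calc (n : ℝ) * (C1 * Real.exp (K0 * Real.log (n + 2) ^ 2)) ≤
      Real.exp (2 * Real.log (n + 2) ^ 2) * (Real.exp (4 * Real.log C1 * Real.log (n + 2) ^ 2) *
        Real.exp (K0 * Real.log (n + 2) ^ 2)) := by gcongr
    _ = Real.exp ((K0 + 2 + 4 * Real.log C1) * Real.log (n + 2) ^ 2) := by
        rw [← Real.exp_add, ← Real.exp_add]
        congr 1
        ring

theorem first_mem {l m : List (ℤ × ℤ)} (h : ∃ v ∈ l, v ∈ m) :
    ∃ A p B, l = A ++ p :: B ∧ (∀ x ∈ A, x ∉ m) ∧ p ∈ m := by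
  induction l with
  | nil => simp at h
  | cons a t ih =>
    by_cases ha : a ∈ m
    · exact ⟨[], a, t, rfl, by simp, ha⟩
    · obtain ⟨v, hv, hvm⟩ := h
      rcases List.mem_cons.1 hv with e | hv
      · subst e
        exact absurd hvm ha
      · obtain ⟨A, p, B, e, h1, h2⟩ := ih ⟨v, hv, hvm⟩
        refine ⟨a :: A, p, B, by rw [e]; rfl, ?_, h2⟩
        intro x hx
        rcases List.mem_cons.1 hx with e | hx
        · rw [e]
          exact ha
        · exact h1 x hx

theorem nbr_symm {p q : ℤ × ℤ} (h : Nbr p q) : Nbr q p := by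
  rw [nbr_iff] at *
  omega

theorem rev_Pt {D : Set (ℤ × ℤ)} {a b : ℤ × ℤ} {l : List (ℤ × ℤ)} (h : l ∈ Pt D a b) :
    l.reverse ∈ Pt D b a := by
  obtain ⟨h1, h2, h3, h4, h5⟩ := h
  refine ⟨by rw [List.head?_reverse, h2], by rw [List.getLast?_reverse, h1], ?_,
    List.nodup_reverse.2 h4, fun p hp => h5 p (List.mem_reverse.1 hp)⟩
  rw [List.isChain_reverse]
  exact h3.imp fun {p q} hpq => nbr_symm hpq

theorem glue0 (D : Set (ℤ × ℤ)) (a b c : ℤ × ℤ) (x : ℝ) (hx : 0 ≤ x) :
    Zm x (Pt D a b) * Zm x (Pt D b c) ≤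
      Zm x (Pt D a c) * (Zm x (Wk D b) * Zm x (Wk D b)) := by
  classical
  have key : ∀ q : (Pt D a b) × (Pt D b c), ∃ r : (Pt D a c) × ((Wk D b) × (Wk D b)),
      ∃ A p B C E, q.1.1 = A ++ p :: B ∧ q.2.1 = C ++ p :: E ∧ (∀ v ∈ A, v ∉ q.2.1) ∧
        r.1.1 = A ++ p :: E ∧ r.2.1.1 = (p :: B).reverse ∧ r.2.2.1 = C ++ [p] := by
    rintro ⟨⟨γ1, h1⟩, ⟨γ2, h2⟩⟩
    have hb : ∃ v ∈ γ1, v ∈ γ2 := by
      refine ⟨b, ?_, ?_⟩
      · exact List.mem_of_getLast? h1.2.1
      · exact List.mem_of_head? h2.1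
    obtain ⟨A, p, B, e1, hA, hp⟩ := first_mem hb
    obtain ⟨C, E, e2⟩ := List.append_of_mem hp
    have g1 := h1
    have g2 := h2
    rw [e1] at g1
    rw [e2] at g2
    obtain ⟨a1, a2, a3, a4, a5⟩ := g1
    obtain ⟨b1, b2, b3, b4, b5⟩ := g2
    rw [List.isChain_append] at a3 b3
    rw [List.nodup_append] at a4 b4
    have hη : A ++ p :: E ∈ Pt D a c := by
      refine ⟨?_, ?_, ?_, ?_, ?_⟩
      · rw [List.head?_append] at a1 ⊢
        exact a1
      · rw [List.getLast?_append] at b2 ⊢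
        cases h : (p :: E).getLast? with
        | none => simp at h
        | some z =>
          rw [h] at b2
          exact b2
      · rw [List.isChain_append]
        exact ⟨a3.1, b3.2.1, fun x hx y hy => a3.2.2 x hx y hy⟩
      · rw [List.nodup_append]
        refine ⟨a4.1, b4.2.1, ?_⟩
        intro x hx y hy e
        subst e
        apply hA x hx
        rw [e2]
        exact List.mem_append_right _ hy
      · intro v hv
        rw [List.mem_append] at hv
        rcases hv with hv | hv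
        · exact a5 v (List.mem_append_left _ hv)
        · exact b5 v (List.mem_append_right _ hv)
    have hρ1 : (p :: B).reverse ∈ Wk D b := by
      refine ⟨?_, ?_, List.nodup_reverse.2 a4.2.1, ?_⟩
      · rw [List.head?_reverse]
        rw [List.getLast?_append] at a2
        cases h : (p :: B).getLast? with
        | none => simp at h
        | some z =>
          rw [h] at a2
          exact a2
      · rw [List.isChain_reverse]
        exact a3.2.1.imp fun {p q} hpq => nbr_symm hpq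
      · intro v hv
        exact a5 v (List.mem_append_right _ (List.mem_reverse.1 hv))
    have hρ2 : C ++ [p] ∈ Wk D b := by
      refine ⟨?_, ?_, ?_, ?_⟩
      · rw [List.head?_append] at b1 ⊢
        exact b1
      · rw [List.isChain_append]
        exact ⟨b3.1, List.isChain_singleton _, fun x hx y hy => b3.2.2 x hx y hy⟩
      · rw [List.nodup_append]
        refine ⟨b4.1, List.nodup_singleton _, ?_⟩
        intro x hx y hy e
        rw [List.mem_singleton] at hy
        exact b4.2.2 x hx y (by rw [hy]; exact List.mem_cons_self) e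
      · intro v hv
        rw [List.mem_append, List.mem_singleton] at hv
        rcases hv with hv | hv
        · exact b5 v (List.mem_append_left _ hv)
        · exact b5 v (List.mem_append_right _ (by rw [hv]; exact List.mem_cons_self))
    exact ⟨(⟨_, hη⟩, (⟨_, hρ1⟩, ⟨_, hρ2⟩)), A, p, B, C, E, e1, e2, hA, rfl, rfl, rfl⟩
  choose f hf using key
  have hinj : Function.Injective f := by
    intro q q' e
    obtain ⟨A, p, B, C, E, e1, e2, hA, e3, e4, e5⟩ := hf q
    obtain ⟨A', p', B', C', E', e1', e2', hA', e3', e4', e5'⟩ := hf q'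
    rw [e, e4'] at e4
    rw [e, e5'] at e5
    rw [e, e3'] at e3
    have e6 := List.reverse_injective e4
    rw [List.cons.injEq] at e6
    obtain ⟨e6, e7⟩ := e6
    subst e6 e7
    have e8 : C' = C := List.append_cancel_right e5
    subst e8
    have hn : p' ∉ A := by
      intro hp
      apply hA p' hp
      rw [e2]
      simp
    have hn' : p' ∉ A' := by
      intro hp
      apply hA' p' hp
      rw [e2']
      simp
    have e9 : A' = A ∧ E' = E := by
      have h1 : ∀ (A E : List (ℤ × ℤ)), p' ∉ A → (A ++ p' :: E).takeWhile (fun v => decide (v ≠ p')) = A := by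
        intro A E h
        rw [List.takeWhile_append_of_pos (fun v hv => by
          rw [decide_eq_true_iff]
          intro e
          rw [e] at hv
          exact h hv), List.takeWhile_cons_of_neg (by simp), List.append_nil]
      have h2 := h1 A E hn
      rw [← e3, h1 A' E' hn'] at h2
      subst h2
      have h3 := List.append_cancel_left e3
      rw [List.cons.injEq] at h3
      exact ⟨rfl, h3.2⟩
    obtain ⟨rfl, rfl⟩ := e9
    apply Prod.ext
    · apply Subtype.ext
      rw [e1, e1']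
    · apply Subtype.ext
      rw [e2, e2']
  unfold Zm
  have hL : (∑' l : Pt D a b, ENNReal.ofReal (x ^ (l.1.length - 1))) *
      (∑' l : Pt D b c, ENNReal.ofReal (x ^ (l.1.length - 1))) =
      ∑' q : (Pt D a b) × (Pt D b c), ENNReal.ofReal (x ^ (q.1.1.length - 1)) *
        ENNReal.ofReal (x ^ (q.2.1.length - 1)) := by
    rw [ENNReal.tsum_prod (f := fun (l : Pt D a b) (m : Pt D b c) => ENNReal.ofReal (x ^ (l.1.length - 1)) *
        ENNReal.ofReal (x ^ (m.1.length - 1))), ← ENNReal.tsum_mul_right]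
    refine tsum_congr fun l => ?_
    rw [ENNReal.tsum_mul_left]
  have hR : (∑' l : Pt D a c, ENNReal.ofReal (x ^ (l.1.length - 1))) *
      ((∑' l : Wk D b, ENNReal.ofReal (x ^ (l.1.length - 1))) *
      (∑' l : Wk D b, ENNReal.ofReal (x ^ (l.1.length - 1)))) =
      ∑' r : (Pt D a c) × ((Wk D b) × (Wk D b)), ENNReal.ofReal (x ^ (r.1.1.length - 1)) *
        (ENNReal.ofReal (x ^ (r.2.1.1.length - 1)) * ENNReal.ofReal (x ^ (r.2.2.1.length - 1))) := by
    rw [ENNReal.tsum_prod (f := fun (l : Pt D a c) (m : (Wk D b) × (Wk D b)) =>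
      ENNReal.ofReal (x ^ (l.1.length - 1)) *
        (ENNReal.ofReal (x ^ (m.1.1.length - 1)) * ENNReal.ofReal (x ^ (m.2.1.length - 1)))),
      ← ENNReal.tsum_mul_right]
    refine tsum_congr fun l => ?_
    rw [ENNReal.tsum_mul_left]
    congr 1
    rw [ENNReal.tsum_prod (f := fun (m : Wk D b) (m' : Wk D b) => ENNReal.ofReal (x ^ (m.1.length - 1)) *
        ENNReal.ofReal (x ^ (m'.1.length - 1))), ← ENNReal.tsum_mul_right]
    refine tsum_congr fun l => ?_
    rw [ENNReal.tsum_mul_left]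
  rw [hL, hR]
  refine le_trans (le_of_eq (tsum_congr fun q => ?_)) (ENNReal.tsum_comp_le_tsum_of_injective hinj _)
  obtain ⟨A, p, B, C, E, e1, e2, hA, e3, e4, e5⟩ := hf q
  rw [e1, e2, e3, e4, e5]
  rw [← ENNReal.ofReal_mul (by positivity), ← ENNReal.ofReal_mul (by positivity),
    ← ENNReal.ofReal_mul (by positivity), ← pow_add, ← pow_add, ← pow_add]
  congr 2
  simp only [List.length_append, List.length_cons, List.length_reverse, List.length_nil]
  omega

theorem glue : ∃ K : ℝ, 0 ≤ K ∧ ∀ (D : Finset (ℤ × ℤ)) (a b c : ℤ × ℤ),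
    Zm mu0⁻¹ (Pt (D : Set (ℤ × ℤ)) a b) * Zm mu0⁻¹ (Pt (D : Set (ℤ × ℤ)) b c) ≤
      ENNReal.ofReal (Real.exp (K * Real.log (D.card + 2) ^ 2)) *
        Zm mu0⁻¹ (Pt (D : Set (ℤ × ℤ)) a c) := by
  obtain ⟨K, hK, h⟩ := walk_upper
  refine ⟨2 * K, by positivity, fun D a b c => ?_⟩
  refine (glue0 (D : Set (ℤ × ℤ)) a b c mu0⁻¹ (inv_nonneg.2 mu0_pos.le)).trans ?_
  have h1 := h D b
  calc Zm mu0⁻¹ (Pt (D : Set (ℤ × ℤ)) a c) * (Zm mu0⁻¹ (Wk (D : Set (ℤ × ℤ)) b) *
        Zm mu0⁻¹ (Wk (D : Set (ℤ × ℤ)) b))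
      ≤ Zm mu0⁻¹ (Pt (D : Set (ℤ × ℤ)) a c) * (ENNReal.ofReal (Real.exp (K * Real.log (D.card + 2) ^ 2)) *
        ENNReal.ofReal (Real.exp (K * Real.log (D.card + 2) ^ 2))) := by gcongr
    _ = _ := by
      rw [← ENNReal.ofReal_mul (Real.exp_pos _).le, ← Real.exp_add, mul_comm]
      congr 3
      ring

end Pool.Agent.U508.NC
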