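import Pool.Agent.U508.NC.Glue

set_option autoImplicit false

/-! Critical paths between two points of a box. -/

namespace Pool.Agent.U508.NC

open Pool.Agent.U508.ST Pool.Agent.W818.TD H978R2.Hex
open scoped ENNReal

theorem tile_base {N : ℕ} (hN : 2 ≤ N) {h : ℕ} (hh : h ≤ N) :
    ENNReal.ofReal (Real.exp (-(92 * Real.log N ^ 2))) ≤
      Zm mu0⁻¹ (Pt (tube (1024 * N + 3) h) (0, 0) ((3 * h + 1 : ℤ), -(h : ℤ))) := by
  have hN2 : (2 : ℝ) ≤ N := by exact_mod_cast hN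
  have hN0 : (0 : ℝ) < N := by linarith
  have hl2 := Real.log_two_gt_d9
  have hl2' : Real.log 2 ≤ Real.log N := Real.log_le_log (by norm_num) hN2
  have hlN : 0.69 ≤ Real.log N := by linarith
  have hlN0 : 0 < Real.log N := by linarith
  have hlNN : Real.log N ≤ N := (Real.log_le_sub_one_of_pos hN0).trans (by linarith)
  set T : ℕ := ⌈(N : ℝ) / Real.log N⌉₊ with hT
  have hT1 : (N : ℝ) / Real.log N ≤ T := Nat.le_ceil _
  have hT2 : (T : ℝ) < N / Real.log N + 1 := Nat.ceil_lt_add_one (by positivity)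
  have hNl : (N : ℝ) / Real.log N ≤ N / 0.69 := by gcongr
  have hT2N : (T : ℝ) ≤ 2 * N := by
    have : (N : ℝ) / 0.69 ≤ 1.5 * N := by
      rw [div_le_iff₀ (by norm_num)]
      linarith
    linarith
  have hTpos : (0 : ℝ) < T := lt_of_lt_of_le (by positivity) hT1
  have hT0 : 1 ≤ T := by
    have : 0 < T := by exact_mod_cast hTpos
    omega
  have hT1' : (1 : ℝ) ≤ T := by exact_mod_cast hT0
  have hlogT : Real.log T ≤ 2 * Real.log N := by
    have h1 := Real.log_le_log hTpos hT2N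
    rw [Real.log_mul (by norm_num) hN0.ne'] at h1
    linarith
  have hlogT0 : 0 ≤ Real.log T := Real.log_nonneg hT1'
  have hW : 256 * Real.log T * T + 3 ≤ ((1024 * N + 3 : ℤ) : ℝ) := by
    push_cast
    have h1 : 256 * Real.log T * T ≤ 256 * (2 * Real.log N) * (N / Real.log N + 1) := by gcongr
    have h2 : 256 * (2 * Real.log N) * (N / Real.log N + 1) = 512 * N + 512 * Real.log N := by
      field_simp
      ring
    linarith
  have hW0 : (0 : ℤ) ≤ 1024 * N + 3 := by positivity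
  set q : ℝ := (1 / (16 * (T : ℝ))) ^ (h / T + 1) with hq
  have hEE : ENNReal.ofReal q ≤ Zm mu0⁻¹ (EE (1024 * N + 3) (2 * h)) := by
    rw [hq, ENNReal.ofReal_pow (by positivity)]
    exact EE_mass hT0 hW hW0 h
  have hxc := xc_half (ε := 0) le_rfl
  rw [Real.exp_zero, mul_one] at hxc
  have hm := tile_mass (x := mu0⁻¹) (by linarith) hW0 h
  have hW1 : (0 : ℝ) < 2 * ((1024 * N + 3 : ℤ) : ℝ) + 1 := by
    push_cast
    positivity
  have hq0 : 0 < q := by positivity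
  have h1 : ENNReal.ofReal (mu0⁻¹ * (q * q)) ≤
      ENNReal.ofReal ((2 * ((1024 * N + 3 : ℤ) : ℝ) + 1) ^ 2) *
        Zm mu0⁻¹ (Pt (tube (1024 * N + 3) h) (0, 0) ((3 * h + 1 : ℤ), -(h : ℤ))) := by
    refine le_trans ?_ hm
    rw [ENNReal.ofReal_mul (by linarith), ENNReal.ofReal_mul hq0.le]
    gcongr
  have h2 : ENNReal.ofReal (mu0⁻¹ * (q * q) / (2 * ((1024 * N + 3 : ℤ) : ℝ) + 1) ^ 2) ≤
      Zm mu0⁻¹ (Pt (tube (1024 * N + 3) h) (0, 0) ((3 * h + 1 : ℤ), -(h : ℤ))) := by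
    rw [ENNReal.ofReal_div_of_pos (by positivity)]
    exact ENNReal.div_le_of_le_mul' h1
  refine le_trans (ENNReal.ofReal_le_ofReal ?_) h2
  -- the numbers
  have b1 : Real.exp (-(4 * Real.log N ^ 2)) ≤ mu0⁻¹ := by
    have c1 : Real.exp (-(4 * Real.log N ^ 2)) ≤ Real.exp (-1) := by
      apply Real.exp_le_exp.2
      nlinarith
    have c2 := exp_half 1
    simp only [Nat.cast_one, pow_one] at c2
    linarith
  have b2 : Real.exp (-(18 * Real.log N ^ 2)) ≤ q := by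
    have c1 : (1 / (16 * (T : ℝ))) = Real.exp (-Real.log (16 * T)) := by
      rw [Real.exp_neg, Real.exp_log (by positivity), one_div]
    rw [hq, c1, ← Real.exp_nat_mul]
    apply Real.exp_le_exp.2
    push_cast
    have c2 : Real.log (16 * T) ≤ 6 * Real.log N := by
      have d1 : Real.log (16 * T) ≤ Real.log (2 ^ 5 * N) := by
        apply Real.log_le_log (by positivity)
        linarith
      rw [Real.log_mul (by norm_num) hN0.ne', Real.log_pow] at d1
      push_cast at d1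
      linarith
    have c3 : ((h / T : ℕ) : ℝ) ≤ Real.log N := by
      have d1 : ((h / T : ℕ) : ℝ) ≤ h / T := Nat.cast_div_le
      have d2 : (h : ℝ) / T ≤ N / T := by
        have : (h : ℝ) ≤ N := by exact_mod_cast hh
        gcongr
      have d3 : (N : ℝ) / T ≤ Real.log N := by
        rw [div_le_iff₀ hTpos]
        rw [div_le_iff₀ hlN0] at hT1
        linarith
      linarith
    have c4 : (((h / T : ℕ) : ℝ) + 1) ≤ 3 * Real.log N := by linarith
    have c5 : 0 ≤ Real.log (16 * T) := Real.log_nonneg (by linarith)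
    have c6 : (((h / T : ℕ) : ℝ) + 1) * Real.log (16 * T) ≤ (3 * Real.log N) * (6 * Real.log N) := by
      gcongr
    linarith
  have b3 : (2 * ((1024 * N + 3 : ℤ) : ℝ) + 1) ^ 2 ≤ Real.exp (52 * Real.log N ^ 2) := by
    have c1 : 2 * ((1024 * N + 3 : ℤ) : ℝ) + 1 ≤ Real.exp (26 * Real.log N ^ 2) := by
      have d1 : 2 * ((1024 * N + 3 : ℤ) : ℝ) + 1 ≤ 2 ^ 12 * N := by
        push_cast
        linarith
      have d2 : (2 : ℝ) ^ 12 * N = Real.exp (12 * Real.log 2 + Real.log N) := by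
        rw [Real.exp_add, Real.exp_log hN0]
        congr 1
        have : 12 * Real.log (2 : ℝ) = Real.log (2 ^ 12) := by rw [Real.log_pow]; norm_num
        rw [this, Real.exp_log (by positivity)]
      rw [d2] at d1
      refine d1.trans (Real.exp_le_exp.2 ?_)
      nlinarith
    calc (2 * ((1024 * N + 3 : ℤ) : ℝ) + 1) ^ 2 ≤ Real.exp (26 * Real.log N ^ 2) ^ 2 := by gcongr
      _ = Real.exp (52 * Real.log N ^ 2) := by
        rw [← Real.exp_nat_mul]
        congr 1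
        push_cast
        ring
  rw [le_div_iff₀ (by positivity)]
  calc Real.exp (-(92 * Real.log N ^ 2)) * (2 * ((1024 * N + 3 : ℤ) : ℝ) + 1) ^ 2
      ≤ Real.exp (-(92 * Real.log N ^ 2)) * Real.exp (52 * Real.log N ^ 2) := by gcongr
    _ = Real.exp (-(4 * Real.log N ^ 2)) *
        (Real.exp (-(18 * Real.log N ^ 2)) * Real.exp (-(18 * Real.log N ^ 2))) := by
        rw [← Real.exp_add, ← Real.exp_add, ← Real.exp_add]
        congr 1
        ring
    _ ≤ mu0⁻¹ * (q * q) := by gcongr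

/-- transport of paths -/
theorem Zm_map {x : ℝ} {S D : Set (ℤ × ℤ)} {a b : ℤ × ℤ} (f : ℤ × ℤ → ℤ × ℤ)
    (hf : Function.Injective f) (hn : ∀ p q, Nbr p q → Nbr (f p) (f q)) (hD : ∀ p ∈ S, f p ∈ D) :
    Zm x (Pt S a b) ≤ Zm x (Pt D (f a) (f b)) := by
  have h := Zm_inj (x := x) (S := Pt S a b) (S' := Pt D (f a) (f b)) (fun l => l.map f) 1
    (fun l hl => Pt_map hf hn hD hl) (fun l _ l' _ e => List.map_injective_iff.2 hf e)
    (fun l _ => by rw [one_mul, List.length_map])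
  rwa [one_mul] at h

/-- the relation -/
def Rl (κ : ℝ) (D : Set (ℤ × ℤ)) (p q : ℤ × ℤ) : Prop :=
  ENNReal.ofReal (Real.exp (-κ)) ≤ Zm mu0⁻¹ (Pt D p q)

theorem Rl.weak {κ κ' : ℝ} {D : Set (ℤ × ℤ)} {p q : ℤ × ℤ} (h : Rl κ D p q) (hκ : κ ≤ κ') :
    Rl κ' D p q :=
  (ENNReal.ofReal_le_ofReal (Real.exp_le_exp.2 (neg_le_neg hκ))).trans h

theorem Rl.symm {κ : ℝ} {D : Set (ℤ × ℤ)} {p q : ℤ × ℤ} (h : Rl κ D p q) : Rl κ D q p := by
  refine h.trans ?_
  have h := Zm_inj (x := mu0⁻¹) (S := Pt D p q) (S' := Pt D q p) (fun l => l.reverse) 1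
    (fun l hl => rev_Pt hl) (fun l _ l' _ e => List.reverse_injective e)
    (fun l _ => by rw [one_mul, List.length_reverse])
  rwa [one_mul] at h

theorem Rl.mono {κ : ℝ} {D D' : Set (ℤ × ℤ)} (hD : D ⊆ D') {p q : ℤ × ℤ} (h : Rl κ D p q) :
    Rl κ D' p q :=
  h.trans (ENNReal.tsum_mono_subtype (fun l : List (ℤ × ℤ) => ENNReal.ofReal (mu0⁻¹ ^ (l.length - 1)))
    (Pt_mono hD))

theorem Rl_refl {D : Set (ℤ × ℤ)} {p : ℤ × ℤ} (hp : p ∈ D) : Rl 0 D p p := by
  unfold Rl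
  have h1 : [p] ∈ Pt D p p := ⟨rfl, rfl, List.isChain_singleton _, List.nodup_singleton _, by simpa⟩
  have h2 : ENNReal.ofReal (mu0⁻¹ ^ ([p].length - 1)) ≤ Zm mu0⁻¹ (Pt D p p) :=
    ENNReal.le_tsum (f := fun l : Pt D p p => ENNReal.ofReal (mu0⁻¹ ^ (l.1.length - 1))) ⟨[p], h1⟩
  refine le_trans (le_of_eq ?_) h2
  simp

theorem Rl_adj {D : Set (ℤ × ℤ)} {p q : ℤ × ℤ} (hp : p ∈ D) (hq : q ∈ D) (h : Nbr p q) :
    Rl 1 D p q := by
  unfold Rl
  have hne : p ≠ q := by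
    intro e
    subst e
    rw [nbr_iff] at h
    omega
  have h1 : [p, q] ∈ Pt D p q := ⟨rfl, rfl, by simpa using h, by simpa using hne, by simp [hp, hq]⟩
  have h2 : ENNReal.ofReal (mu0⁻¹ ^ ([p, q].length - 1)) ≤ Zm mu0⁻¹ (Pt D p q) :=
    ENNReal.le_tsum (f := fun l : Pt D p q => ENNReal.ofReal (mu0⁻¹ ^ (l.1.length - 1))) ⟨[p, q], h1⟩
  refine le_trans (ENNReal.ofReal_le_ofReal ?_) h2
  have c2 := exp_half 1
  have hxc := xc_half (ε := 0) le_rfl
  rw [Real.exp_zero, mul_one] at hxc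
  simp only [Nat.cast_one, pow_one, List.length_cons, List.length_nil] at c2 ⊢
  norm_num
  linarith

/-- the constant of the gluing -/
theorem exists_glue : ∃ G : ℝ, 1 ≤ G ∧ ∀ (D : Finset (ℤ × ℤ)) (a b c : ℤ × ℤ) (κ κ' : ℝ),
    Rl κ (D : Set (ℤ × ℤ)) a b → Rl κ' (D : Set (ℤ × ℤ)) b c →
      Rl (κ + κ' + G * Real.log (D.card + 2) ^ 2) (D : Set (ℤ × ℤ)) a c := by
  obtain ⟨K, hK, h⟩ := glue
  refine ⟨K + 1, by linarith, fun D a b c κ κ' h1 h2 => ?_⟩
  have h3 := (mul_le_mul' h1 h2).trans (h D a b c)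
  have h4 : ENNReal.ofReal (Real.exp (-(κ + κ' + K * Real.log (D.card + 2) ^ 2))) ≤
      Zm mu0⁻¹ (Pt (D : Set (ℤ × ℤ)) a c) := by
    rw [← ENNReal.ofReal_mul (Real.exp_pos _).le, ← Real.exp_add] at h3
    have h5 : Real.exp (-(κ + κ' + K * Real.log (D.card + 2) ^ 2)) =
        Real.exp (-κ + -κ') / Real.exp (K * Real.log (D.card + 2) ^ 2) := by
      rw [← Real.exp_sub]
      congr 1
      ring
    rw [h5, ENNReal.ofReal_div_of_pos (Real.exp_pos _)]
    exact ENNReal.div_le_of_le_mul' h3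
  refine Rl.weak h4 ?_
  nlinarith [sq_nonneg (Real.log ((D.card : ℝ) + 2))]

end Pool.Agent.U508.NC
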