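import Pool.Agent.U508.NC.Boust

set_option autoImplicit false

/-! Lower bound of the partition function. -/

namespace Pool.Agent.U508.NC

open Pool.Agent.U508.ST Pool.Agent.W818.TD H978R2.Hex
open scoped ENNReal

theorem log_two_half : (1 : ℝ) / 2 ≤ Real.log 2 := by
  have := Real.log_two_gt_d9
  linarith

theorem params {η : ℝ} (h0 : 0 < η) (h1 : η ≤ 1) : ∃ (T : ℕ) (W : ℤ), 1 ≤ T ∧
    256 * Real.log T * T + 3 ≤ W ∧ 0 ≤ W ∧ Real.log (16 * T) ≤ η * T ∧ (T : ℝ) ≤ W ∧
    2 * (W : ℝ) + 6 ≤ 100000 * Real.log (2 / η) ^ 2 / η := by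
  set Λ := Real.log (2 / η) with hΛ
  have hl2 := log_two_half
  have hl2' : Real.log 2 ≤ 1 := by linarith [Real.log_two_lt_d9]
  have e1 : Λ = Real.log 2 + Real.log (1 / η) := by
    rw [hΛ, ← Real.log_mul (by norm_num) (by positivity)]
    congr 1
    ring
  have hη1 : 0 ≤ Real.log (1 / η) := Real.log_nonneg (by rw [le_div_iff₀ h0]; linarith)
  have hΛ1 : 1 / 2 ≤ Λ := by linarith
  have hΛη : Real.log (1 / η) ≤ Λ := by linarith
  set T : ℕ := ⌈10 * Λ / η⌉₊ with hT
  have hT1 : 10 * Λ / η ≤ T := Nat.le_ceil _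
  have hT2 : (T : ℝ) < 10 * Λ / η + 1 := Nat.ceil_lt_add_one (by positivity)
  have hΛη' : 1 / 2 ≤ Λ / η := by
    rw [le_div_iff₀ h0]
    nlinarith
  have hT5 : (5 : ℝ) ≤ T := by
    have : 10 * Λ / η = 10 * (Λ / η) := by ring
    rw [this] at hT1
    linarith
  have hT12 : (T : ℝ) ≤ 12 * (Λ / η) := by
    have : 10 * Λ / η = 10 * (Λ / η) := by ring
    rw [this] at hT2
    linarith
  have hT0 : (0 : ℝ) < T := by linarith
  have hlog16 : Real.log (16 * T) ≤ η * T := by
    have h2 : Real.log (η * T / 2) ≤ η * T / 2 - 1 := Real.log_le_sub_one_of_pos (by positivity)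
    have h3 : Real.log (16 * T) = Real.log (η * T / 2) + 5 * Real.log 2 + Real.log (1 / η) := by
      have : (16 : ℝ) * T = (η * T / 2) * (2 ^ 5) * (1 / η) := by
        field_simp
        norm_num
      rw [this, Real.log_mul (by positivity) (by positivity), Real.log_mul (by positivity) (by positivity),
        Real.log_pow]
      norm_num
    have h4 : 10 * Λ ≤ η * T := by
      have := (div_le_iff₀ h0).1 hT1
      linarith
    rw [h3]
    linarith
  have hlogT : Real.log T ≤ 12 * Λ := by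
    have h2 : Real.log T ≤ Real.log (16 * T) := Real.log_le_log hT0 (by linarith)
    have h3 : η * T ≤ 12 * Λ := by
      calc η * T ≤ η * (12 * (Λ / η)) := by gcongr
        _ = 12 * Λ := by field_simp
    linarith
  have hlogT0 : 1 ≤ Real.log T := by
    rw [Real.le_log_iff_exp_le hT0]
    have := Real.exp_one_lt_d9
    linarith
  refine ⟨T, ⌈256 * Real.log T * T⌉ + 3, ?_, ?_, ?_, hlog16, ?_, ?_⟩
  · have : (1 : ℝ) ≤ T := by linarith
    exact_mod_cast this
  · push_cast
    linarith [Int.le_ceil (256 * Real.log T * T)]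
  · have : 0 ≤ ⌈256 * Real.log T * T⌉ := Int.ceil_nonneg (by positivity)
    omega
  · push_cast
    have h2 := Int.le_ceil (256 * Real.log T * T)
    have h3 : 1 * (T : ℝ) ≤ 256 * Real.log T * T := by
      gcongr
      linarith
    linarith
  · push_cast
    have h2 := Int.ceil_lt_add_one (256 * Real.log T * T)
    have h3 : 256 * Real.log T * T ≤ 256 * (12 * Λ) * (12 * (Λ / η)) := by gcongr
    have h4 : 100000 * Λ ^ 2 / η = 100000 * (Λ * (Λ / η)) := by ring
    have h5 : 256 * (12 * Λ) * (12 * (Λ / η)) = 36864 * (Λ * (Λ / η)) := by ring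
    have h6 : 1 / 4 ≤ Λ * (Λ / η) := by nlinarith
    rw [h4]
    linarith

/-- the density -/
noncomputable def dens (ε : ℝ) : ℝ := min ε 1 / (1000000 * Real.log (2 / min ε 1) ^ 2)

theorem exp_half (n : ℕ) : Real.exp (-(n : ℝ)) ≤ (1 / 2) ^ n := by
  have h1 : Real.exp (-1) ≤ 1 / 2 := by
    rw [Real.exp_neg, one_div]
    apply inv_anti₀ (by norm_num)
    have := Real.exp_one_gt_d9
    linarith
  have e : Real.exp (-(n : ℝ)) = Real.exp (-1) ^ n := by
    rw [← Real.exp_nat_mul]
    ring_nf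
  rw [e]
  exact pow_le_pow_left₀ (Real.exp_pos _).le h1 n

theorem xc_half {ε : ℝ} (hε : 0 ≤ ε) : (1 : ℝ) / 2 ≤ mu0⁻¹ * Real.exp ε := by
  have h1 : (1 : ℝ) / 2 ≤ mu0⁻¹ := by
    rw [one_div]
    apply inv_anti₀ mu0_pos
    have h2 : mu0 ^ 2 ≤ 4 := by
      unfold mu0
      rw [Real.sq_sqrt (by positivity)]
      have : Real.sqrt 2 ≤ 2 := by
        rw [Real.sqrt_le_left (by norm_num)]
        norm_num
      linarith
    nlinarith [mu0_pos]
  have h3 : 1 ≤ Real.exp ε := Real.one_le_exp hε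
  calc (1 : ℝ) / 2 = 1 / 2 * 1 := by ring
    _ ≤ _ := by gcongr

theorem lower_even {ε : ℝ} (hε : 0 < ε) {D : Set (ℤ × ℤ)} {a b : ℤ × ℤ} {u v : ℤ}
    (hpar : (u + v) % 2 = 0) {A H : ℕ}
    {P Q : List (ℤ × ℤ)} (hP : P ++ row u v A ++ Q ∈ Pt D a b)
    (hR : ∀ i j : ℕ, i < A → j < H → (u + (i : ℤ), v + (j : ℤ)) ∈ D ∧ (u + (i : ℤ), v + (j : ℤ)) ∉ P ∧
      (u + (i : ℤ), v + (j : ℤ)) ∉ Q) :
    ENNReal.ofReal (Real.exp (2 * ε * dens ε * A * H -
      6 * (1 + ε) * (P.length + Q.length + A + H))) ≤ Zm (mu0⁻¹ * Real.exp ε) (Pt D a b) := by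
  set η := min ε 1 with hη
  have hη0 : 0 < η := lt_min hε one_pos
  have hη1 : η ≤ 1 := min_le_right _ _
  have hηε : η ≤ ε := min_le_left _ _
  obtain ⟨T, W, hT, hW, hW0, hlog, hTW, hL⟩ := params hη0 hη1
  set x := mu0⁻¹ * Real.exp ε with hx
  have hx2 : 1 / 2 ≤ x := xc_half hε.le
  have hx0 : 0 < x := by linarith
  have hP0 : (0 : ℝ) ≤ P.length := Nat.cast_nonneg _
  have hQ0 : (0 : ℝ) ≤ Q.length := Nat.cast_nonneg _
  have hA0 : (0 : ℝ) ≤ A := Nat.cast_nonneg _
  have hH0 : (0 : ℝ) ≤ H := Nat.cast_nonneg _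
  have hΛ : 1 / 2 ≤ Real.log (2 / η) := by
    have h2 := log_two_half
    have h3 : Real.log 2 ≤ Real.log (2 / η) := by
      apply Real.log_le_log (by norm_num)
      rw [le_div_iff₀ hη0]
      linarith
    linarith
  -- the width
  set h : ℕ := H - 2 with hh
  obtain ⟨L, hLW, hLp, hL6⟩ : ∃ L : ℕ, 2 * W + 5 ≤ L ∧ (L + h) % 2 = 0 ∧ (L : ℤ) ≤ 2 * W + 6 := by
    rcases Nat.mod_two_eq_zero_or_one ((2 * W + 5).toNat + h) with h1 | h1
    · exact ⟨(2 * W + 5).toNat, by omega, h1, by omega⟩
    · exact ⟨(2 * W + 5).toNat + 1, by omega, by omega, by omega⟩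
  have hL1 : 1 ≤ L := by omega
  have hLr : (L : ℝ) ≤ 100000 * Real.log (2 / η) ^ 2 / η := by
    have : (L : ℝ) ≤ 2 * W + 6 := by exact_mod_cast hL6
    linarith
  have hL5 : (5 : ℝ) ≤ L := by
    have : 5 ≤ L := by omega
    exact_mod_cast this
  have hL0 : (0 : ℝ) < L := by linarith
  have hTL : (T : ℝ) ≤ L := by
    have h1 : 2 * (W : ℝ) + 5 ≤ L := by exact_mod_cast hLW
    have h2 : (0 : ℝ) ≤ W := by exact_mod_cast hW0
    linarith
  have hd : dens ε * (10 * L) ≤ 1 := by
    unfold dens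
    rw [← hη, div_mul_eq_mul_div, div_le_one (by positivity)]
    have h1 := (le_div_iff₀ hη0).1 hLr
    linarith
  have hd0 : 0 ≤ dens ε := by
    unfold dens
    rw [← hη]
    positivity
  have hd1 : dens ε * L ≤ 1 / 10 := by linarith
  have hd2 : dens ε ≤ 1 / 10 := by nlinarith
  have hε0 := hε.le
  rcases lt_or_ge A (2 * L) with hA | hA
  · -- few columns
    refine le_trans (ENNReal.ofReal_le_ofReal ?_) (triv hP (n := P.length + Q.length + A) (by
      rw [List.length_append, List.length_append, row_len]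
      omega) hx2)
    refine le_trans ?_ (exp_half _)
    apply Real.exp_le_exp.2
    push_cast
    have hA' : (A : ℝ) ≤ 2 * L := by exact_mod_cast hA.le
    have h1 : dens ε * A ≤ 1 / 5 := by
      calc dens ε * A ≤ dens ε * (2 * L) := by gcongr
        _ ≤ _ := by linarith
    have h2 : 2 * ε * dens ε * A * H ≤ ε * H := by
      calc 2 * ε * dens ε * A * H = 2 * (dens ε * A) * (ε * H) := by ring
        _ ≤ 2 * (1 / 5) * (ε * H) := by gcongr
        _ ≤ _ := by nlinarith [mul_nonneg hε0 hH0]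
    have h3 : 0 ≤ ε * (P.length + Q.length + A) := by positivity
    have h4 : 0 ≤ ε * (H : ℝ) := by positivity
    nlinarith
  rcases lt_or_ge H 2 with hH | hH
  · refine le_trans (ENNReal.ofReal_le_ofReal ?_) (triv hP (n := P.length + Q.length + A) (by
      rw [List.length_append, List.length_append, row_len]
      omega) hx2)
    refine le_trans ?_ (exp_half _)
    apply Real.exp_le_exp.2
    push_cast
    have hH' : (H : ℝ) ≤ 1 := by exact_mod_cast (by omega : H ≤ 1)
    have h2 : 2 * ε * dens ε * A * H ≤ ε * A := by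
      calc 2 * ε * dens ε * A * H ≤ 2 * ε * (1 / 10) * A * 1 := by gcongr
        _ ≤ _ := by nlinarith [mul_nonneg hε0 hA0]
    have h3 : 0 ≤ ε * (P.length + Q.length + A) := by positivity
    have h4 : 0 ≤ ε * (H : ℝ) := by positivity
    have h5 : 0 ≤ ε * (P.length : ℝ) := by positivity
    have h6 : 0 ≤ ε * (Q.length : ℝ) := by positivity
    nlinarith
  -- many columns
  set k : ℕ := 2 * (A / (2 * L)) with hk
  have hdiv : 1 ≤ A / (2 * L) := (Nat.one_le_div_iff (by omega)).2 hA
  have hk2 : 2 ≤ k := by omega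
  have hkL : k * L = (2 * L) * (A / (2 * L)) := by rw [hk]; ring
  have hkA : k * L ≤ A := by rw [hkL]; exact Nat.mul_div_le A (2 * L)
  have hkA' : A < k * L + 2 * L := by
    rw [hkL]
    have := Nat.lt_mul_div_succ A (show 0 < 2 * L by omega)
    calc A < 2 * L * (A / (2 * L) + 1) := this
      _ = _ := by ring
  have hkL1 : 1 ≤ k * L := by nlinarith
  have h1 := embed hpar hP hR (L := L) (h := h) (k := k) (by omega) hkL1 hkA (by omega) hx2
  have h2 := BB_mass (L := L) (h := h) hL1 hLp hx0 (k - 1)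
  have ek : k - 1 + 1 = k := by omega
  rw [ek] at h2
  have h3 := HW_lower (h := h) (L := L) hT hW hW0 hLW hε0
  set q : ℝ := (1 / 2) ^ (2 * L) * (Real.exp (2 * h * ε) * (1 / (16 * (T : ℝ))) ^ (h / T + 1)) with hq
  have hTpos : (0 : ℝ) < T := by exact_mod_cast hT
  have hq1 : Real.exp (h * ε - 3 * L) ≤ q := by
    have a1 : Real.exp (-((2 * L : ℕ) : ℝ)) ≤ (1 / 2) ^ (2 * L) := exp_half _
    have a2 : Real.exp (-(h * η + η * T)) ≤ (1 / (16 * (T : ℝ))) ^ (h / T + 1) := by
      have b1 : (1 / (16 * (T : ℝ))) = Real.exp (-Real.log (16 * T)) := by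
        rw [Real.exp_neg, Real.exp_log (by positivity), one_div]
      rw [b1, ← Real.exp_nat_mul]
      apply Real.exp_le_exp.2
      push_cast
      have b2 : ((h / T : ℕ) : ℝ) * T ≤ h := by
        have := Nat.div_mul_le_self h T
        exact_mod_cast this
      have b3 : (((h / T : ℕ) : ℝ) + 1) * Real.log (16 * T) ≤ (((h / T : ℕ) : ℝ) + 1) * (η * T) := by
        gcongr
      have b4 : η * (((h / T : ℕ) : ℝ) * T) ≤ η * h := by gcongr
      linarith
    have a3 : Real.exp (h * ε - 3 * L) ≤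
        Real.exp (-((2 * L : ℕ) : ℝ)) * (Real.exp (2 * h * ε) * Real.exp (-(h * η + η * T))) := by
      rw [← Real.exp_add, ← Real.exp_add]
      apply Real.exp_le_exp.2
      push_cast
      have b1 : (h : ℝ) * η ≤ h * ε := by gcongr
      have b2 : η * T ≤ 1 * L := by gcongr
      linarith
    refine a3.trans ?_
    rw [hq]
    gcongr
  have hq0 : 0 < q := lt_of_lt_of_le (Real.exp_pos _) hq1
  have h4 : ENNReal.ofReal ((1 / 2) ^ (P.length + A + Q.length) * ((x * q) ^ (k - 1) * q)) ≤
      Zm x (Pt D a b) := by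
    refine le_trans ?_ h1
    rw [ENNReal.ofReal_mul (by positivity)]
    gcongr
    refine le_trans ?_ h2
    rw [ENNReal.ofReal_mul (by positivity), ENNReal.ofReal_pow (by positivity),
      ENNReal.ofReal_mul (by positivity)]
    gcongr
  refine le_trans (ENNReal.ofReal_le_ofReal ?_) h4
  have a1 := exp_half (P.length + A + Q.length)
  have a2 : Real.exp (-1) ≤ x := by
    have := exp_half 1
    simp only [Nat.cast_one, pow_one] at this
    linarith
  have a3 : Real.exp (-((k : ℝ) - 1)) * Real.exp (k * (h * ε - 3 * L)) ≤ (x * q) ^ (k - 1) * q := by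
    have b1 : Real.exp (-((k : ℝ) - 1)) * Real.exp (k * (h * ε - 3 * L)) =
        (Real.exp (-1) * Real.exp (h * ε - 3 * L)) ^ (k - 1) * Real.exp (h * ε - 3 * L) := by
      have b0 : ((k - 1 : ℕ) : ℝ) = k - 1 := by
        rw [Nat.cast_sub (show 1 ≤ k by omega)]
        norm_num
      rw [← Real.exp_add, ← Real.exp_add, ← Real.exp_nat_mul, ← Real.exp_add, b0]
      congr 1
      ring
    rw [b1]
    gcongr
  calc Real.exp (2 * ε * dens ε * A * H - 6 * (1 + ε) * (P.length + Q.length + A + H))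
      ≤ Real.exp (-((P.length + A + Q.length : ℕ) : ℝ)) *
        (Real.exp (-((k : ℝ) - 1)) * Real.exp (k * (h * ε - 3 * L))) := by
        rw [← Real.exp_add, ← Real.exp_add]
        apply Real.exp_le_exp.2
        push_cast
        have hk0 : (2 : ℝ) ≤ k := by exact_mod_cast hk2
        have c1 : (k : ℝ) * L ≤ A := by exact_mod_cast hkA
        have c2 : (A : ℝ) - 2 * L ≤ k * L := by
          have : (A : ℝ) ≤ k * L + 2 * L := by exact_mod_cast hkA'.le
          linarith
        have c3 : (h : ℝ) = H - 2 := by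
          rw [hh, Nat.cast_sub hH]
          norm_num
        have c4 : (k : ℝ) ≤ k * L := by nlinarith
        have hH2 : (0 : ℝ) ≤ (H : ℝ) - 2 := by
          have : (2 : ℝ) ≤ H := by exact_mod_cast hH
          linarith
        -- `k h ≥ A H / L - A - 2 H`
        have c5 : 10 * dens ε * A * H - A - 2 * H ≤ k * h := by
          rw [c3]
          have d1 : (10 * dens ε) * (A - 2 * L) ≤ k := by
            calc (10 * dens ε) * (A - 2 * L) ≤ (10 * dens ε) * (k * L) := by gcongr
              _ = k * (dens ε * (10 * L)) := by ring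
              _ ≤ k * 1 := by gcongr
              _ = k := mul_one _
          have d2 : (10 * dens ε) * (A - 2 * L) * (H - 2) ≤ k * (H - 2) := by gcongr
          have d3 : dens ε * A ≤ 1 / 10 * A := by gcongr
          have d4 : dens ε * L * H ≤ 1 / 10 * H := by gcongr
          have d5 : 0 ≤ dens ε * L := by positivity
          nlinarith
        have c6 : ε * (10 * dens ε * A * H - A - 2 * H) ≤ ε * (k * h) := by gcongr
        have c7 : 0 ≤ ε * dens ε * A * H := by positivity
        have c8 : 0 ≤ ε * (P.length + Q.length : ℝ) := by positivity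
        have c9 : 0 ≤ ε * (A : ℝ) := by positivity
        have c10 : 0 ≤ ε * (H : ℝ) := by positivity
        nlinarith
    _ ≤ _ := by gcongr

theorem lower {ε : ℝ} (hε : 0 < ε) {D : Set (ℤ × ℤ)} {a b : ℤ × ℤ} {u v : ℤ} {A H : ℕ}
    {P Q : List (ℤ × ℤ)} (hP : P ++ row u v A ++ Q ∈ Pt D a b)
    (hR : ∀ i j : ℕ, i < A → j < H → (u + (i : ℤ), v + (j : ℤ)) ∈ D ∧ (u + (i : ℤ), v + (j : ℤ)) ∉ P ∧
      (u + (i : ℤ), v + (j : ℤ)) ∉ Q) :
    ENNReal.ofReal (Real.exp (2 * ε * dens ε * A * H -
      7 * (1 + ε) * (P.length + Q.length + A + H))) ≤ Zm (mu0⁻¹ * Real.exp ε) (Pt D a b) := by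
  have hP0 : (0 : ℝ) ≤ P.length := Nat.cast_nonneg _
  have hQ0 : (0 : ℝ) ≤ Q.length := Nat.cast_nonneg _
  have hA0 : (0 : ℝ) ≤ A := Nat.cast_nonneg _
  have hH0 : (0 : ℝ) ≤ H := Nat.cast_nonneg _
  have hε0 := hε.le
  have hd2 : dens ε ≤ 1 / 2 := by
    unfold dens
    set η := min ε 1 with hη
    have hη0 : 0 < η := lt_min hε one_pos
    have hη1 : η ≤ 1 := min_le_right _ _
    have hΛ : 1 / 2 ≤ Real.log (2 / η) := by
      have h2 := log_two_half
      have h3 : Real.log 2 ≤ Real.log (2 / η) := by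
        apply Real.log_le_log (by norm_num)
        rw [le_div_iff₀ hη0]
        linarith
      linarith
    rw [div_le_iff₀ (by positivity)]
    nlinarith
  rcases Int.emod_two_eq_zero_or_one (u + v) with hpar | hpar
  · refine le_trans (ENNReal.ofReal_le_ofReal ?_) (lower_even hε hpar hP hR)
    apply Real.exp_le_exp.2
    have : 0 ≤ (1 + ε) * (P.length + Q.length + A + H : ℝ) := by positivity
    linarith
  · rcases Nat.eq_zero_or_pos A with hA | hA
    · subst hA
      refine le_trans (ENNReal.ofReal_le_ofReal ?_) (triv hP (n := P.length + Q.length) (by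
        rw [List.length_append, List.length_append, row_len]
        omega) (xc_half hε0))
      refine le_trans ?_ (exp_half _)
      apply Real.exp_le_exp.2
      push_cast
      have h3 : 0 ≤ ε * (P.length + Q.length : ℝ) := by positivity
      have h4 : 0 ≤ ε * (H : ℝ) := by positivity
      nlinarith
    · have e : P ++ row u v A ++ Q = (P ++ [(u, v)]) ++ row (u + 1) v (A - 1) ++ Q := by
        have h1 : row u v A = row u v 1 ++ row (u + 1) v (A - 1) := by
          have := row_append u v 1 (A - 1)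
          rw [← (show 1 + (A - 1) = A by omega)]
          rw [this]
          simp
        have h2 : row u v 1 = [(u, v)] := by simp [row]
        rw [h1, h2]
        simp only [List.append_assoc]
      rw [e] at hP
      have hR' : ∀ i j : ℕ, i < A - 1 → j < H → (u + 1 + (i : ℤ), v + (j : ℤ)) ∈ D ∧
          (u + 1 + (i : ℤ), v + (j : ℤ)) ∉ P ++ [(u, v)] ∧ (u + 1 + (i : ℤ), v + (j : ℤ)) ∉ Q := by
        intro i j hi hj
        have h1 := hR (i + 1) j (by omega) hj
        have e2 : u + ((i + 1 : ℕ) : ℤ) = u + 1 + (i : ℤ) := by push_cast; ring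
        rw [e2] at h1
        refine ⟨h1.1, ?_, h1.2.2⟩
        rw [List.mem_append, not_or]
        refine ⟨h1.2.1, ?_⟩
        rw [List.mem_singleton, Prod.mk.injEq]
        omega
      refine le_trans (ENNReal.ofReal_le_ofReal ?_) (lower_even hε (by omega) hP hR')
      apply Real.exp_le_exp.2
      rw [List.length_append, List.length_singleton, Nat.cast_sub hA]
      push_cast
      have h1 : 2 * ε * dens ε * H ≤ ε * H := by
        calc 2 * ε * dens ε * H ≤ 2 * ε * (1 / 2) * H := by gcongr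
          _ = ε * H := by ring
      have h2 : 0 ≤ (1 + ε) * (P.length + Q.length + A : ℝ) := by positivity
      nlinarith

end Pool.Agent.U508.NC
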