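import Pool.Agent.U508.NC.Har

set_option autoImplicit false

/-! Moves. -/

namespace Pool.Agent.U508.NC

open Pool.Agent.U508.ST Pool.Agent.W818.TD H978R2.Hex
open scoped ENNReal

section tiles

variable {N : ℕ} {h : ℕ} {D : Set (ℤ × ℤ)} {v : ℤ × ℤ}

theorem T1 (hN : 2 ≤ N) (hh : h ≤ N) (hv : (v.1 + v.2) % 2 = 0)
    (hD : ∀ z : ℤ × ℤ, |z.1 - v.1| ≤ 1100 * N → |z.2 - v.2| ≤ 1100 * N → z ∈ D) :
    Rl (92 * Real.log N ^ 2) D v (v.1 + (3 * h + 1), v.2 - h) := by
  have h1 := Zm_map (x := mu0⁻¹) (S := tube (1024 * N + 3) h) (D := D) (a := (0, 0))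
    (b := ((3 * h + 1 : ℤ), -(h : ℤ))) (fun z => (v.1 + z.1, v.2 + z.2)) (by
      intro z w e
      simp only [Prod.mk.injEq, add_right_inj] at e
      exact Prod.ext e.1 e.2) (by
      intro p q hpq
      rw [nbr_iff] at *
      simp only
      omega) (by
      intro p hp
      obtain ⟨h1, h2, h3⟩ := hp
      rw [abs_le] at h3
      apply hD
      · simp only
        rw [abs_le]
        omega
      · simp only
        rw [abs_le]
        omega)
  refine (tile_base hN hh).trans (h1.trans (le_of_eq ?_))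
  simp only [add_zero]
  congr 2

theorem T2 (hN : 2 ≤ N) (hh : h ≤ N) (hv : (v.1 + v.2) % 2 = 0)
    (hD : ∀ z : ℤ × ℤ, |z.1 - v.1| ≤ 1100 * N → |z.2 - v.2| ≤ 1100 * N → z ∈ D) :
    Rl (92 * Real.log N ^ 2) D v (v.1 - (3 * h + 1), v.2 - h) := by
  have h1 := Zm_map (x := mu0⁻¹) (S := tube (1024 * N + 3) h) (D := D) (a := (0, 0))
    (b := ((3 * h + 1 : ℤ), -(h : ℤ))) (fun z => (v.1 - z.1, v.2 + z.2)) (by
      intro z w e
      simp only [Prod.mk.injEq] at e
      apply Prod.ext <;> omega) (by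
      intro p q hpq
      rw [nbr_iff] at *
      simp only
      omega) (by
      intro p hp
      obtain ⟨h1, h2, h3⟩ := hp
      rw [abs_le] at h3
      apply hD
      · simp only
        rw [abs_le]
        omega
      · simp only
        rw [abs_le]
        omega)
  refine (tile_base hN hh).trans (h1.trans (le_of_eq ?_))
  simp only [add_zero, sub_zero]
  congr 2

theorem T1' (hN : 2 ≤ N) (hh : h ≤ N) (hv : (v.1 + v.2) % 2 = 1)
    (hD : ∀ z : ℤ × ℤ, |z.1 - v.1| ≤ 1100 * N → |z.2 - v.2| ≤ 1100 * N → z ∈ D) :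
    Rl (92 * Real.log N ^ 2) D v (v.1 - (3 * h + 1), v.2 + h) := by
  have h1 := Zm_map (x := mu0⁻¹) (S := tube (1024 * N + 3) h) (D := D) (a := (0, 0))
    (b := ((3 * h + 1 : ℤ), -(h : ℤ))) (fun z => (v.1 - z.1, v.2 - z.2)) (by
      intro z w e
      simp only [Prod.mk.injEq] at e
      apply Prod.ext <;> omega) (by
      intro p q hpq
      rw [nbr_iff] at *
      simp only
      omega) (by
      intro p hp
      obtain ⟨h1, h2, h3⟩ := hp
      rw [abs_le] at h3
      apply hD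
      · simp only
        rw [abs_le]
        omega
      · simp only
        rw [abs_le]
        omega)
  refine (tile_base hN hh).trans (h1.trans (le_of_eq ?_))
  simp only [sub_zero, sub_neg_eq_add]

theorem T2' (hN : 2 ≤ N) (hh : h ≤ N) (hv : (v.1 + v.2) % 2 = 1)
    (hD : ∀ z : ℤ × ℤ, |z.1 - v.1| ≤ 1100 * N → |z.2 - v.2| ≤ 1100 * N → z ∈ D) :
    Rl (92 * Real.log N ^ 2) D v (v.1 + (3 * h + 1), v.2 + h) := by
  have h1 := Zm_map (x := mu0⁻¹) (S := tube (1024 * N + 3) h) (D := D) (a := (0, 0))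
    (b := ((3 * h + 1 : ℤ), -(h : ℤ))) (fun z => (v.1 + z.1, v.2 - z.2)) (by
      intro z w e
      simp only [Prod.mk.injEq] at e
      apply Prod.ext <;> omega) (by
      intro p q hpq
      rw [nbr_iff] at *
      simp only
      omega) (by
      intro p hp
      obtain ⟨h1, h2, h3⟩ := hp
      rw [abs_le] at h3
      apply hD
      · simp only
        rw [abs_le]
        omega
      · simp only
        rw [abs_le]
        omega)
  refine (tile_base hN hh).trans (h1.trans (le_of_eq ?_))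
  simp only [sub_zero, add_zero, sub_neg_eq_add]

theorem VV (hN : 2 ≤ N) (hh : h ≤ N) (hv : (v.1 + v.2) % 2 = 0)
    (hD : ∀ z : ℤ × ℤ, |z.1 - v.1| ≤ 1100 * N → 0 ≤ z.2 - v.2 → z.2 - v.2 ≤ 2 * h + 1 → z ∈ D) :
    Rl (92 * Real.log N ^ 2) D v (v.1, v.2 + (2 * h + 1)) := by
  have h1 := Zm_map (x := mu0⁻¹) (S := tube (1024 * N + 3) h) (D := D) (a := (0, 0))
    (b := ((3 * h + 1 : ℤ), -(h : ℤ))) (fun z => (v.1 + (ri z).1, v.2 + (ri z).2)) (by
      intro z w e
      simp only [Prod.mk.injEq, add_right_inj] at e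
      exact ri_inj (Prod.ext e.1 e.2)) (by
      intro p q hpq
      have h2 := nbr_adj.2 (ri_adj (nbr_adj.1 hpq))
      rw [nbr_iff] at h2 ⊢
      simp only
      omega) (by
      intro p hp
      obtain ⟨h1, h2, h3⟩ := hp
      rw [abs_le] at h3
      unfold ri
      apply hD
      · simp only
        rw [abs_le]
        omega
      · simp only
        omega
      · simp only
        omega)
  refine (tile_base hN hh).trans (h1.trans (le_of_eq ?_))
  have e0 : ri (0, 0) = (0, 0) := by simp [ri]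
  have e1 : ri ((3 * h + 1 : ℤ), -(h : ℤ)) = (0, 2 * (h : ℤ) + 1) := by
    unfold ri
    apply Prod.ext
    · simp only
      omega
    · simp only
      omega
  simp only [e0, e1, add_zero]

end tiles

/-- horizontal moves -/
theorem Hmove {G : ℝ} (hG1 : 1 ≤ G) {D : Finset (ℤ × ℤ)}
    (hG : ∀ (a b c : ℤ × ℤ) (κ κ' : ℝ), Rl κ (D : Set (ℤ × ℤ)) a b → Rl κ' (D : Set (ℤ × ℤ)) b c →
      Rl (κ + κ' + G * Real.log (D.card + 2) ^ 2) (D : Set (ℤ × ℤ)) a c)
    {N : ℕ} (hN : 2 ≤ N) {v : ℤ × ℤ} {s : ℤ} (hs : |s| ≤ N)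
    (hD : ∀ z : ℤ × ℤ, |z.1 - v.1| ≤ 1200 * N → |z.2 - v.2| ≤ 1200 * N → z ∈ D) :
    ∃ w : ℤ × ℤ, w.1 = v.1 + s ∧ |w.2 - v.2| ≤ N ∧
      Rl (92 * Real.log N ^ 2 + 1 + G * Real.log (D.card + 2) ^ 2) (D : Set (ℤ × ℤ)) v w := by
  have hLG : 0 ≤ G * Real.log (D.card + 2) ^ 2 := by positivity
  -- the last step
  have last : ∀ u : ℤ × ℤ, |v.1 + s - u.1| ≤ 1 → |u.2 - v.2| ≤ N →
      Rl (92 * Real.log N ^ 2) (D : Set (ℤ × ℤ)) v u →
      ∃ w : ℤ × ℤ, w.1 = v.1 + s ∧ |w.2 - v.2| ≤ N ∧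
      Rl (92 * Real.log N ^ 2 + 1 + G * Real.log (D.card + 2) ^ 2) (D : Set (ℤ × ℤ)) v w := by
    intro u hu hu2 h
    rw [abs_le] at hs hu hu2
    rcases lt_or_ge u.1 (v.1 + s) with h1 | h1
    · refine ⟨(v.1 + s, u.2), rfl, abs_le.2 hu2, hG _ u _ _ _ h (Rl_adj ?_ ?_ ?_)⟩
      · apply hD <;> (rw [abs_le]; omega)
      · apply hD
        · simp only
          rw [abs_le]; omega
        · simp only
          rw [abs_le]; omega
      · rw [nbr_iff]
        left
        refine ⟨rfl, Or.inr ?_⟩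
        show v.1 + s - u.1 = 1
        omega
    · rcases lt_or_ge (v.1 + s) u.1 with h2 | h2
      · refine ⟨(v.1 + s, u.2), rfl, abs_le.2 hu2, hG _ u _ _ _ h (Rl_adj ?_ ?_ ?_)⟩
        · apply hD <;> (rw [abs_le]; omega)
        · apply hD
          · simp only
            rw [abs_le]; omega
          · simp only
            rw [abs_le]; omega
        · rw [nbr_iff]
          left
          refine ⟨rfl, Or.inl ?_⟩
          show u.1 - (v.1 + s) = 1
          omega
      · exact ⟨u, by omega, abs_le.2 hu2, h.weak (by linarith)⟩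
  have hD' : ∀ z : ℤ × ℤ, |z.1 - v.1| ≤ 1100 * N → |z.2 - v.2| ≤ 1100 * N → z ∈ (D : Set (ℤ × ℤ)) :=
    fun z h1 h2 => hD z (by omega) (by omega)
  set h : ℕ := (|s| / 3).toNat with hh
  have hhs : (h : ℤ) = |s| / 3 := by
    rw [hh]
    have : 0 ≤ |s| := abs_nonneg s
    omega
  have hhN : h ≤ N := by omega
  rcases le_or_gt 0 s with h0 | h0
  · rw [abs_of_nonneg h0] at hhs
    rcases Int.emod_two_eq_zero_or_one (v.1 + v.2) with hp | hp
    · refine last _ ?_ ?_ (T1 hN hhN hp hD')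
      · simp only
        rw [abs_le]
        omega
      · simp only
        rw [abs_le]
        omega
    · refine last _ ?_ ?_ (T2' hN hhN hp hD')
      · simp only
        rw [abs_le]
        omega
      · simp only
        rw [abs_le]
        omega
  · rw [abs_of_neg h0] at hhs
    rcases Int.emod_two_eq_zero_or_one (v.1 + v.2) with hp | hp
    · refine last _ ?_ ?_ (T2 hN hhN hp hD')
      · simp only
        rw [abs_le]
        omega
      · simp only
        rw [abs_le]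
        omega
    · refine last _ ?_ ?_ (T1' hN hhN hp hD')
      · simp only
        rw [abs_le]
        omega
      · simp only
        rw [abs_le]
        omega

/-- vertical moves -/
theorem Vmove {G : ℝ} (hG1 : 1 ≤ G) {D : Finset (ℤ × ℤ)}
    (hG : ∀ (a b c : ℤ × ℤ) (κ κ' : ℝ), Rl κ (D : Set (ℤ × ℤ)) a b → Rl κ' (D : Set (ℤ × ℤ)) b c →
      Rl (κ + κ' + G * Real.log (D.card + 2) ^ 2) (D : Set (ℤ × ℤ)) a c)
    {N : ℕ} (hN : 2 ≤ N) {v w : ℤ × ℤ} (h1 : v.1 = w.1) (h2 : v.2 ≤ w.2) (h3 : w.2 - v.2 ≤ 2 * N)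
    (hD : ∀ z : ℤ × ℤ, |z.1 - v.1| ≤ 1200 * N → 0 ≤ z.2 - v.2 → z.2 ≤ w.2 → z ∈ D) :
    Rl (92 * Real.log N ^ 2 + 5 + 5 * (G * Real.log (D.card + 2) ^ 2)) (D : Set (ℤ × ℤ)) v w := by
  have hLG : 0 ≤ G * Real.log (D.card + 2) ^ 2 := by positivity
  have hlog : 0 ≤ 92 * Real.log N ^ 2 := by positivity
  -- the even vertex
  obtain ⟨v', hv'1, hv'2, hv'3, hv'4⟩ : ∃ v' : ℤ × ℤ, v'.2 = v.2 ∧ (v'.1 + v'.2) % 2 = 0 ∧
      (v' = v ∨ v' = (v.1 + 1, v.2)) ∧ Rl 1 (D : Set (ℤ × ℤ)) v v' := by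
    have hvD : v ∈ (D : Set (ℤ × ℤ)) := hD v (by rw [abs_le]; omega) (by omega) h2
    rcases Int.emod_two_eq_zero_or_one (v.1 + v.2) with hp | hp
    · exact ⟨v, rfl, hp, Or.inl rfl, (Rl_refl hvD).weak (by norm_num)⟩
    · refine ⟨(v.1 + 1, v.2), rfl, by simp only; omega, Or.inr rfl, Rl_adj hvD ?_ ?_⟩
      · apply hD
        · simp only
          rw [abs_le]; omega
        · simp only
          omega
        · exact h2
      · rw [nbr_iff]
        left
        refine ⟨rfl, Or.inr ?_⟩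
        show v.1 + 1 - v.1 = 1
        ring
  have hv'r : v.1 ≤ v'.1 ∧ v'.1 ≤ v.1 + 1 := by
    rcases hv'3 with e | e
    · rw [e]
      omega
    · rw [e]
      simp only
      omega
  -- the last step
  have last : ∀ κ : ℝ, Rl κ (D : Set (ℤ × ℤ)) v (v'.1, w.2) →
      Rl (κ + 1 + G * Real.log (D.card + 2) ^ 2) (D : Set (ℤ × ℤ)) v w := by
    intro κ hκ
    have hwD : w ∈ (D : Set (ℤ × ℤ)) := hD w (by rw [abs_le]; omega) (by omega) le_rfl
    rcases hv'3 with e | e
    · have e2 : ((v'.1, w.2) : ℤ × ℤ) = w := by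
        rw [e, h1]
      rw [e2] at hκ
      exact hκ.weak (by linarith)
    · refine hG _ _ _ _ _ hκ (Rl_adj ?_ hwD ?_)
      · apply hD
        · rw [e]
          simp only
          rw [abs_le]; omega
        · simp only
          omega
        · exact le_rfl
      · rw [nbr_iff]
        left
        refine ⟨rfl, Or.inl ?_⟩
        rw [e]
        show v.1 + 1 - w.1 = 1
        omega
  rcases Int.emod_two_eq_zero_or_one (w.2 - v.2) with hp | hp
  · rcases lt_or_ge 0 (w.2 - v.2) with h4 | h4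
    · -- `2 h + 2`
      obtain ⟨h, hh⟩ : ∃ h : ℕ, w.2 - v.2 = 2 * (h : ℤ) + 2 := ⟨((w.2 - v.2 - 2) / 2).toNat, by omega⟩
      have a1 := VV (N := N) (h := h) (D := (D : Set (ℤ × ℤ))) (v := v') hN (by omega) hv'2 (by
        intro z z1 z2 z3
        rw [abs_le] at z1
        apply hD
        · rw [abs_le]; omega
        · omega
        · omega)
      have m1 : (v'.1, v'.2 + (2 * (h : ℤ) + 1)) ∈ (D : Set (ℤ × ℤ)) := by
        apply hD
        · simp only
          rw [abs_le]; omega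
        · simp only
          omega
        · simp only
          omega
      have m2 : (v'.1 + 1, v'.2 + (2 * (h : ℤ) + 1)) ∈ (D : Set (ℤ × ℤ)) := by
        apply hD
        · simp only
          rw [abs_le]; omega
        · simp only
          omega
        · simp only
          omega
      have m3 : (v'.1 + 1, w.2) ∈ (D : Set (ℤ × ℤ)) := by
        apply hD
        · simp only
          rw [abs_le]; omega
        · simp only
          omega
        · exact le_rfl
      have m4 : (v'.1, w.2) ∈ (D : Set (ℤ × ℤ)) := by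
        apply hD
        · simp only
          rw [abs_le]; omega
        · simp only
          omega
        · exact le_rfl
      have a2 : Rl 1 (D : Set (ℤ × ℤ)) (v'.1, v'.2 + (2 * (h : ℤ) + 1))
          (v'.1 + 1, v'.2 + (2 * (h : ℤ) + 1)) := by
        refine Rl_adj m1 m2 ?_
        rw [nbr_iff]
        left
        refine ⟨rfl, Or.inr ?_⟩
        show v'.1 + 1 - v'.1 = 1
        ring
      have a3 : Rl 1 (D : Set (ℤ × ℤ)) (v'.1 + 1, v'.2 + (2 * (h : ℤ) + 1)) (v'.1 + 1, w.2) := by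
        refine Rl_adj m2 m3 ?_
        rw [nbr_iff]
        right
        refine ⟨rfl, Or.inl ⟨?_, ?_⟩⟩
        · show w.2 = v'.2 + (2 * (h : ℤ) + 1) + 1
          omega
        · show (v'.1 + 1 + (v'.2 + (2 * (h : ℤ) + 1))) % 2 = 0
          omega
      have a4 : Rl 1 (D : Set (ℤ × ℤ)) (v'.1 + 1, w.2) (v'.1, w.2) := by
        refine Rl_adj m3 m4 ?_
        rw [nbr_iff]
        left
        refine ⟨rfl, Or.inl ?_⟩
        show v'.1 + 1 - v'.1 = 1
        ring
      refine (last _ (hG _ _ _ _ _ (hG _ _ _ _ _ (hG _ _ _ _ _ (hG _ _ _ _ _ hv'4 a1) a2) a3) a4)).weak ?_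
      linarith
    · -- equal
      have e : w.2 = v.2 := by omega
      refine (last 1 ?_).weak (by linarith)
      rw [e]
      have e2 : ((v'.1, v.2) : ℤ × ℤ) = v' := by
        rw [← hv'1]
      rw [e2]
      exact hv'4
  · -- `2 h + 1`
    obtain ⟨h, hh⟩ : ∃ h : ℕ, w.2 - v.2 = 2 * (h : ℤ) + 1 := ⟨((w.2 - v.2 - 1) / 2).toNat, by omega⟩
    have a1 := VV (N := N) (h := h) (D := (D : Set (ℤ × ℤ))) (v := v') hN (by omega) hv'2 (by
      intro z z1 z2 z3
      rw [abs_le] at z1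
      apply hD
      · rw [abs_le]; omega
      · omega
      · omega)
    have e : v'.2 + (2 * (h : ℤ) + 1) = w.2 := by omega
    rw [e] at a1
    refine (last _ (hG _ _ _ _ _ hv'4 a1)).weak ?_
    linarith

/-- two points of a box -/
theorem near {G : ℝ} (hG1 : 1 ≤ G) {D : Finset (ℤ × ℤ)}
    (hG : ∀ (a b c : ℤ × ℤ) (κ κ' : ℝ), Rl κ (D : Set (ℤ × ℤ)) a b → Rl κ' (D : Set (ℤ × ℤ)) b c →
      Rl (κ + κ' + G * Real.log (D.card + 2) ^ 2) (D : Set (ℤ × ℤ)) a c)
    {N : ℕ} (hN : 2 ≤ N) {p q : ℤ × ℤ} (h1 : |q.1 - p.1| ≤ N) (h2 : |q.2 - p.2| ≤ N)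
    (hD : ∀ z : ℤ × ℤ, |z.1 - p.1| ≤ 1300 * N → |z.2 - p.2| ≤ 1300 * N → z ∈ D) :
    Rl (184 * Real.log N ^ 2 + 6 + 7 * (G * Real.log (D.card + 2) ^ 2)) (D : Set (ℤ × ℤ)) p q := by
  obtain ⟨w, hw1, hw2, hw3⟩ := Hmove hG1 hG hN (v := p) (s := q.1 - p.1) h1
    (fun z z1 z2 => hD z (by omega) (by omega))
  rw [abs_le] at hw2 h2 h1
  have hwq : w.1 = q.1 := by omega
  have h4 : Rl (92 * Real.log N ^ 2 + 5 + 5 * (G * Real.log (D.card + 2) ^ 2))
      (D : Set (ℤ × ℤ)) w q := by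
    rcases le_total w.2 q.2 with h5 | h5
    · refine Vmove hG1 hG hN hwq h5 (by omega) ?_
      intro z z1 z2 z3
      rw [abs_le] at z1
      apply hD <;> (rw [abs_le]; omega)
    · refine Rl.symm (Vmove hG1 hG hN hwq.symm h5 (by omega) ?_)
      intro z z1 z2 z3
      rw [abs_le] at z1
      apply hD <;> (rw [abs_le]; omega)
  refine (hG _ _ _ _ _ hw3 h4).weak ?_
  have hLG : 0 ≤ G * Real.log (D.card + 2) ^ 2 := by positivity
  linarith

end Pool.Agent.U508.NC
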