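import Pool.Agent.U508.NC.Crit

set_option autoImplicit false

/-! Pieces of the critical path in thin strips. -/

namespace Pool.Agent.U508.NC

open Pool.Agent.U508.ST Pool.Agent.W818.TD H978R2.Hex
open scoped ENNReal

theorem chain_mid {l s : List (ℤ × ℤ)} (h : l.IsChain Nbr) (hs : s <:+: l) : s.IsChain Nbr := by
  obtain ⟨X, Y, rfl⟩ := hs
  rw [List.isChain_append, List.isChain_append] at h
  exact h.1.2.1

theorem split3 {x : ℝ} (hx : 0 ≤ x) {S S1 S2 S3 : Set (List (ℤ × ℤ))}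
    (F : List (ℤ × ℤ) → List (ℤ × ℤ) → List (ℤ × ℤ) → List (ℤ × ℤ))
    (h : ∀ l ∈ S, ∃ l1 ∈ S1, ∃ l2 ∈ S2, ∃ l3 ∈ S3, l = F l1 l2 l3 ∧
      l.length - 1 = (l1.length - 1) + (l2.length - 1) + (l3.length - 1)) :
    Zm x S ≤ Zm x S1 * (Zm x S2 * Zm x S3) := by
  classical
  have key : ∀ l : S, ∃ r : S1 × (S2 × S3), l.1 = F r.1.1 r.2.1.1 r.2.2.1 ∧
      l.1.length - 1 = (r.1.1.length - 1) + (r.2.1.1.length - 1) + (r.2.2.1.length - 1) := by
    rintro ⟨l, hl⟩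
    obtain ⟨l1, h1, l2, h2, l3, h3, h4, h5⟩ := h l hl
    exact ⟨(⟨l1, h1⟩, (⟨l2, h2⟩, ⟨l3, h3⟩)), h4, h5⟩
  choose g hg using key
  have hinj : Function.Injective g := by
    intro l l' e
    apply Subtype.ext
    rw [(hg l).1, (hg l').1, e]
  unfold Zm
  have hR : (∑' l : S1, ENNReal.ofReal (x ^ (l.1.length - 1))) *
      ((∑' l : S2, ENNReal.ofReal (x ^ (l.1.length - 1))) *
      (∑' l : S3, ENNReal.ofReal (x ^ (l.1.length - 1)))) =
      ∑' r : S1 × (S2 × S3), ENNReal.ofReal (x ^ (r.1.1.length - 1)) *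
        (ENNReal.ofReal (x ^ (r.2.1.1.length - 1)) * ENNReal.ofReal (x ^ (r.2.2.1.length - 1))) := by
    rw [ENNReal.tsum_prod (f := fun (l : S1) (m : S2 × S3) =>
      ENNReal.ofReal (x ^ (l.1.length - 1)) *
        (ENNReal.ofReal (x ^ (m.1.1.length - 1)) * ENNReal.ofReal (x ^ (m.2.1.length - 1)))),
      ← ENNReal.tsum_mul_right]
    refine tsum_congr fun l => ?_
    rw [ENNReal.tsum_mul_left]
    congr 1
    rw [ENNReal.tsum_prod (f := fun (m : S2) (m' : S3) => ENNReal.ofReal (x ^ (m.1.length - 1)) *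
        ENNReal.ofReal (x ^ (m'.1.length - 1))), ← ENNReal.tsum_mul_right]
    refine tsum_congr fun l => ?_
    rw [ENNReal.tsum_mul_left]
  rw [hR]
  refine le_trans (le_of_eq (tsum_congr fun q => ?_)) (ENNReal.tsum_comp_le_tsum_of_injective hinj _)
  rw [(hg q).2, ← ENNReal.ofReal_mul (by positivity), ← ENNReal.ofReal_mul (by positivity),
    ← pow_add, ← pow_add]
  congr 2
  omega

/-- the pieces from `f p` to `f q` in the image of the strip `u ≤ x < u + L` -/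
def Pc (D : Set (ℤ × ℤ)) (f : ℤ × ℤ → ℤ × ℤ) (L : ℕ) (u : ℤ) (p q : ℤ × ℤ) : Set (List (ℤ × ℤ)) :=
  {l | l ∈ Pt D (f p) (f q) ∧ ∀ z, f z ∈ l → u ≤ z.1 ∧ z.1 < u + L}

theorem piece_up : ∃ K : ℝ, 0 ≤ K ∧ ∀ (D : Set (ℤ × ℤ)) (f : ℤ × ℤ → ℤ × ℤ), Au f → ∀ L : ℕ, 1 ≤ L →
    ∀ (u : ℤ) (p q : ℤ × ℤ), p.2 ≤ q.2 →
    Zm mu0⁻¹ (Pc D f L u p q) ≤
      ENNReal.ofReal (Real.exp (K * Real.log ((L + 1 : ℕ) : ℝ) ^ 2 -
        Real.log 2 / 16 * (((q.2 - p.2).toNat : ℝ) / ((L + 1 : ℕ) : ℝ)))) := by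
  obtain ⟨K, hK, h⟩ := Tsum_upper
  refine ⟨K, hK, fun D f hf L hL u p q hpq => ?_⟩
  refine le_trans ?_ (h (L + 1) (by omega) (q.2 - p.2).toNat)
  set e := Equiv.ofBijective f hf.1 with he
  have hfe : ∀ z, f (e.symm z) = z := fun z => e.apply_symm_apply z
  have hef : ∀ z, e.symm (f z) = z := fun z => e.symm_apply_apply z
  set s : ℤ := (u + p.2) % 2 with hs
  set g : ℤ × ℤ → ℤ × ℤ := fun z => ((e.symm z).1 - u + s, (e.symm z).2 - p.2) with hg
  have hgi : Function.Injective g := by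
    intro z z' hzz
    rw [hg] at hzz
    simp only [Prod.mk.injEq] at hzz
    apply e.symm.injective
    apply Prod.ext <;> omega
  have h1 := Zm_inj (x := mu0⁻¹) (S := Pc D f L u p q) (S' := Sr (L + 1) (q.2 - p.2).toNat)
    (fun l => l.map g) 1 (fun l hl => ?_) (fun l _ l' _ e => List.map_injective_iff.2 hgi e)
    (fun l _ => by rw [one_mul, List.length_map])
  · rwa [one_mul] at h1
  · obtain ⟨⟨a1, a2, a3, a4, a5⟩, h2⟩ := hl
    refine ⟨a4.map hgi, ?_, ?_, g (f p), g (f q), ?_, ?_, ?_, ?_⟩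
    · rw [List.isChain_map]
      refine a3.imp fun {v w} hvw => ?_
      have h3 : Nbr (e.symm v) (e.symm w) := by
        rw [hf.2, hfe, hfe]
        exact hvw
      rw [nbr_iff] at h3 ⊢
      rw [hg]
      simp only
      omega
    · intro v hv
      rw [List.mem_map] at hv
      obtain ⟨w, hw, rfl⟩ := hv
      have h3 := h2 (e.symm w) (by rw [hfe]; exact hw)
      rw [hg]
      simp only
      push_cast
      omega
    · rw [List.head?_map, a1]
      rfl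
    · rw [List.getLast?_map, a2]
      rfl
    · rw [hg]
      simp only [hef]
      omega
    · rw [hg]
      simp only [hef]
      omega

theorem piece : ∃ K : ℝ, 0 ≤ K ∧ ∀ (D : Set (ℤ × ℤ)) (f : ℤ × ℤ → ℤ × ℤ), Au f → ∀ L : ℕ, 1 ≤ L →
    ∀ (u : ℤ) (p q : ℤ × ℤ) (h : ℕ), (h : ℤ) ≤ |q.2 - p.2| →
    Zm mu0⁻¹ (Pc D f L u p q) ≤
      ENNReal.ofReal (Real.exp (K * Real.log ((L : ℝ) + 1) ^ 2 - Real.log 2 / 32 * (h / L))) := by
  obtain ⟨K, hK, hup⟩ := piece_up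
  refine ⟨K, hK, fun D f hf L hL u p q h hh => ?_⟩
  have hL1 : (1 : ℝ) ≤ L := by exact_mod_cast hL
  have hl2 : 0 < Real.log 2 := Real.log_pos (by norm_num)
  have num : ∀ k : ℕ, h ≤ k → ENNReal.ofReal (Real.exp (K * Real.log ((L + 1 : ℕ) : ℝ) ^ 2 -
        Real.log 2 / 16 * ((k : ℝ) / ((L + 1 : ℕ) : ℝ)))) ≤
      ENNReal.ofReal (Real.exp (K * Real.log ((L : ℝ) + 1) ^ 2 - Real.log 2 / 32 * (h / L))) := by
    intro k hk
    apply ENNReal.ofReal_le_ofReal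
    apply Real.exp_le_exp.2
    push_cast
    have h1 : (h : ℝ) ≤ k := by exact_mod_cast hk
    have h2 : Real.log 2 / 32 * (h / L) ≤ Real.log 2 / 16 * ((k : ℝ) / ((L : ℝ) + 1)) := by
      have h3 : (h : ℝ) / L ≤ 2 * ((k : ℝ) / ((L : ℝ) + 1)) := by
        rw [← mul_div_assoc, div_le_div_iff₀ (by linarith) (by linarith)]
        nlinarith [Nat.cast_nonneg (α := ℝ) h, Nat.cast_nonneg (α := ℝ) k]
      nlinarith
    linarith
  rcases le_total p.2 q.2 with hpq | hpq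
  · refine (hup D f hf L hL u p q hpq).trans (num _ ?_)
    rw [abs_of_nonneg (by omega)] at hh
    omega
  · have h1 := Zm_inj (x := mu0⁻¹) (S := Pc D f L u p q) (S' := Pc D f L u q p)
      (fun l => l.reverse) 1 (fun l hl => ⟨rev_Pt hl.1, fun z hz => hl.2 z (List.mem_reverse.1 hz)⟩)
      (fun l _ l' _ e => List.reverse_injective e) (fun l _ => by rw [one_mul, List.length_reverse])
    rw [one_mul] at h1
    refine h1.trans ((hup D f hf L hL u q p hpq).trans (num _ ?_))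
    rw [abs_of_nonpos (by omega)] at hh
    omega

/-- the paths with a piece in a thin strip -/
def Th (D : Set (ℤ × ℤ)) (a b : ℤ × ℤ) (f : ℤ × ℤ → ℤ × ℤ) (L h : ℕ) : Set (List (ℤ × ℤ)) :=
  {l | l ∈ Pt D a b ∧ ∃ s : List (ℤ × ℤ), s <:+: l ∧
    (∃ u : ℤ, ∀ z, f z ∈ s → u ≤ z.1 ∧ z.1 < u + L) ∧
    ∃ p q, s.head? = some (f p) ∧ s.getLast? = some (f q) ∧ (h : ℤ) ≤ |q.2 - p.2|}

theorem Th_split {x : ℝ} (hx : 0 ≤ x) {D : Set (ℤ × ℤ)} {a b : ℤ × ℤ} {f : ℤ × ℤ → ℤ × ℤ} {L : ℕ} {u : ℤ}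
    {p q : ℤ × ℤ} :
    Zm x {l | l ∈ Pt D a b ∧ ∃ s, s <:+: l ∧ s ∈ Pc D f L u p q} ≤
      Zm x (Wk D a) * (Zm x (Pc D f L u p q) * Zm x (Wk D b)) := by
  refine split3 hx (fun l1 l2 l3 => l1 ++ l2.tail ++ l3.reverse.tail) ?_
  rintro l ⟨hl, s, ⟨A, B, e⟩, hs⟩
  obtain ⟨s', rfl⟩ : ∃ s', s = f p :: s' := by
    have := hs.1.1
    rwa [List.head?_eq_some_iff] at this
  have hq := hs.1.2.1
  rw [List.getLast?_eq_some_iff] at hq
  obtain ⟨s'', hs''⟩ := hq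
  have hl' := hl
  rw [← e] at hl'
  obtain ⟨a1, a2, a3, a4, a5⟩ := hl'
  have i1 : A ++ [f p] <:+: A ++ f p :: s' ++ B := ⟨[], s' ++ B, by simp⟩
  have i2 : f q :: B <:+: A ++ f p :: s' ++ B := ⟨A ++ s'', [], by rw [hs'']; simp⟩
  refine ⟨A ++ [f p], ⟨?_, ?_, ?_, ?_⟩, f p :: s', hs, (f q :: B).reverse, ⟨?_, ?_, ?_, ?_⟩, ?_, ?_⟩
  · rw [List.append_assoc, List.head?_append] at a1
    rw [List.head?_append]
    exact a1
  · exact chain_mid a3 i1
  · exact a4.sublist i1.sublist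
  · exact fun v hv => a5 v (i1.subset hv)
  · rw [List.head?_reverse]
    rw [hs'', List.getLast?_append] at a2
    rw [List.getLast?_cons]
    cases hB : B.getLast? with
    | none =>
      rw [hB] at a2
      simpa using a2
    | some w =>
      rw [hB] at a2
      simpa using a2
  · rw [List.isChain_reverse]
    exact (chain_mid a3 i2).imp fun {p q} hpq => nbr_symm hpq
  · exact List.nodup_reverse.2 (a4.sublist i2.sublist)
  · exact fun v hv => a5 v (i2.subset (List.mem_reverse.1 hv))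
  · rw [← e]
    simp
  · rw [← e]
    simp only [List.length_append, List.length_cons, List.length_reverse, List.length_nil]
    omega

/-- **thin pieces** -/
theorem thin : ∃ K : ℝ, 0 ≤ K ∧ ∀ (D : Finset (ℤ × ℤ)) (a b : ℤ × ℤ) (f : ℤ × ℤ → ℤ × ℤ), Au f →
    ∀ L h : ℕ, 1 ≤ L → L ≤ D.card →
    Zm mu0⁻¹ (Th (D : Set (ℤ × ℤ)) a b f L h) ≤
      ENNReal.ofReal (Real.exp (K * Real.log (D.card + 2) ^ 2 - Real.log 2 / 32 * (h / L))) := by
  classical
  obtain ⟨K1, hK1, hw⟩ := walk_upper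
  obtain ⟨K2, hK2, hp⟩ := piece
  refine ⟨2 * K1 + K2 + 6, by positivity, fun D a b f hf L h hL hLD => ?_⟩
  set D' := D.preimage f hf.1.1.injOn with hD'
  have hcard : D'.card ≤ D.card := pre_card D hf.1.1
  set I : Finset ((ℤ × ℤ) × ((ℤ × ℤ) × (ℤ × ℤ))) :=
    (D' ×ˢ (D' ×ˢ D')).filter (fun i => (h : ℤ) ≤ |i.2.1.2 - i.1.2|) with hI
  have hIc : I.card ≤ D.card ^ 3 := by
    refine (Finset.card_filter_le _ _).trans ?_
    rw [Finset.card_product, Finset.card_product]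
    calc D'.card * (D'.card * D'.card) ≤ D.card * (D.card * D.card) := by gcongr
      _ = D.card ^ 3 := by ring
  have hmem : ∀ {v : ℤ × ℤ}, f v ∈ D → v ∈ D' := by
    intro v hv
    rw [hD', Finset.mem_preimage]
    exact hv
  have h1 := cover (x := mu0⁻¹) (S := Th (D : Set (ℤ × ℤ)) a b f L h) I
    (fun i => {l | l ∈ Pt (D : Set (ℤ × ℤ)) a b ∧
      ∃ s, s <:+: l ∧ s ∈ Pc (D : Set (ℤ × ℤ)) f L i.2.2.1 i.1 i.2.1}) (by
    rintro l ⟨hl, s, hs, ⟨u, hu⟩, p, q, hp', hq', hpq⟩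
    have hsD : ∀ v ∈ s, v ∈ D := fun v hv => hl.2.2.2.2 v (hs.subset hv)
    have hfp : f p ∈ s := List.mem_of_head? hp'
    have hfq : f q ∈ s := List.mem_of_getLast? hq'
    -- the leftmost point
    have hne : (D'.filter (fun z => f z ∈ s)).Nonempty := ⟨p, by
      rw [Finset.mem_filter]
      exact ⟨hmem (hsD _ hfp), hfp⟩⟩
    obtain ⟨r, hr, hr2⟩ := Finset.exists_min_image _ (fun z : ℤ × ℤ => z.1) hne
    rw [Finset.mem_filter] at hr
    refine ⟨(p, (q, r)), ?_, hl, s, hs, ⟨⟨hp', hq', chain_mid hl.2.2.1 hs, hl.2.2.2.1.sublist hs.sublist,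
      fun v hv => hsD v hv⟩, fun z hz => ?_⟩⟩
    · rw [hI, Finset.mem_filter, Finset.mem_product, Finset.mem_product]
      exact ⟨⟨hmem (hsD _ hfp), hmem (hsD _ hfq), hr.1⟩, hpq⟩
    · have e1 := hr2 z (by
        rw [Finset.mem_filter]
        exact ⟨hmem (hsD _ hz), hz⟩)
      have e2 := hu z hz
      have e3 := hu r hr.2
      simp only at e1 ⊢
      omega)
  refine h1.trans ?_
  set B : ℝ := Real.exp (K1 * Real.log (D.card + 2) ^ 2) * (Real.exp (K2 * Real.log ((L : ℝ) + 1) ^ 2 -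
    Real.log 2 / 32 * (h / L)) * Real.exp (K1 * Real.log (D.card + 2) ^ 2)) with hB
  have h2 : ∀ i ∈ I, Zm mu0⁻¹ {l | l ∈ Pt (D : Set (ℤ × ℤ)) a b ∧
      ∃ s, s <:+: l ∧ s ∈ Pc (D : Set (ℤ × ℤ)) f L i.2.2.1 i.1 i.2.1} ≤ ENNReal.ofReal B := by
    intro i hi
    rw [hI, Finset.mem_filter] at hi
    refine (Th_split (inv_nonneg.2 mu0_pos.le)).trans ?_
    rw [hB, ENNReal.ofReal_mul (Real.exp_pos _).le, ENNReal.ofReal_mul (Real.exp_pos _).le]
    exact mul_le_mul' (hw D a) (mul_le_mul' (hp _ f hf L hL _ _ _ h hi.2) (hw D b))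
  refine (Finset.sum_le_sum h2).trans ?_
  rw [Finset.sum_const, nsmul_eq_mul]
  have hB0 : 0 < B := by positivity
  have hc0 : (0 : ℝ) ≤ D.card := Nat.cast_nonneg _
  have hlog : 1 / 2 ≤ Real.log ((D.card : ℝ) + 2) :=
    log_two_half.trans (Real.log_le_log (by norm_num) (by linarith))
  calc (I.card : ℝ≥0∞) * ENNReal.ofReal B = ENNReal.ofReal (I.card * B) := by
        rw [ENNReal.ofReal_mul (Nat.cast_nonneg _), ENNReal.ofReal_natCast]
    _ ≤ ENNReal.ofReal (Real.exp (6 * Real.log (D.card + 2) ^ 2) * B) := by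
        apply ENNReal.ofReal_le_ofReal
        gcongr
        have e1 : (I.card : ℝ) ≤ ((D.card : ℝ) + 2) ^ 3 := by
          calc (I.card : ℝ) ≤ (D.card : ℝ) ^ 3 := by exact_mod_cast hIc
            _ ≤ _ := by gcongr; linarith
        refine e1.trans ?_
        have e2 : ((D.card : ℝ) + 2) ^ 3 = Real.exp (3 * Real.log ((D.card : ℝ) + 2)) := by
          rw [show (3 : ℝ) = ((3 : ℕ) : ℝ) by norm_num, Real.exp_nat_mul, Real.exp_log (by linarith)]
        rw [e2]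
        apply Real.exp_le_exp.2
        nlinarith
    _ ≤ _ := by
        apply ENNReal.ofReal_le_ofReal
        rw [hB, ← Real.exp_add, ← Real.exp_add, ← Real.exp_add]
        apply Real.exp_le_exp.2
        have hLD' : (L : ℝ) ≤ D.card := by exact_mod_cast hLD
        have hL0 : (1 : ℝ) ≤ L := by exact_mod_cast hL
        have e1 : Real.log ((L : ℝ) + 1) ≤ Real.log ((D.card : ℝ) + 2) :=
          Real.log_le_log (by linarith) (by linarith)
        have e2 : 0 ≤ Real.log ((L : ℝ) + 1) := Real.log_nonneg (by linarith)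
        have e3 : K2 * Real.log ((L : ℝ) + 1) ^ 2 ≤ K2 * Real.log ((D.card : ℝ) + 2) ^ 2 := by gcongr
        linarith

end Pool.Agent.U508.NC
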