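import Pool.Agent.U508.NC.UpD

set_option autoImplicit false

/-! Critical paths with fixed end points. -/

namespace Pool.Agent.U508.NC

open Pool.Agent.U508.ST Pool.Agent.W818.TD H978R2.Hex
open scoped ENNReal

/-- a popular value -/
theorem pig {x : ℝ} {S : Set (List (ℤ × ℤ))} (g : List (ℤ × ℤ) → ℤ) {W : ℤ} (hW : 0 ≤ W)
    (hg : ∀ l ∈ S, |g l| ≤ W) :
    ∃ k : ℤ, Zm x S ≤ ENNReal.ofReal (2 * W + 1) * Zm x {l | l ∈ S ∧ g l = k} := by
  classical
  set I := Finset.Icc (-W) W with hI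
  have hne : I.Nonempty := ⟨0, by rw [hI, Finset.mem_Icc]; omega⟩
  obtain ⟨k, hk, hmax⟩ := Finset.exists_max_image I (fun k => Zm x {l | l ∈ S ∧ g l = k}) hne
  refine ⟨k, ?_⟩
  have hsub : S ⊆ ⋃ i ∈ I, {l | l ∈ S ∧ g l = i} := by
    intro l hl
    have := hg l hl
    rw [abs_le] at this
    simp only [Set.mem_iUnion, Set.mem_ofPred_eq, exists_prop]
    exact ⟨g l, by rw [hI, Finset.mem_Icc]; exact this, hl, rfl⟩
  calc Zm x S ≤ ∑' l : (⋃ i ∈ I, {l | l ∈ S ∧ g l = i} : Set (List (ℤ × ℤ))),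
        ENNReal.ofReal (x ^ (l.1.length - 1)) :=
        ENNReal.tsum_mono_subtype (fun l : List (ℤ × ℤ) => ENNReal.ofReal (x ^ (l.length - 1))) hsub
    _ ≤ ∑ i ∈ I, Zm x {l | l ∈ S ∧ g l = i} :=
        ENNReal.tsum_biUnion_le (fun l : List (ℤ × ℤ) => ENNReal.ofReal (x ^ (l.length - 1))) I _
    _ ≤ ∑ i ∈ I, Zm x {l | l ∈ S ∧ g l = k} := Finset.sum_le_sum hmax
    _ = _ := by
        rw [Finset.sum_const, nsmul_eq_mul]
        congr 1
        rw [hI, Int.card_Icc, ← ENNReal.ofReal_natCast]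
        congr 1
        have h1 : ((W + 1 - -W).toNat : ℤ) = 2 * W + 1 := by omega
        exact_mod_cast congrArg (fun z : ℤ => (z : ℝ)) h1

/-- the region -/
def tube (W : ℤ) (h : ℕ) : Set (ℤ × ℤ) :=
  {v | 0 ≤ v.1 - v.2 ∧ v.1 - v.2 ≤ 4 * h + 1 ∧ |v.1 + 3 * v.2| ≤ 2 * W + 5}

/-- the second half -/
def cs (h : ℕ) (v : ℤ × ℤ) : ℤ × ℤ := ((3 * h + 1 : ℤ), -(h : ℤ)) - sg v

theorem cs_inj (h : ℕ) : Function.Injective (cs h) := fun _ _ e => sg_inj (sub_right_injective e)

theorem cs_nbr {h : ℕ} {p q : ℤ × ℤ} (hpq : Nbr p q) : Nbr (cs h p) (cs h q) := by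
  have h1 := nbr_adj.2 (adj_sg (nbr_adj.1 hpq))
  unfold cs
  rw [nbr_iff] at h1 ⊢
  simp only [Prod.fst_sub, Prod.snd_sub]
  omega

theorem cs_lev (h : ℕ) (v : ℤ × ℤ) : (cs h v).1 - (cs h v).2 = 4 * h + 1 - (v.1 - v.2) := by
  unfold cs
  have := sg_lev v
  simp only [Prod.fst_sub, Prod.snd_sub]
  omega

theorem cs_lat (h : ℕ) (v : ℤ × ℤ) :
    (cs h v).1 + 3 * (cs h v).2 = 1 + (v.1 + 3 * v.2) - 2 * ((v.1 - v.2) % 2) := by
  unfold cs
  have := sg_lat v
  unfold lat at this
  simp only [Prod.fst_sub, Prod.snd_sub]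
  omega

theorem tile_mass {x : ℝ} (hx : 0 ≤ x) {W : ℤ} (hW : 0 ≤ W) (h : ℕ) :
    ENNReal.ofReal x * (Zm x (EE W (2 * h)) * Zm x (EE W (2 * h))) ≤
      ENNReal.ofReal ((2 * W + 1) ^ 2) * Zm x (Pt (tube W h) (0, 0) ((3 * h + 1 : ℤ), -(h : ℤ))) := by
  obtain ⟨k, hk⟩ := pig (x := x) (S := EE W (2 * h)) (fun l => lat (la l)) hW (fun l hl => hl.2.2.1)
  set S : Set (List (ℤ × ℤ)) := {l | l ∈ EE W (2 * h) ∧ lat (la l) = k} with hS
  have hprod : ENNReal.ofReal x * (Zm x S * Zm x S) ≤
      Zm x (Pt (tube W h) (0, 0) ((3 * h + 1 : ℤ), -(h : ℤ))) := by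
    refine Zm_prod (fun γ γ' => γ ++ (γ'.map (cs h)).reverse) _ ?_ ?_ ?_
    · rintro γ ⟨⟨g1, g2, g3, g4⟩, g5⟩ γ' ⟨⟨g1', g2', g3', g4'⟩, g5'⟩
      have p1 : γ ∈ Pt (tube W h) (0, 0) (la γ) := by
        refine ⟨g1.hd, ?_, ?_, g1.nd, ?_⟩
        · rw [List.getLast?_eq_getLast_of_ne_nil g1.ne, la_eq g1.ne]
        · exact g1.ch.imp fun {p q} hpq => nbr_adj.2 hpq
        · intro v hv
          have h1 := g4 v hv
          have h2 := g1.nonneg v hv
          have h3 := g1.top v hv
          rw [g2] at h3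
          unfold lat at h1
          refine ⟨h2, by omega, by omega⟩
      have p2 : (γ'.map (cs h)).reverse ∈ Pt (tube W h) (cs h (la γ')) ((3 * h + 1 : ℤ), -(h : ℤ)) := by
        refine ⟨?_, ?_, ?_, ?_, ?_⟩
        · rw [List.head?_reverse, List.getLast?_map, List.getLast?_eq_getLast_of_ne_nil g1'.ne,
            la_eq g1'.ne]
          rfl
        · rw [List.getLast?_reverse, List.head?_map, g1'.hd]
          simp only [Option.map_some, Option.some.injEq]
          unfold cs sg
          simp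
        · rw [List.isChain_reverse, List.isChain_map]
          refine g1'.ch.imp fun {p q} hpq => ?_
          have h1 := cs_nbr (h := h) (nbr_adj.2 hpq)
          rw [nbr_iff] at h1 ⊢
          omega
        · rw [List.nodup_reverse]
          exact g1'.nd.map (cs_inj h)
        · intro v hv
          rw [List.mem_reverse, List.mem_map] at hv
          obtain ⟨w, hw, rfl⟩ := hv
          have h1 := g4' w hw
          have h2 := g1'.nonneg w hw
          have h3 := g1'.top w hw
          rw [g2'] at h3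
          unfold lat at h1
          rw [abs_le] at h1
          have h4 := cs_lev h w
          have h5 := cs_lat h w
          refine ⟨by omega, by omega, ?_⟩
          rw [h5, abs_le]
          omega
      have hla : la γ' = la γ := by
        unfold hl at g2 g2'
        unfold lat at g5 g5'
        apply Prod.ext <;> omega
      refine Pt_append p1 p2 ?_ ?_
      · rw [hla, nbr_iff]
        left
        have h1 := cs_lev h (la γ)
        have h2 := cs_lat h (la γ)
        unfold hl at g2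
        constructor
        · omega
        · right
          omega
      · intro v hv hv'
        rw [List.mem_reverse, List.mem_map] at hv'
        obtain ⟨w, hw, rfl⟩ := hv'
        have h1 := g1.top _ hv
        have h2 := g1'.top w hw
        rw [g2] at h1
        rw [g2'] at h2
        have h3 := cs_lev h w
        omega
    · rintro γ hγ γ' hγ' η hη η' hη' e
      have hlow : ∀ δ ∈ S, ∀ v ∈ δ, v.1 - v.2 ≤ 2 * (h : ℤ) := by
        intro δ hδ v hv
        have := hδ.1.1.top v hv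
        rw [hδ.1.2.1] at this
        exact this
      have hhigh : ∀ δ ∈ S, ∀ v ∈ (δ.map (cs h)).reverse, ¬ (v.1 - v.2 ≤ 2 * (h : ℤ)) := by
        intro δ hδ v hv
        rw [List.mem_reverse, List.mem_map] at hv
        obtain ⟨w, hw, rfl⟩ := hv
        have h1 := hlow δ hδ w hw
        have h2 := cs_lev h w
        omega
      have e1 : γ = η := append_split (p := fun v => v.1 - v.2 ≤ 2 * (h : ℤ)) e (hlow γ hγ) (hlow η hη)
        (hhigh γ' hγ') (hhigh η' hη')
      subst e1
      have e2 := List.reverse_injective (List.append_cancel_left e)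
      exact ⟨rfl, List.map_injective_iff.2 (cs_inj h) e2⟩
    · intro γ hγ γ' hγ'
      have h1 := List.length_pos_of_ne_nil hγ.1.1.ne
      have h2 := List.length_pos_of_ne_nil hγ'.1.1.ne
      rw [← ENNReal.ofReal_mul (by positivity), ← ENNReal.ofReal_mul (by positivity)]
      apply le_of_eq
      congr 1
      have e : (γ ++ (γ'.map (cs h)).reverse).length - 1 = (γ.length - 1) + (γ'.length - 1) + 1 := by
        rw [List.length_append, List.length_reverse, List.length_map]
        omega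
      rw [e, pow_succ, pow_add]
      ring
  have hW1 : (0 : ℝ) ≤ 2 * W + 1 := by
    have : (0 : ℝ) ≤ W := by exact_mod_cast hW
    linarith
  calc ENNReal.ofReal x * (Zm x (EE W (2 * h)) * Zm x (EE W (2 * h)))
      ≤ ENNReal.ofReal x * ((ENNReal.ofReal (2 * W + 1) * Zm x S) *
        (ENNReal.ofReal (2 * W + 1) * Zm x S)) := by gcongr
    _ = ENNReal.ofReal ((2 * W + 1) ^ 2) * (ENNReal.ofReal x * (Zm x S * Zm x S)) := by
        rw [ENNReal.ofReal_pow hW1]
        ring
    _ ≤ _ := by gcongr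

end Pool.Agent.U508.NC
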