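import Pool.Agent.U508.NC.Low

set_option autoImplicit false

/-! Upper bound of the partition function. -/

namespace Pool.Agent.U508.NC

open Pool.Agent.U508.ST Pool.Agent.W818.TD H978R2.Hex
open scoped ENNReal

/-- the move of `a` to the origin -/
def toO (a p : ℤ × ℤ) : ℤ × ℤ := if (a.1 + a.2) % 2 = 0 then p - a else a - p

theorem toO_inj (a : ℤ × ℤ) : Function.Injective (toO a) := by
  intro p q h
  unfold toO at h
  split_ifs at h with h1
  · exact sub_left_injective h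
  · exact sub_right_injective h

theorem toO_nbr {a p q : ℤ × ℤ} (h : Nbr p q) : Nbr (toO a p) (toO a q) := by
  unfold toO
  split_ifs with h1
  · rw [nbr_iff] at *
    simp only [Prod.fst_sub, Prod.snd_sub]
    omega
  · rw [nbr_iff] at *
    simp only [Prod.fst_sub, Prod.snd_sub]
    omega

theorem toO_SA {D : Set (ℤ × ℤ)} {a b : ℤ × ℤ} {l : List (ℤ × ℤ)} (h : l ∈ Pt D a b) {n : ℕ}
    (hn : l.length = n + 1) : l.map (toO a) ∈ SA n := by
  obtain ⟨h1, h2, h3, h4, h5⟩ := h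
  refine ⟨⟨by rw [List.length_map, hn], ?_, h4.map (toO_inj a)⟩, ?_⟩
  · rw [List.isChain_map]
    exact h3.imp fun {p q} h => nbr_adj.1 (toO_nbr h)
  · rw [List.head?_map, h1]
    simp only [Option.map_some, Option.some.injEq]
    unfold toO
    split_ifs <;> (rw [sub_self]; rfl)

theorem count {D : Set (ℤ × ℤ)} {a b : ℤ × ℤ} (F : Finset (List (ℤ × ℤ))) (n : ℕ)
    (hF : ∀ l ∈ F, l ∈ Pt D a b ∧ l.length = n + 1) : F.card ≤ (saws n).ncard := by
  classical
  rw [← SA_ncard, ← Set.ncard_coe_finset]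
  refine Set.ncard_le_ncard_of_injOn (fun l => l.map (toO a)) ?_ ?_ (SA_finite n)
  · intro l hl
    exact toO_SA (hF l hl).1 (hF l hl).2
  · intro l _ l' _ e
    exact List.map_injective_iff.2 (toO_inj a) e

theorem len_le {D : Finset (ℤ × ℤ)} {a b : ℤ × ℤ} {l : List (ℤ × ℤ)}
    (h : l ∈ Pt (D : Set (ℤ × ℤ)) a b) : l.length ≤ D.card := by
  classical
  rw [← List.toFinset_card_of_nodup h.2.2.2.1]
  apply Finset.card_le_card
  intro p hp
  rw [List.mem_toFinset] at hp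
  exact h.2.2.2.2 p hp

theorem upper : ∃ K : ℝ, 0 ≤ K ∧ ∀ (D : Finset (ℤ × ℤ)) (a b : ℤ × ℤ) (S : Set (List (ℤ × ℤ))),
    S ⊆ Pt (D : Set (ℤ × ℤ)) a b → ∀ ε : ℝ, 0 ≤ ε → ∀ m : ℝ, (∀ l ∈ S, ((l.length - 1 : ℕ) : ℝ) ≤ m) →
      Zm (mu0⁻¹ * Real.exp ε) S ≤
        ENNReal.ofReal (Real.exp (ε * m + K * Real.log (D.card + 2) ^ 2)) := by
  classical
  obtain ⟨K0, C1, hK0, hC1, hup⟩ := saws_upper'
  have hl2 := log_two_half
  refine ⟨K0 + 2 + 4 * Real.log C1, by have := Real.log_nonneg hC1; positivity, ?_⟩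
  intro D a b S hS ε hε m hm
  set n := D.card with hn
  have hmu := inv_pos.2 mu0_pos
  have hlC := Real.log_nonneg hC1
  have hlog : 1 / 2 ≤ Real.log ((n : ℝ) + 2) := by
    have : Real.log 2 ≤ Real.log ((n : ℝ) + 2) :=
      Real.log_le_log (by norm_num) (by linarith [Nat.cast_nonneg (α := ℝ) n])
    linarith
  unfold Zm
  rw [ENNReal.tsum_eq_iSup_sum]
  refine iSup_le fun F => ?_
  rw [← ENNReal.ofReal_sum_of_nonneg (fun i _ => by positivity)]
  apply ENNReal.ofReal_le_ofReal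
  set G : Finset (List (ℤ × ℤ)) := F.map ⟨Subtype.val, Subtype.val_injective⟩ with hG
  have hGS : ∀ l ∈ G, l ∈ S := by
    intro l hl
    rw [hG, Finset.mem_map] at hl
    obtain ⟨y, -, rfl⟩ := hl
    exact y.2
  have e1 : ∑ l ∈ F, (mu0⁻¹ * Real.exp ε) ^ (l.1.length - 1) =
      ∑ l ∈ G, (mu0⁻¹ * Real.exp ε) ^ (l.length - 1) := by
    rw [hG, Finset.sum_map]
    rfl
  rw [e1]
  have e2 : ∀ l ∈ G, (mu0⁻¹ * Real.exp ε) ^ (l.length - 1) ≤
      Real.exp (ε * m) * (mu0⁻¹) ^ (l.length - 1) := by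
    intro l hl
    rw [mul_pow, mul_comm, ← Real.exp_nat_mul]
    apply mul_le_mul_of_nonneg_right _ (by positivity)
    apply Real.exp_le_exp.2
    have := hm l (hGS l hl)
    calc ((l.length - 1 : ℕ) : ℝ) * ε ≤ m * ε := by gcongr
      _ = ε * m := mul_comm _ _
  refine (Finset.sum_le_sum e2).trans ?_
  rw [← Finset.mul_sum, Real.exp_add]
  apply mul_le_mul_of_nonneg_left _ (Real.exp_pos _).le
  have e3 : ∑ l ∈ G, (mu0⁻¹) ^ (l.length - 1) =
      ∑ i ∈ Finset.range n, ∑ l ∈ G with l.length - 1 = i, (mu0⁻¹) ^ (l.length - 1) := by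
    rw [Finset.sum_fiberwise_of_maps_to]
    intro l hl
    rw [Finset.mem_range]
    have h1 := len_le (hS (hGS l hl))
    have h2 := List.length_pos_of_ne_nil (Pt.ne (hS (hGS l hl)))
    omega
  rw [e3]
  have e4 : ∀ i ∈ Finset.range n, ∑ l ∈ G with l.length - 1 = i, (mu0⁻¹) ^ (l.length - 1) ≤
      C1 * Real.exp (K0 * Real.log (n + 2) ^ 2) := by
    intro i hi
    rw [Finset.mem_range] at hi
    have h1 : ∀ l ∈ G.filter (fun l => l.length - 1 = i), (mu0⁻¹) ^ (l.length - 1) = (mu0⁻¹) ^ i := by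
      intro l hl
      rw [(Finset.mem_filter.1 hl).2]
    rw [Finset.sum_congr rfl h1, Finset.sum_const, nsmul_eq_mul]
    have h2 : (G.filter (fun l => l.length - 1 = i)).card ≤ (saws i).ncard := by
      apply count (D := (D : Set (ℤ × ℤ))) (a := a) (b := b)
      intro l hl
      rw [Finset.mem_filter] at hl
      refine ⟨hS (hGS l hl.1), ?_⟩
      have h3 := List.length_pos_of_ne_nil (Pt.ne (hS (hGS l hl.1)))
      omega
    have h3 := hup i n hi.le
    calc ((G.filter (fun l => l.length - 1 = i)).card : ℝ) * (mu0⁻¹) ^ i ≤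
        ((saws i).ncard : ℝ) * (mu0⁻¹) ^ i := by
          apply mul_le_mul_of_nonneg_right _ (by positivity)
          exact_mod_cast h2
      _ ≤ (C1 * Real.exp (K0 * Real.log (n + 2) ^ 2) * mu0 ^ i) * (mu0⁻¹) ^ i := by gcongr
      _ = C1 * Real.exp (K0 * Real.log (n + 2) ^ 2) * ((mu0⁻¹) ^ i * mu0 ^ i) := by ring
      _ = _ := by rw [xc_pow, mul_one]
  refine (Finset.sum_le_sum e4).trans ?_
  rw [Finset.sum_const, Finset.card_range, nsmul_eq_mul]
  have h5 : (n : ℝ) ≤ Real.exp (2 * Real.log (n + 2) ^ 2) := by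
    have h6 : (n : ℝ) + 2 = Real.exp (Real.log (n + 2)) :=
      (Real.exp_log (by positivity)).symm
    have h7 : Real.exp (Real.log ((n : ℝ) + 2)) ≤ Real.exp (2 * Real.log (n + 2) ^ 2) := by
      apply Real.exp_le_exp.2
      nlinarith
    linarith
  have h6 : C1 ≤ Real.exp (4 * Real.log C1 * Real.log (n + 2) ^ 2) := by
    have h7 : C1 = Real.exp (Real.log C1) := (Real.exp_log (by linarith)).symm
    have h8 : Real.exp (Real.log C1) ≤ Real.exp (4 * Real.log C1 * Real.log (n + 2) ^ 2) := by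
      apply Real.exp_le_exp.2
      have h9 : 1 ≤ 4 * Real.log ((n : ℝ) + 2) ^ 2 := by nlinarith
      calc Real.log C1 = Real.log C1 * 1 := (mul_one _).symm
        _ ≤ Real.log C1 * (4 * Real.log ((n : ℝ) + 2) ^ 2) := by gcongr
        _ = _ := by ring
    linarith
  calc (n : ℝ) * (C1 * Real.exp (K0 * Real.log (n + 2) ^ 2)) ≤
      Real.exp (2 * Real.log (n + 2) ^ 2) * (Real.exp (4 * Real.log C1 * Real.log (n + 2) ^ 2) *
        Real.exp (K0 * Real.log (n + 2) ^ 2)) := by gcongr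
    _ = Real.exp ((K0 + 2 + 4 * Real.log C1) * Real.log (n + 2) ^ 2) := by
        rw [← Real.exp_add, ← Real.exp_add]
        congr 1
        ring

/-- real form -/
noncomputable def Z (x : ℝ) (S : Set (List (ℤ × ℤ))) : ℝ := ∑' l : S, x ^ (l.1.length - 1)

theorem Z_eq {x : ℝ} (hx : 0 ≤ x) (S : Set (List (ℤ × ℤ))) : Z x S = (Zm x S).toReal := by
  unfold Z Zm
  rw [ENNReal.tsum_toReal_eq (fun _ => ENNReal.ofReal_ne_top)]
  refine tsum_congr fun l => ?_
  rw [ENNReal.toReal_ofReal (by positivity)]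

end Pool.Agent.U508.NC
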